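import Pool.Agent.UM.Stmts
import Pool.Agent.Lib_helper26.TQ.Modes

/-!
# MODES: PP mode and parity mode are PSPACE modes
-/

set_option autoImplicit false

namespace Pool.Agent.UM

namespace MODES

open Finset
open Pool.Agent.Lib_helper45.PPQ2 (Game game_congr game_true game_false val exists_val qq length_qq
  dec evl cn cn_zero cn_succ cn_le game_count)
open Pool.Agent.Lib_helper26.TQ (Alt alt_iff alt_congr card_eq_cn qp length_qp dpar game_parity)

variable {I A V G : Type}

/-- other accepting states -/
def withAcc (M : Mach I A V G) (a : V → Prop) : Mach I A V G where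
  start := M.start
  init := M.init
  query := M.query
  addr := M.addr
  next := M.next
  acc := a

theorem withAcc_conf (M : Mach I A V G) (a : V → Prop) (x : I → A) (t : ℕ) :
    (withAcc M a).conf x t = M.conf x t := by
  induction t with
  | zero => rfl
  | succ t ih =>
    rw [Mach.conf, Mach.conf, ih]
    rfl

theorem withAcc_reg (M : Mach I A V G) (a : V → Prop) (x : I → A) (t : ℕ) :
    (withAcc M a).reg x t = M.reg x t := by
  show M.addr t ((withAcc M a).conf x t).1 = M.addr t (M.conf x t).1
  rw [withAcc_conf]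

theorem withAcc_far (M : Mach I A V G) (a : V → Prop) (δ T : ℕ) (x : I → A) :
    (withAcc M a).far δ T x = M.far δ T x := by
  unfold Mach.far
  simp only [withAcc_reg]

theorem withAcc_accepts (M : Mach I A V G) (a : V → Prop) (T : ℕ) (x : I → A) :
    (withAcc M a).Accepts T x ↔ a (M.conf x T).1 := by
  show a ((withAcc M a).conf x T).1 ↔ _
  rw [withAcc_conf]

theorem dec_compl {T δ J : ℕ} {L : (I → A) → Prop} (h : Dec I A V G T δ J L) :
    Dec I A V G T δ J fun x => ¬ L x := by
  obtain ⟨M, hM, hL⟩ := h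
  refine ⟨withAcc M fun v => ¬ M.acc v, fun x => ?_, fun x => ?_⟩
  · rw [withAcc_far]
    exact hM x
  · rw [withAcc_accepts]
    exact not_congr (hL x)

theorem dec_const {T δ J : ℕ} {L : (I → A) → Prop} (h : Dec I A V G T δ J L) (b : Prop) :
    Dec I A V G T δ J fun _ => b := by
  obtain ⟨M, hM, hL⟩ := h
  refine ⟨withAcc M fun _ => b, fun x => ?_, fun x => ?_⟩
  · rw [withAcc_far]
    exact hM x
  · rw [withAcc_accepts]

theorem pp {C : ((I → A) → Prop) → Prop} {W : ℕ} {L : (I → A) → Prop}
    (hc : ∀ (L : (I → A) → Prop) (b : Prop), C L → C fun _ => b) (h : InPP C W L) :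
    InPSPACE C (W * (W + 3) / 2) L := by
  classical
  obtain ⟨P, hP, hL⟩ := h
  have h0 : 0 < 2 ^ W := by positivity
  let B : List Bool → (I → A) → Prop := fun w =>
    match dec W (2 ^ W / 2 + 1) 0 w with
    | Sum.inl b => fun _ => b = true
    | Sum.inr j => if h : j < 2 ^ W then P ⟨j, h⟩ else fun _ => False
  refine ⟨qq W, B, ?_, ?_, ?_⟩
  · have := length_qq W
    omega
  · intro w
    simp only [B]
    rcases dec W (2 ^ W / 2 + 1) 0 w with b | j
    · exact hc _ _ (hP ⟨0, h0⟩)
    · simp only
      split_ifs with h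
      · exact hP _
      · exact hc _ _ (hP ⟨0, h0⟩)
  · intro z
    let p : ℕ → Prop := fun j => ∃ h : j < 2 ^ W, P ⟨j, h⟩ z
    have h1 : ∀ w, B w z ↔ evl p (dec W (2 ^ W / 2 + 1) 0 w) := by
      intro w
      simp only [B]
      rcases dec W (2 ^ W / 2 + 1) 0 w with b | j
      · exact Iff.rfl
      · simp only [evl, p]
        split_ifs with h
        · exact ⟨fun h' => ⟨h, h'⟩, fun ⟨_, h'⟩ => h'⟩
        · simp [h]
    rw [alt_iff, game_congr h1, game_count, hL z]
    have h2 : cn p W 0 = Nat.card {w // P w z} := by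
      symm
      refine card_eq_cn _ p fun i => ?_
      exact ⟨fun ⟨_, h'⟩ => h', fun h' => ⟨i.2, h'⟩⟩
    rw [h2]
    omega

theorem parity {C : ((I → A) → Prop) → Prop} {W : ℕ} {L : (I → A) → Prop}
    (hc : ∀ (L : (I → A) → Prop) (b : Prop), C L → C fun _ => b)
    (hn : ∀ L : (I → A) → Prop, C L → C fun x => ¬ L x) (h : InParity C W L) :
    InPSPACE C (2 * W) L := by
  classical
  obtain ⟨P, hP, hL⟩ := h
  have h0 : 0 < 2 ^ W := by positivity
  let Q : ℕ → (I → A) → Prop := fun j => if h : j < 2 ^ W then P ⟨j, h⟩ else fun _ => False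
  have hQ : ∀ j, C (Q j) := by
    intro j
    simp only [Q]
    split_ifs with h
    · exact hP _
    · exact hc _ _ (hP ⟨0, h0⟩)
  let B : List Bool → (I → A) → Prop := fun w =>
    if (dpar W 0 true w).2 = true then Q (dpar W 0 true w).1
    else fun x => ¬ Q (dpar W 0 true w).1 x
  refine ⟨qp W, B, (length_qp W).le, fun w => ?_, fun z => ?_⟩
  · simp only [B]
    split_ifs with hb
    · exact hQ _
    · exact hn _ (hQ _)
  let p : ℕ → Prop := fun j => Q j z
  have h1 : ∀ w, B w z ↔ (p (dpar W 0 true w).1 ↔ (dpar W 0 true w).2 = true) := by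
    intro w
    simp only [B, p]
    split_ifs with hb
    · simp [hb]
    · simp [hb]
  rw [alt_congr h1, game_parity, hL z]
  have h2 : cn p W 0 = Nat.card {w // P w z} := by
    symm
    refine card_eq_cn _ p fun i => ?_
    simp only [p, Q]
    rw [dif_pos i.2]
  rw [h2]
  simp

end MODES

theorem modes : MODES_Stmt := by
  intro I A V G T δ J W L
  refine ⟨MODES.pp fun L b h => MODES.dec_const h b, ?_⟩
  exact MODES.parity (fun L b h => MODES.dec_const h b) fun L h => MODES.dec_compl h

end Pool.Agent.UM
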