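import Pool.Agent.UM.Stmts
import Pool.Agent.Lib_helper26.TB.PP

/-!
# PARM: the form is in parity mode
-/

set_option autoImplicit false

namespace Pool.Agent.UM

open Finset

namespace PARM

open Pool.Agent.Lib_helper26.TB (odd_card)

theorem zmod2 (a : ZMod 2) : a = 0 ∨ a = 1 := by
  revert a
  decide

/-- sums of few members of a class are in parity mode -/
theorem par_sum {I A Mon : Type} [Fintype Mon] {w : ℕ} (𝓒 : ((I → A) → Prop) → Prop)
    (hF : 𝓒 fun _ => False) (g : Mon → (I → A) → ZMod 2) (hg : ∀ q, 𝓒 fun z => g q z = 1)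
    (hc : Fintype.card Mon ≤ 2 ^ w) : InParity 𝓒 w (fun z => ∑ q, g q z = 1) := by
  classical
  set e := Fintype.equivFin Mon with he
  set c := Fintype.card Mon with hcd
  let P : Fin (2 ^ w) → (I → A) → Prop :=
    fun v => if h : v.val < c then fun z => g (e.symm ⟨v.val, h⟩) z = 1 else fun _ => False
  refine ⟨P, fun v => ?_, fun z => ?_⟩
  · by_cases h : v.val < c
    · have e1 : P v = fun z => g (e.symm ⟨v.val, h⟩) z = 1 := by simp only [P, dif_pos h]
      rw [e1]
      exact hg _
    · have e1 : P v = fun _ => False := by simp only [P, dif_neg h]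
      rw [e1]
      exact hF
  rw [odd_card]
  have h1 : ∀ v, (if P v z then (1 : ZMod 2) else 0) =
      if h : v.val < c then g (e.symm ⟨v.val, h⟩) z else 0 := by
    intro v
    by_cases h : v.val < c
    · rw [dif_pos h]
      have e1 : P v z ↔ g (e.symm ⟨v.val, h⟩) z = 1 := by simp only [P, dif_pos h]
      rcases zmod2 (g (e.symm ⟨v.val, h⟩) z) with h3 | h3
      · rw [h3, if_neg]
        rw [e1, h3]
        decide
      · rw [h3, if_pos]
        rw [e1, h3]
    · rw [dif_neg h, if_neg]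
      intro hp
      simp only [P, dif_neg h] at hp
  rw [Finset.sum_congr rfl fun v _ => h1 v]
  have h4 := Fin.sum_univ_eq_sum_range (fun i => if h : i < c then g (e.symm ⟨i, h⟩) z else 0)
  have h3 : (∑ v : Fin (2 ^ w), if h : v.val < c then
      g (e.symm ⟨v.val, h⟩) z else 0) = ∑ q, g q z := by
    rw [h4 (2 ^ w)]
    have h5 : ∑ q, g q z = ∑ i ∈ range c, (if h : i < c then g (e.symm ⟨i, h⟩) z else 0) := by
      rw [← h4 c, ← Equiv.sum_comp e.symm]
      refine Finset.sum_congr rfl fun a _ => ?_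
      rw [dif_pos a.2]
    rw [h5]
    symm
    refine Finset.sum_subset (fun i hi => ?_) fun i _ hi => ?_
    · rw [mem_range] at hi ⊢
      omega
    · rw [mem_range] at hi
      rw [dif_neg hi]
  rw [h3]

variable {n m : ℕ}

/-- the indices of the monomials -/
abbrev Mon (n m : ℕ) : Type := Fin m × Fin m × Fin n × Fin n × Fin n × Fin n

/-- the coefficient of a monomial -/
noncomputable def coef (α : Fin n → GaloisField 2 n) (q : Mon n m) : ZMod 2 :=
  Algebra.trace (ZMod 2) (GaloisField 2 n)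
    (α q.2.2.1 * α q.2.2.2.1 ^ (2 ^ (q.2.1 : ℕ)) * α q.2.2.2.2.1 * α q.2.2.2.2.2)

/-- a monomial -/
noncomputable def mon (α : Fin n → GaloisField 2 n) (q : Mon n m) (z : ECell n m → ZMod 2) :
    ZMod 2 :=
  coef α q * z (Sum.inl (q.2.1, q.2.2.1)) * z (Sum.inr (q.1, 0, q.2.2.2.1)) *
    z (Sum.inr (q.1, 1, q.2.2.2.2.1)) * z (Sum.inr (q.1, 2, q.2.2.2.2.2))

theorem elt_pow (α : Fin n → GaloisField 2 n) (x : Fin n → ZMod 2) (k : ℕ) :
    elt α x ^ (2 ^ k) = ∑ i, x i • α i ^ (2 ^ k) := by
  unfold elt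
  rw [sum_pow_char_pow]
  refine Finset.sum_congr rfl fun i _ => ?_
  rw [smul_pow, ZMod.pow_card_pow]

theorem quad {F ιk ιa ιb ιc ιd : Type} [Fintype ιk] [Fintype ιa] [Fintype ιb] [Fintype ιc]
    [Fintype ιd] [CommRing F] (f : ιk → ιa → F) (g : ιk → ιb → F) (h : ιc → F) (t : ιd → F) :
    (∑ k, (∑ a, f k a) * (∑ b, g k b)) * (∑ c, h c) * (∑ d, t d) =
      ∑ k, ∑ a, ∑ b, ∑ c, ∑ d, f k a * g k b * h c * t d := by
  rw [Finset.sum_mul, Finset.sum_mul]
  refine Finset.sum_congr rfl fun k _ => ?_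
  rw [Finset.sum_mul_sum, Finset.sum_mul, Finset.sum_mul]
  refine Finset.sum_congr rfl fun a _ => ?_
  rw [Finset.sum_mul, Finset.sum_mul]
  refine Finset.sum_congr rfl fun b _ => ?_
  rw [mul_assoc, Finset.sum_mul_sum, Finset.mul_sum]
  refine Finset.sum_congr rfl fun c _ => ?_
  rw [Finset.mul_sum]
  refine Finset.sum_congr rfl fun d _ => ?_
  ring

theorem form_eq (α : Fin n → GaloisField 2 n) (z : ECell n m → ZMod 2) :
    form α z = ∑ q : Mon n m, mon α q z := by
  unfold form lpol
  rw [map_sum, Fintype.sum_prod_type]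
  refine Finset.sum_congr rfl fun p _ => ?_
  have h1 : (∑ k : Fin m, (elt α fun i => z (Sum.inl (k, i))) *
      (elt α fun i => z (Sum.inr (p, 0, i))) ^ (2 ^ (k : ℕ))) =
      ∑ k : Fin m, (∑ a, z (Sum.inl (k, a)) • α a) *
        ∑ b, z (Sum.inr (p, 0, b)) • α b ^ (2 ^ (k : ℕ)) := by
    refine Finset.sum_congr rfl fun k _ => ?_
    rw [elt_pow]
    rfl
  rw [h1]
  unfold elt
  rw [quad, map_sum, Fintype.sum_prod_type]
  refine Finset.sum_congr rfl fun k _ => ?_
  rw [map_sum, Fintype.sum_prod_type]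
  refine Finset.sum_congr rfl fun a _ => ?_
  rw [map_sum, Fintype.sum_prod_type]
  refine Finset.sum_congr rfl fun b _ => ?_
  rw [map_sum, Fintype.sum_prod_type]
  refine Finset.sum_congr rfl fun c _ => ?_
  rw [map_sum]
  refine Finset.sum_congr rfl fun d _ => ?_
  rw [smul_mul_smul_comm, smul_mul_smul_comm, smul_mul_smul_comm, map_smul, smul_eq_mul]
  unfold mon coef
  ring

/-- four steps: the product of a constant and four bits -/
noncomputable def monM (α : Fin n → GaloisField 2 n) (q : Mon n m) :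
    Mach (ECell n m) (ZMod 2) (ZMod 2) Unit where
  start := coef α q
  init := fun _ => ()
  query := fun t _ => if t = 0 then Sum.inl (q.2.1, q.2.2.1) else
    if t = 1 then Sum.inr (q.1, 0, q.2.2.2.1) else
    if t = 2 then Sum.inr (q.1, 1, q.2.2.2.2.1) else Sum.inr (q.1, 2, q.2.2.2.2.2)
  addr := fun _ _ => 0
  next := fun t v a _ => (if t < 4 then v * a else v, ())
  acc := fun v => v = 1

theorem monM_state (α : Fin n → GaloisField 2 n) (q : Mon n m) (z : ECell n m → ZMod 2) (t : ℕ) :
    ((monM α q).conf z (t + 4)).1 = mon α q z := by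
  induction t with
  | zero => rfl
  | succ t ih =>
    have h : ((monM α q).conf z (t + 1 + 4)).1 = ((monM α q).conf z (t + 4)).1 := by
      show (if t + 4 < 4 then ((monM α q).conf z (t + 4)).1 *
        z ((monM α q).query (t + 4) ((monM α q).conf z (t + 4)).1) else
          ((monM α q).conf z (t + 4)).1) = _
      rw [if_neg (by omega)]
    rw [h, ih]

/-- machines that use one register make no far access -/
theorem far_zero {I A V : Type} (M : Mach I A V Unit) (h : ∀ t v, M.addr t v = 0) (T : ℕ)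
    (x : I → A) : M.far 0 T x ≤ 0 := by
  unfold Mach.far Mach.reg
  rw [Finset.filter_eq_empty_iff.2]
  · simp
  · intro t _
    rw [h, h]
    simp

/-- the machine that rejects -/
def rejM (I A : Type) (i : I) : Mach I A (ZMod 2) Unit where
  start := 0
  init := fun _ => ()
  query := fun _ _ => i
  addr := fun _ _ => 0
  next := fun _ v _ _ => (v, ())
  acc := fun _ => False

end PARM

open PARM in
theorem parm : PARM_Stmt := by
  intro n m T α hn hm hT
  obtain ⟨t, rfl⟩ : ∃ t, T = t + 4 := ⟨T - 4, by omega⟩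
  have h := par_sum (w := Nat.clog 2 (m ^ 2 * n ^ 4))
    (Dec (ECell n m) (ZMod 2) (ZMod 2) Unit (t + 4) 0 0)
    ⟨rejM (ECell n m) (ZMod 2) (Sum.inl (⟨0, hm⟩, ⟨0, hn⟩)), fun x => far_zero _ (fun _ _ => rfl) _ x,
      fun x => Iff.rfl⟩
    (fun (q : Mon n m) z => mon α q z)
    (fun q => ⟨monM α q, fun x => far_zero _ (fun _ _ => rfl) _ x, fun x => by
      show mon α q x = 1 ↔ ((monM α q).conf x (t + 4)).1 = 1
      rw [monM_state]⟩) (by
      refine le_trans (le_of_eq ?_) (Nat.le_pow_clog (by norm_num) _)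
      simp only [Fintype.card_prod, Fintype.card_fin]
      ring)
  have e : (fun z : ECell n m → ZMod 2 => form α z = 1) = fun z => ∑ q : Mon n m, mon α q z = 1 := by
    funext z
    rw [form_eq]
  rw [e]
  exact h

end Pool.Agent.UM
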