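import Pool.Agent.Lib_helper26.TQ.Alt

/-!
# Nonuniform machines with random access to the input and an unbounded memory; the modes
-/

set_option autoImplicit false

namespace Pool.Agent.UM

open Finset
open Pool.Agent.Lib_helper26.TQ (Alt)

/-- A nonuniform machine for inputs `x : I → A` (cells `I`, words `A`) with states `V` and an
unbounded read-write memory: a register with contents in `G` at every integer. At time `t` in state
`v` it reads the input cell `query t v` and the register `addr t v`; the words read in them and
`next` give the next state and the new contents of this register. -/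
structure Mach (I A V G : Type) where
  /-- initial state -/
  start : V
  /-- initial contents of the registers -/
  init : ℤ → G
  /-- the input cell read at time `t` in state `v` -/
  query : ℕ → V → I
  /-- the register used at time `t` in state `v` -/
  addr : ℕ → V → ℤ
  /-- next state and new contents of the register used -/
  next : ℕ → V → A → G → V × G
  /-- accepting states -/
  acc : V → Prop

variable {I A V G : Type}

/-- The state and the contents of the registers after `t` steps on input `x`. -/
def Mach.conf (M : Mach I A V G) (x : I → A) : ℕ → V × (ℤ → G)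
  | 0 => (M.start, M.init)
  | t + 1 =>
    let c := M.conf x t
    let r := M.next t c.1 (x (M.query t c.1)) (c.2 (M.addr t c.1))
    (r.1, Function.update c.2 (M.addr t c.1) r.2)

/-- The register used at time `t`. -/
def Mach.reg (M : Mach I A V G) (x : I → A) (t : ℕ) : ℤ := M.addr t (M.conf x t).1

/-- The number of far accesses during the first `T` steps: accesses to a register at distance more
than `δ` from the register used one step earlier. -/
def Mach.far (M : Mach I A V G) (δ T : ℕ) (x : I → A) : ℕ :=
  ((range (T - 1)).filter fun t => (δ : ℤ) < |M.reg x (t + 1) - M.reg x t|).card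

/-- The machine accepts `x` after `T` steps. -/
def Mach.Accepts (M : Mach I A V G) (T : ℕ) (x : I → A) : Prop := M.acc (M.conf x T).1

/-- The set of inputs `L` is decided in `T` steps by a machine with states `V` and registers `G`
that makes at most `J` far accesses (distance more than `δ`) on every input. -/
def Dec (I A V G : Type) (T δ J : ℕ) (L : (I → A) → Prop) : Prop :=
  ∃ M : Mach I A V G, (∀ x, M.far δ T x ≤ J) ∧ ∀ x, L x ↔ M.Accepts T x

/-- PP mode with `W` random bits over the class `𝓒`: more than half of `2 ^ W` members of the
class accept. -/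
def InPP (𝓒 : ((I → A) → Prop) → Prop) (W : ℕ) (L : (I → A) → Prop) : Prop :=
  ∃ P : Fin (2 ^ W) → (I → A) → Prop, (∀ w, 𝓒 (P w)) ∧
    ∀ x, L x ↔ 2 ^ W < 2 * Nat.card {w // P w x}

/-- Parity mode with `W` bits: an odd number of the `2 ^ W` members accept. -/
def InParity (𝓒 : ((I → A) → Prop) → Prop) (W : ℕ) (L : (I → A) → Prop) : Prop :=
  ∃ P : Fin (2 ^ W) → (I → A) → Prop, (∀ w, 𝓒 (P w)) ∧
    ∀ x, L x ↔ Odd (Nat.card {w // P w x})

/-- PSPACE mode with `W` bits: in the game `Alt` with a fixed string of at most `W` quantifiers
over bits the member of the list of the chosen bits accepts. -/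
def InPSPACE (𝓒 : ((I → A) → Prop) → Prop) (W : ℕ) (L : (I → A) → Prop) : Prop :=
  ∃ (qs : List Bool) (P : List Bool → (I → A) → Prop), qs.length ≤ W ∧ (∀ w, 𝓒 (P w)) ∧
    ∀ x, L x ↔ Alt qs fun w => P w x

open Classical in
/-- Randomised mode with gap `1 / 2 ^ W`: there are a finite probability space `Ω` (any number of
random bits) and members `P ω` of the class such that inputs of `L` are accepted with probability
at least `1/2 + 1/2^W`, the others with probability at most `1/2 - 1/2^W`. -/
def InGap (𝓒 : ((I → A) → Prop) → Prop) (W : ℕ) (L : (I → A) → Prop) : Prop :=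
  ∃ (Ω : Type) (_ : Fintype Ω) (p : Ω → ℝ) (P : Ω → (I → A) → Prop), (∀ ω, 𝓒 (P ω)) ∧
    (∀ ω, 0 ≤ p ω) ∧ ∑ ω, p ω = 1 ∧ ∀ x,
      (L x → 1 / 2 + 1 / 2 ^ W ≤ ∑ ω, if P ω x then p ω else 0) ∧
      (¬ L x → (∑ ω, if P ω x then p ω else 0) ≤ 1 / 2 - 1 / 2 ^ W)

/-! ### The function -/

/-- The input cells: `m` coefficients and `m` points with three coordinates, each of `n` bits. -/
abbrev ECell (n m : ℕ) : Type := (Fin m × Fin n) ⊕ (Fin m × (Fin 3 × Fin n))

variable {n m : ℕ}

/-- The field element with the coordinates `x`. -/
noncomputable def elt (α : Fin n → GaloisField 2 n) (x : Fin n → ZMod 2) : GaloisField 2 n :=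
  ∑ i, x i • α i

/-- The value `∑ k, s k * X ^ (2 ^ k)` of the linearised polynomial with coefficients `s`. -/
noncomputable def lpol (s : Fin m → GaloisField 2 n) (X : GaloisField 2 n) : GaloisField 2 n :=
  ∑ k : Fin m, s k * X ^ (2 ^ (k : ℕ))

/-- `Tr (∑ p, S (X p) * Y p * Z p)` where `S` is the linearised polynomial with the `m` coefficients
and `(X p, Y p, Z p)` are the `m` points of the input; `α` is a basis of the field. -/
noncomputable def form (α : Fin n → GaloisField 2 n) (z : ECell n m → ZMod 2) : ZMod 2 :=
  Algebra.trace (ZMod 2) (GaloisField 2 n) (∑ p : Fin m,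
    lpol (fun k => elt α fun i => z (Sum.inl (k, i))) (elt α fun i => z (Sum.inr (p, 0, i))) *
      elt α (fun i => z (Sum.inr (p, 1, i))) * elt α fun i => z (Sum.inr (p, 2, i)))

end Pool.Agent.UM
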