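import Pool.Agent.UM.Stmts

/-!
# Sizes of pieces and number of completions
-/

set_option autoImplicit false

namespace Pool.Agent.UM

open Finset

namespace COMP

variable {β : Type} [DecidableEq β] (b : ℕ → β)

/-- number of visits of the page `B` before time `t` -/
def vis (B : β) (t : ℕ) : ℕ := ((range t).filter fun t' => b t' = B).card

lemma vis_succ (B : β) (t : ℕ) : vis b B (t + 1) = vis b B t + if b t = B then 1 else 0 := by
  unfold vis
  rw [Finset.range_add_one, Finset.filter_insert]
  split_ifs with h
  · rw [Finset.card_insert_of_notMem (by simp)]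
  · simp

lemma vis_mono (B : β) : Monotone (vis b B) :=
  monotone_nat_of_le_succ fun t => by rw [vis_succ]; exact Nat.le_add_right _ _

lemma vis_lt {B : β} {t t' : ℕ} (h : t < t') (hb : b t = B) : vis b B t < vis b B t' := by
  have h1 : vis b B (t + 1) ≤ vis b B t' := vis_mono b B (Nat.succ_le_of_lt h)
  have h2 := vis_succ b B t
  rw [if_pos hb] at h2
  omega

lemma piece_card (L T : ℕ) (hL : 0 < L) (j : β × ℕ) :
    ((range T).filter fun t => (b t, vis b (b t) t / L) = j).card ≤ L := by
  obtain ⟨B, q⟩ := j
  have h1 : (((range T).filter fun t => (b t, vis b (b t) t / L) = (B, q)).card) ≤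
      (Finset.Ico (q * L) (q * L + L)).card := by
    apply Finset.card_le_card_of_injOn (fun t => vis b B t)
    · intro t ht
      rw [Finset.mem_coe, Finset.mem_filter, Prod.mk.injEq] at ht
      obtain ⟨-, h2, h3⟩ := ht
      rw [h2] at h3
      rw [Finset.mem_coe, Finset.mem_Ico]
      have h4 := Nat.div_add_mod (vis b B t) L
      have h5 := Nat.mod_lt (vis b B t) hL
      rw [h3, mul_comm] at h4
      show q * L ≤ vis b B t ∧ vis b B t < q * L + L
      constructor <;> omega
    · intro t ht t' ht' h
      rw [Finset.mem_coe, Finset.mem_filter, Prod.mk.injEq] at ht ht'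
      change vis b B t = vis b B t' at h
      rcases lt_trichotomy t t' with h2 | h2 | h2
      · exact absurd h (vis_lt b h2 ht.2.1).ne
      · exact h2
      · exact absurd h (vis_lt b h2 ht'.2.1).ne'
  rw [Nat.card_Ico] at h1
  omega

lemma compl_card (L : ℕ) (S : Finset β) : ∀ T : ℕ, (∀ t < T, b t ∈ S) →
    ((range T).filter fun t => L ∣ vis b (b t) t + 1).card = ∑ B ∈ S, vis b B T / L
  | 0, _ => by
      have : ∀ B, vis b B 0 = 0 := fun B => by simp [vis]
      simp [this]
  | T + 1, hS => by
      have ih := compl_card L S T (fun t ht => hS t (by omega))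
      have h1 : ∀ B ∈ S, vis b B (T + 1) / L = vis b B T / L +
          if B = b T then (if L ∣ vis b (b T) T + 1 then 1 else 0) else 0 := by
        intro B _
        rw [vis_succ]
        by_cases h : b T = B
        · rw [if_pos h, if_pos h.symm, Nat.succ_div, h]
        · rw [if_neg h, if_neg (fun h' => h h'.symm)]
          simp
      rw [Finset.sum_congr rfl h1, Finset.sum_add_distrib, ← ih, Finset.sum_ite_eq',
        if_pos (hS T (by omega)), Finset.range_add_one, Finset.filter_insert]
      split_ifs with h
      · rw [Finset.card_insert_of_notMem (by simp)]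
      · simp

end COMP

theorem comp : COMP_Stmt := by
  intro β _ b L T hL
  refine ⟨fun j => COMP.piece_card b L T hL j, ?_⟩
  have h1 := COMP.compl_card b L ((range T).image b) T
    (fun t ht => Finset.mem_image_of_mem b (Finset.mem_range.2 ht))
  change ((range T).filter fun t => L ∣ COMP.vis b (b t) t + 1).card ≤ T / L
  rw [h1, Nat.le_div_iff_mul_le hL, Finset.sum_mul]
  calc ∑ B ∈ (range T).image b, COMP.vis b B T / L * L ≤
      ∑ B ∈ (range T).image b, COMP.vis b B T :=
        Finset.sum_le_sum fun B _ => Nat.div_mul_le_self _ _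
    _ = (range T).card :=
        (Finset.card_eq_sum_card_fiberwise (fun t ht => Finset.mem_image_of_mem b ht)).symm
    _ = T := Finset.card_range T

end Pool.Agent.UM
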