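import Pool.Agent.UM.Stmts

/-!
# The mixed run of a machine with pages
-/

set_option autoImplicit false

namespace Pool.Agent.UM

open Finset

namespace MIX

variable {I A V R G β : Type} [DecidableEq R] [DecidableEq β] (M : OM I A V R G) (pg : R → β)

theorem st_succ (x : I → A) (t : ℕ) :
    M.st x (t + 1) = (M.next t (M.st x t) ((M.query t (M.st x t)).map x)
      (M.mem x t (M.addr t (M.st x t)))).1 := rfl

theorem mem_succ (x : I → A) (t : ℕ) :
    M.mem x (t + 1) = Function.update (M.mem x t) (M.addr t (M.st x t))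
      (M.next t (M.st x t) ((M.query t (M.st x t)).map x)
        (M.mem x t (M.addr t (M.st x t)))).2 := rfl

omit [DecidableEq β] in
theorem mem_other {x : I → A} {t : ℕ} {r : R} (h : pg r ≠ M.blk pg x t) :
    M.mem x (t + 1) r = M.mem x t r := by
  rw [mem_succ, Function.update_of_ne]
  rintro rfl
  exact h rfl

omit [DecidableEq β] in
/-- One step in the same state, with the same cell and the same contents of the page. -/
theorem step {x z : I → A} {t : ℕ} (hs : M.st z t = M.st x t)
    (hq : ∀ e, M.query t (M.st x t) = some e → z e = x e)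
    (hm : ∀ r, pg r = M.blk pg x t → M.mem z t r = M.mem x t r) :
    M.st z (t + 1) = M.st x (t + 1) ∧
      ∀ r, pg r = M.blk pg x t → M.mem z (t + 1) r = M.mem x (t + 1) r := by
  have h1 : (M.query t (M.st x t)).map z = (M.query t (M.st x t)).map x := by
    cases h : M.query t (M.st x t) with
    | none => rfl
    | some e => rw [Option.map_some, Option.map_some, hq e h]
  have h2 : M.mem z t (M.addr t (M.st x t)) = M.mem x t (M.addr t (M.st x t)) := hm _ rfl
  constructor
  · rw [st_succ, st_succ, hs, h1, h2]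
  · intro r hr
    rw [mem_succ, mem_succ, hs, h1, h2]
    by_cases h : r = M.addr t (M.st x t)
    · rw [h, Function.update_self, Function.update_self]
    · rw [Function.update_of_ne h, Function.update_of_ne h, hm r hr]

theorem vis_self (x : I → A) (t : ℕ) :
    M.vis pg x (M.blk pg x t) (t + 1) = M.vis pg x (M.blk pg x t) t + 1 := by
  unfold OM.vis
  rw [range_add_one, filter_insert, if_pos rfl, card_insert_of_notMem]
  simp

theorem vis_other {x : I → A} {t : ℕ} {B : β} (h : M.blk pg x t ≠ B) :
    M.vis pg x B (t + 1) = M.vis pg x B t := by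
  unfold OM.vis
  rw [range_add_one, filter_insert, if_neg h]

theorem vis_congr {x y : I → A} {t : ℕ} (h : ∀ t' < t, M.blk pg x t' = M.blk pg y t') (B : β) :
    M.vis pg x B t = M.vis pg y B t := by
  unfold OM.vis
  congr 1
  apply filter_congr
  intro t' ht'
  rw [h t' (mem_range.mp ht')]

/-- The pages of related runs agree. -/
theorem blk_eq {L T : ℕ} {x y : I → A} (h : M.Rel pg L T x y) :
    ∀ t < T, M.blk pg x t = M.blk pg y t
  | 0, _ => rfl
  | t + 1, ht => by
    have ih := blk_eq h t (by omega)
    by_cases h1 : M.blk pg x t ≠ M.blk pg x (t + 1) ∨ M.blk pg y t ≠ M.blk pg y (t + 1)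
    · have h2 := h.chg t ht h1
      unfold OM.blk
      rw [h2]
    · push Not at h1
      rw [← h1.1, ← h1.2, ih]

/-- The invariant of the mixed run. -/
structure Inv (L T : ℕ) (ω : β × ℕ → Bool) (x y z : I → A) (t : ℕ) : Prop where
  hist : ∀ t' < t, M.blk pg z t' = M.blk pg x t'
  mem : ∀ r, M.mem z t r = if ω (pg r, M.vis pg x (pg r) t / L) = true then M.mem x t r
    else M.mem y t r
  st : t < T → M.st z t = if ω (M.pc pg L x t) = true then M.st x t else M.st y t

variable {M pg}

theorem Inv.blk {L T : ℕ} {ω : β × ℕ → Bool} {x y z : I → A} {t : ℕ}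
    (hR : M.Rel pg L T x y) (h : Inv M pg L T ω x y z t) (ht : t < T) :
    M.blk pg z t = M.blk pg x t := by
  have h1 := h.st ht
  unfold OM.blk
  split_ifs at h1 with h2
  · rw [h1]
  · rw [h1]
    exact (blk_eq M pg hR t ht).symm

/-- The states and the page after one step. -/
theorem Inv.next {L T : ℕ} {ω : β × ℕ → Bool} {x y z : I → A} {t : ℕ}
    (hR : M.Rel pg L T x y)
    (hx : ∀ t < T, ω (M.pc pg L x t) = true → ∀ e, M.query t (M.st x t) = some e → z e = x e)
    (hy : ∀ t < T, ω (M.pc pg L y t) = false → ∀ e, M.query t (M.st y t) = some e → z e = y e)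
    (h : Inv M pg L T ω x y z t) (ht : t < T) :
    M.st z (t + 1) = (if ω (M.pc pg L x t) = true then M.st x (t + 1) else M.st y (t + 1)) ∧
      ∀ r, pg r = M.blk pg x t → M.mem z (t + 1) r =
        if ω (M.pc pg L x t) = true then M.mem x (t + 1) r else M.mem y (t + 1) r := by
  have h1 := h.st ht
  have hb := blk_eq M pg hR t ht
  have hpc : M.pc pg L y t = M.pc pg L x t := by
    unfold OM.pc
    rw [← hb, vis_congr M pg (fun t' ht' => blk_eq M pg hR t' (by omega))]
  by_cases h2 : ω (M.pc pg L x t) = true
  · rw [if_pos h2] at h1 ⊢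
    obtain ⟨h3, h4⟩ := step M pg h1 (hx t ht h2) (fun r hr => by
      rw [h.mem r, if_pos]
      rw [hr]
      exact h2)
    refine ⟨h3, fun r hr => ?_⟩
    rw [if_pos h2, h4 r hr]
  · rw [if_neg h2] at h1 ⊢
    obtain ⟨h3, h4⟩ := step M pg h1 (hy t ht (by rw [hpc]; simpa using h2)) (fun r hr => by
      rw [h.mem r, if_neg]
      rw [hr, ← hb]
      exact h2)
    refine ⟨h3, fun r hr => ?_⟩
    rw [if_neg h2, h4 r (by rw [← hb]; exact hr)]

/-- The invariant holds at all times. -/
theorem inv {L T : ℕ} {ω : β × ℕ → Bool} {x y z : I → A} (hR : M.Rel pg L T x y)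
    (hx : ∀ t < T, ω (M.pc pg L x t) = true → ∀ e, M.query t (M.st x t) = some e → z e = x e)
    (hy : ∀ t < T, ω (M.pc pg L y t) = false → ∀ e, M.query t (M.st y t) = some e → z e = y e) :
    ∀ t ≤ T, Inv M pg L T ω x y z t
  | 0, _ => by
    constructor
    · intro t' ht'
      omega
    · intro r
      split_ifs <;> rfl
    · intro _
      split_ifs <;> rfl
  | t + 1, ht => by
    have ih := inv hR hx hy t (by omega)
    have ht' : t < T := by omega
    have hb := blk_eq M pg hR t ht'
    have hz := ih.blk hR ht'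
    obtain ⟨h1, h2⟩ := ih.next hR hx hy ht'
    constructor
    · intro t' ht''
      rcases Nat.lt_succ_iff_lt_or_eq.mp ht'' with h | rfl
      · exact ih.hist t' h
      · exact hz
    · intro r
      by_cases hr : pg r = M.blk pg x t
      · rw [h2 r hr]
        by_cases hd : L ∣ M.vis pg x (M.blk pg x t) t + 1
        · have h3 := (hR.fin t ht' (Or.inl hd)).2 r hr
          rw [h3]
          split_ifs <;> rfl
        · rw [hr, vis_self, Nat.succ_div_of_not_dvd hd]
          rfl
      · have e1 : M.mem x (t + 1) r = M.mem x t r := mem_other M pg hr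
        have e2 : M.mem y (t + 1) r = M.mem y t r := mem_other M pg (by rw [← hb]; exact hr)
        have e3 : M.mem z (t + 1) r = M.mem z t r := mem_other M pg (by rw [hz]; exact hr)
        rw [vis_other M pg (Ne.symm hr), e1, e2, e3]
        exact ih.mem r
    · intro hT
      rw [h1]
      by_cases hc : M.blk pg x t = M.blk pg x (t + 1)
      · by_cases hd : L ∣ M.vis pg x (M.blk pg x t) t + 1
        · have h3 := (hR.fin t ht' (Or.inl hd)).1
          rw [h3]
          split_ifs <;> rfl
        · have h4 : M.pc pg L x (t + 1) = M.pc pg L x t := by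
            unfold OM.pc
            rw [← hc, vis_self, Nat.succ_div_of_not_dvd hd]
          rw [h4]
      · have h3 := hR.chg t hT (Or.inl hc)
        rw [h3]
        split_ifs <;> rfl

end MIX

open MIX

theorem mix : MIX_Stmt := by
  intro I A V R G β _ _ M pg L T ω x y z _ hR hx hy
  have hi := inv hR hx hy
  have hz : ∀ t < T, M.blk pg z t = M.blk pg x t := fun t ht => (hi t (by omega)).blk hR ht
  have hvz : ∀ t ≤ T, ∀ B, M.vis pg z B t = M.vis pg x B t := fun t ht B =>
    vis_congr M pg (fun t' ht' => hz t' (by omega)) B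
  have hvy : ∀ t ≤ T, ∀ B, M.vis pg x B t = M.vis pg y B t := fun t ht B =>
    vis_congr M pg (fun t' ht' => blk_eq M pg hR t' (by omega)) B
  refine ⟨⟨?_, ?_, ?_⟩, ?_⟩
  · intro t ht h
    have h1 : M.blk pg x t ≠ M.blk pg x (t + 1) := by
      rw [hz t (by omega), hz (t + 1) ht] at h
      tauto
    have h2 := hR.chg t ht (Or.inl h1)
    rw [((hi t (by omega)).next hR hx hy (by omega)).1, h2]
    split_ifs <;> rfl
  · intro t ht h
    have h1 : L ∣ M.vis pg x (M.blk pg x t) t + 1 := by
      rw [hz t ht, hvz t (by omega)] at h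
      tauto
    obtain ⟨h2, h3⟩ := hR.fin t ht (Or.inl h1)
    obtain ⟨h4, h5⟩ := (hi t (by omega)).next hR hx hy ht
    constructor
    · rw [h4, h2]
      split_ifs <;> rfl
    · intro r hr
      rw [hz t ht] at hr
      rw [h5 r hr, h3 r hr]
      split_ifs <;> rfl
  · rcases Nat.eq_zero_or_pos T with rfl | hT
    · rfl
    · obtain ⟨t, rfl⟩ : ∃ t, T = t + 1 := ⟨T - 1, by omega⟩
      rw [((hi t (by omega)).next hR hx hy (by omega)).1, ← hR.last]
      split_ifs <;> rfl
  · intro t ht
    have hb := blk_eq M pg hR t ht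
    refine ⟨?_, ?_, ?_, ?_⟩
    · unfold OM.pc
      rw [hz t ht, hvz t (by omega)]
    · unfold OM.pc
      rw [← hb, ← hvy t (by omega)]
    · intro h
      have h1 := (hi t (by omega)).st ht
      have h2 := ((hi t (by omega)).next hR hx hy ht).1
      rw [if_pos h] at h1 h2
      exact ⟨h1, h2⟩
    · intro h
      have h' : ¬ ω (M.pc pg L x t) = true := by rw [h]; simp
      have h1 := (hi t (by omega)).st ht
      have h2 := ((hi t (by omega)).next hR hx hy ht).1
      rw [if_neg h'] at h1 h2
      exact ⟨h1, h2⟩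

end Pool.Agent.UM
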