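import Pool.Agent.UM.Stmts

/-!
# Module OFF: a good offset of the pages
-/

set_option autoImplicit false

namespace Pool.Agent.UM

open Finset

namespace OFF

/-- the quotient changes at one unit step only at a multiple of `b` -/
lemma dvd_of_ne (b : ℕ) (hb : 0 < b) (z : ℤ) (h : z / (b : ℤ) ≠ (z + 1) / (b : ℤ)) :
    (b : ℤ) ∣ z + 1 := by
  have hb' : (0 : ℤ) < (b : ℤ) := by exact_mod_cast hb
  by_contra hd
  apply h
  have h1 := Int.emod_nonneg z hb'.ne'
  have h2 := Int.emod_lt_of_pos z hb'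
  have h3 := Int.emod_add_mul_ediv z (b : ℤ)
  have h4 : z % (b : ℤ) + 1 ≠ (b : ℤ) := by
    intro h5
    apply hd
    refine ⟨z / (b : ℤ) + 1, ?_⟩
    rw [mul_add, mul_one]
    omega
  have h6 : z % (b : ℤ) + 1 < (b : ℤ) := by omega
  have h7 : z + 1 = (z % (b : ℤ) + 1) + (b : ℤ) * (z / (b : ℤ)) := by omega
  rw [h7, Int.add_mul_ediv_left _ _ hb'.ne', Int.ediv_eq_zero_of_lt (by omega) h6, zero_add]

/-- at most one offset for a unit step -/
lemma step (b : ℕ) (hb : 0 < b) (z : ℤ) :
    ((range b).filter fun o : ℕ => (z + (o : ℤ)) / (b : ℤ) ≠ (z + 1 + (o : ℤ)) / (b : ℤ)).card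
      ≤ 1 := by
  rw [card_le_one]
  intro o ho o' ho'
  rw [mem_filter, mem_range] at ho ho'
  have h1 : (b : ℤ) ∣ (z + (o : ℤ)) + 1 := by
    apply dvd_of_ne b hb
    have := ho.2
    rwa [show z + 1 + (o : ℤ) = z + (o : ℤ) + 1 by ring] at this
  have h2 : (b : ℤ) ∣ (z + (o' : ℤ)) + 1 := by
    apply dvd_of_ne b hb
    have := ho'.2
    rwa [show z + 1 + (o' : ℤ) = z + (o' : ℤ) + 1 by ring] at this
  have h3 : (b : ℤ) ∣ (o : ℤ) - (o' : ℤ) := by
    have := dvd_sub h1 h2
    rwa [show z + (o : ℤ) + 1 - (z + (o' : ℤ) + 1) = (o : ℤ) - (o' : ℤ) by ring] at this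
  have h4 : (o : ℤ) - (o' : ℤ) = 0 := by
    apply Int.eq_zero_of_abs_lt_dvd h3
    rw [abs_lt]
    constructor <;> omega
  omega

lemma near (b : ℕ) (hb : 0 < b) (d : ℕ) : ∀ z : ℤ,
    ((range b).filter fun o : ℕ =>
      (z + (o : ℤ)) / (b : ℤ) ≠ (z + (d : ℤ) + (o : ℤ)) / (b : ℤ)).card ≤ d := by
  induction d with
  | zero =>
    intro z
    rw [Nat.le_zero, card_eq_zero, filter_eq_empty_iff]
    intro o _ h
    apply h
    simp
  | succ d ih =>
    intro z
    refine (card_le_card (t := ((range b).filter fun o : ℕ =>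
      (z + (o : ℤ)) / (b : ℤ) ≠ (z + (d : ℤ) + (o : ℤ)) / (b : ℤ)) ∪
      ((range b).filter fun o : ℕ => (z + (d : ℤ) + (o : ℤ)) / (b : ℤ) ≠
        (z + (d : ℤ) + 1 + (o : ℤ)) / (b : ℤ))) ?_).trans ?_
    · intro o ho
      rw [mem_filter] at ho
      rw [mem_union, mem_filter, mem_filter]
      by_cases h : (z + (o : ℤ)) / (b : ℤ) = (z + (d : ℤ) + (o : ℤ)) / (b : ℤ)
      · right
        refine ⟨ho.1, ?_⟩
        rw [← h]
        have := ho.2
        push_cast at this
        rwa [show z + ((d : ℤ) + 1) + (o : ℤ) = z + (d : ℤ) + 1 + (o : ℤ) by ring] at this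
      · left
        exact ⟨ho.1, h⟩
    · exact (card_union_le _ _).trans (Nat.add_le_add (ih z) (step b hb _))

lemma near' (b : ℕ) (hb : 0 < b) (δ : ℕ) (x y : ℤ) (h : |y - x| ≤ (δ : ℤ)) :
    ((range b).filter fun o : ℕ =>
      (x + (o : ℤ)) / (b : ℤ) ≠ (y + (o : ℤ)) / (b : ℤ)).card ≤ δ := by
  rcases le_total x y with hxy | hxy
  · obtain ⟨d, hd⟩ := Int.eq_ofNat_of_zero_le (sub_nonneg.2 hxy)
    have hy : y = x + (d : ℤ) := by omega
    subst hy
    refine (near b hb d x).trans ?_
    rw [abs_of_nonneg (by omega)] at h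
    omega
  · obtain ⟨d, hd⟩ := Int.eq_ofNat_of_zero_le (sub_nonneg.2 hxy)
    have hx : x = y + (d : ℤ) := by omega
    subst hx
    have h2 := near b hb d y
    rw [abs_of_nonpos (by omega)] at h
    refine (le_of_eq ?_).trans (h2.trans (by omega))
    congr 1
    apply filter_congr
    intro o _
    exact ne_comm

end OFF

open OFF in
/-- Module OFF -/
theorem off : OFF_Stmt := by
  intro b δ T J a hb hJ
  by_contra hcon
  push Not at hcon
  -- the total number of page changes over all offsets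
  have hlow : b * (T * δ / b + J + 1) ≤ ∑ o ∈ range b, ((range (T - 1)).filter fun t =>
      (a t + (o : ℤ)) / (b : ℤ) ≠ (a (t + 1) + (o : ℤ)) / (b : ℤ)).card := by
    calc b * (T * δ / b + J + 1) = ∑ o ∈ range b, (T * δ / b + J + 1) := by simp
      _ ≤ _ := by
        apply sum_le_sum
        intro o ho
        exact hcon o (mem_range.1 ho)
  have hup : ∑ o ∈ range b, ((range (T - 1)).filter fun t =>
      (a t + (o : ℤ)) / (b : ℤ) ≠ (a (t + 1) + (o : ℤ)) / (b : ℤ)).card ≤
      (T - 1) * δ + J * b := by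
    simp only [card_filter]
    rw [sum_comm]
    calc ∑ t ∈ range (T - 1), ∑ o ∈ range b,
          (if (a t + (o : ℤ)) / (b : ℤ) ≠ (a (t + 1) + (o : ℤ)) / (b : ℤ) then 1 else 0)
        ≤ ∑ t ∈ range (T - 1), (δ + if (δ : ℤ) < |a (t + 1) - a t| then b else 0) := by
          apply sum_le_sum
          intro t _
          split_ifs with h
          · refine le_trans ?_ (Nat.le_add_left _ _)
            calc ∑ o ∈ range b, (if (a t + (o : ℤ)) / (b : ℤ) ≠ (a (t + 1) + (o : ℤ)) / (b : ℤ)
                  then 1 else 0) ≤ ∑ o ∈ range b, 1 := by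
                  apply sum_le_sum
                  intro o _
                  split_ifs <;> omega
              _ = b := by simp
          · rw [← card_filter, add_zero]
            exact near' b hb δ _ _ (not_lt.1 h)
      _ = (T - 1) * δ + ((range (T - 1)).filter fun t => (δ : ℤ) < |a (t + 1) - a t|).card * b := by
          rw [sum_add_distrib, ← sum_filter]
          simp
      _ ≤ (T - 1) * δ + J * b := by
          exact Nat.add_le_add_left (Nat.mul_le_mul_right b hJ) _
  have h1 : (T - 1) * δ ≤ T * δ := Nat.mul_le_mul_right δ (Nat.sub_le T 1)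
  have h2 : T * δ < b * (T * δ / b) + b := by
    have := Nat.lt_mul_div_succ (T * δ) hb
    rwa [mul_add, mul_one] at this
  have h3 : b * (T * δ / b + J + 1) = b * (T * δ / b) + J * b + b := by ring
  omega

end Pool.Agent.UM
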