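import Pool.Agent.UM.Stmts

/-!
# ONE: the correlation at one point
-/

set_option autoImplicit false

namespace Pool.Agent.UM

open Finset
open Pool.Agent.Lib_helper26.TS (fil mem_fil)
open Pool.Agent.Lib_helper26.TB (Cell cub sg)

namespace ONE

/-- the page of a register -/
def pg (b : ℕ) (o : Fin b) (a : ℤ) : ℤ := (a + ((o : ℕ) : ℤ)) / (b : ℤ)

/-- the place of a register in its page -/
def slot (b : ℕ) (o : Fin b) (a : ℤ) : Fin b :=
  ⟨((a + ((o : ℕ) : ℤ)) % (b : ℤ)).toNat, by
    have hb : (0 : ℤ) < (b : ℤ) := by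
      have := o.pos
      omega
    have h1 := Int.emod_nonneg (a + ((o : ℕ) : ℤ)) hb.ne'
    have h2 := Int.emod_lt_of_pos (a + ((o : ℕ) : ℤ)) hb
    omega⟩

theorem slot_inj (b : ℕ) (o : Fin b) (a a' : ℤ) (h1 : pg b o a = pg b o a')
    (h2 : slot b o a = slot b o a') : a = a' := by
  have hb : (0 : ℤ) < (b : ℤ) := by
    have := o.pos
    omega
  have h3 := congrArg Fin.val h2
  simp only [slot] at h3
  have h4 := Int.emod_nonneg (a + ((o : ℕ) : ℤ)) hb.ne'
  have h5 := Int.emod_nonneg (a' + ((o : ℕ) : ℤ)) hb.ne'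
  have h6 : (a + ((o : ℕ) : ℤ)) % (b : ℤ) = (a' + ((o : ℕ) : ℤ)) % (b : ℤ) := by omega
  have h7 := Int.emod_add_mul_ediv (a + ((o : ℕ) : ℤ)) b
  have h8 := Int.emod_add_mul_ediv (a' + ((o : ℕ) : ℤ)) b
  rw [pg, pg] at h1
  rw [h6, h1, h8] at h7
  omega

variable {n m : ℕ} {V G : Type}

/-- the counters -/
def phi (Q : Mach (ECell n m) (ZMod 2) V G) (b r T : ℕ) (σ : Fin r → Fin m) :
    Fin b ⊕ Fin r → ℕ → V → V → Bool
  | Sum.inl o, t, v, v' => decide (t + 1 < T ∧ pg b o (Q.addr t v) ≠ pg b o (Q.addr (t + 1) v'))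
  | Sum.inr i, t, v, _ => (eblk (σ i) (Q.query t v)).isSome

/-- the choice of the offset -/
noncomputable def sel (b r K : ℕ) (hb : 0 < b) (c : Fin b ⊕ Fin r → ℕ) : Fin b :=
  if h : ∃ o : Fin b, c (Sum.inl o) ≤ K then h.choose else ⟨0, hb⟩

theorem sel_spec (b r K : ℕ) (hb : 0 < b) (c : Fin b ⊕ Fin r → ℕ)
    (h : ∃ o : Fin b, c (Sum.inl o) ≤ K) : c (Sum.inl (sel b r K hb c)) ≤ K := by
  rw [sel, dif_pos h]
  exact h.choose_spec

/-- the condition on the last state and the totals -/
def accf (Q : Mach (ECell n m) (ZMod 2) V G) (b r B : ℕ) (j : Fin r) (v : V)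
    (c : Fin b ⊕ Fin r → ℕ) : Prop :=
  Q.acc v ∧ c (Sum.inr j) ≤ B ∧ ∀ i : Fin r, i.val < j.val → B < c (Sum.inr i)

end ONE

open ONE in
theorem one (h1 : RESTR_Stmt) (h2 : OFF_Stmt) (h3 : SYSOM_Stmt) (h4 : SYSB_Stmt) : ONE_Stmt := by
  intro n m ρ k W γ X B L K T δ J b r M V G _ _ Q s hfar hM hk hX hXk hg1 hg2 hn1 hn2 hρ hW hn3
    hK hL hB hb hL1 hL2 hD p σ j
  obtain ⟨N, hNa, hNq, hNc⟩ := h1 n m V G Q s p (σ j)
  have hV : Nonempty V := ⟨Q.start⟩
  have hO : Nonempty (Fin b) := ⟨⟨0, hb⟩⟩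
  have hst : ∀ x t, N.st x t = (Q.conf (einp s (Function.update p (σ j) x)) t).1 :=
    fun x t => by rw [OM.st, hNc]
  -- the totals
  have htl : ∀ (x : Cell n → ZMod 2) (o : Fin b),
      ((range T).filter fun t => phi Q b r T σ (Sum.inl o) t (N.st x t) (N.st x (t + 1)) =
        true).card = ((range (T - 1)).filter fun t =>
          pg b o (Q.reg (einp s (Function.update p (σ j) x)) t) ≠
            pg b o (Q.reg (einp s (Function.update p (σ j) x)) (t + 1))).card := by
    intro x o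
    congr 1
    ext t
    rw [mem_filter, mem_filter, mem_range, mem_range, phi, decide_eq_true_iff, hst, hst,
      Mach.reg, Mach.reg]
    constructor
    · rintro ⟨h5, h6, h7⟩
      exact ⟨by omega, h7⟩
    · rintro ⟨h5, h6⟩
      exact ⟨by omega, by omega, h6⟩
  have htr : ∀ (x : Cell n → ZMod 2) (i : Fin r),
      ((range T).filter fun t => phi Q b r T σ (Sum.inr i) t (N.st x t) (N.st x (t + 1)) =
        true).card = erd Q T (einp s (Function.update p (σ j) x)) (σ i) := by
    intro x i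
    rw [erd]
    congr 1
    ext t
    rw [mem_filter, mem_filter, phi, hst]
  -- the system of pieces
  obtain ⟨P, D, _, _, _, S, hS1, hS2, hS3⟩ := h3 (Cell n) (ZMod 2) V ℤ G (Fin b) ℤ
    (Fin b ⊕ Fin r) N (pg b) b (slot b) L T (T * δ / b + J) (phi Q b r T σ)
    (sel b r (T * δ / b + J) hb) (accf Q b r B j) hL (slot_inj b) (by
      intro x
      set c : Fin b ⊕ Fin r → ℕ := fun i => ((range T).filter fun t =>
        phi Q b r T σ i t (N.st x t) (N.st x (t + 1)) = true).card with hc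
      have h5 : ∃ o : Fin b, c (Sum.inl o) ≤ T * δ / b + J := by
        obtain ⟨o, ho, ho'⟩ := h2 b δ T J (Q.reg (einp s (Function.update p (σ j) x))) hb
          (hfar _)
        refine ⟨⟨o, ho⟩, ?_⟩
        rw [hc]
        simp only
        rw [htl]
        exact ho'
      have h6 := sel_spec b r (T * δ / b + J) hb c h5
      set o := sel b r (T * δ / b + J) hb c with ho
      have h7 := htl x o
      have h6' : ((range T).filter fun t => phi Q b r T σ (Sum.inl o) t (N.st x t)
          (N.st x (t + 1)) = true).card ≤ T * δ / b + J := h6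
      rw [h7] at h6'
      refine le_trans (le_of_eq ?_) h6'
      congr 1
      ext t
      rw [mem_filter, mem_filter, OM.blk, OM.blk, hNa, hst, hst]
      rfl)
  have hcard : Fintype.card D ≤ 2 ^ K := by
    refine le_trans hS3 ?_
    rw [Fintype.card_sum, Fintype.card_fin, Fintype.card_fin]
    exact hD
  have h8 := h4 n ρ k W γ X B L K M P D _ S hM hk hX hXk hg1 hg2 hn1 hn2 hρ hW hn3 hK hL hB hL1
    hL2 hS1 (by
      rintro x ⟨-, hx, -⟩
      have hx' : ((range T).filter fun t => phi Q b r T σ (Sum.inr j) t (N.st x t)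
          (N.st x (t + 1)) = true).card ≤ B := hx
      rw [htr, erd] at hx'
      refine le_trans (hS2 x) (le_trans (le_of_eq ?_) hx')
      congr 1
      ext t
      rw [mem_filter, mem_filter, hNq, hst]) hcard
  have h9 : (fil fun x => Q.Accepts T (einp s (Function.update p (σ j) x)) ∧
      erd Q T (einp s (Function.update p (σ j) x)) (σ j) ≤ B ∧
      ∀ i : Fin r, i.val < j.val → B < erd Q T (einp s (Function.update p (σ j) x)) (σ i)) =
      fil fun x => accf Q b r B j (N.st x T) fun i => ((range T).filter fun t =>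
        phi Q b r T σ i t (N.st x t) (N.st x (t + 1)) = true).card := by
    ext x
    rw [mem_fil, mem_fil, accf, hst, htr]
    simp only [htr]
    rfl
  rw [h9]
  exact h8

end Pool.Agent.UM
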