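import Pool.Agent.UM.Stmts

/-!
# RECO: recovering the pieces of one colour
-/

set_option autoImplicit false

namespace Pool.Agent.UM

open Finset

namespace RECO

variable {I A V R G β : Type} [DecidableEq R] [DecidableEq β] (M : OM I A V R G) (pg : R → β)
  (L T : ℕ) (x y : I → A)

theorem st_succ (t : ℕ) : M.st x (t + 1) = (M.next t (M.st x t)
    ((M.query t (M.st x t)).map x) (M.mem x t (M.addr t (M.st x t)))).1 := rfl

theorem mem_succ (t : ℕ) : M.mem x (t + 1) = Function.update (M.mem x t) (M.addr t (M.st x t))
    (M.next t (M.st x t) ((M.query t (M.st x t)).map x) (M.mem x t (M.addr t (M.st x t)))).2 := rfl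

theorem blk_eq (h : M.Rel pg L T x y) : ∀ t < T, M.blk pg x t = M.blk pg y t := by
  intro t
  induction t with
  | zero =>
    intro _
    rfl
  | succ t ih =>
    intro ht
    have h1 := ih (by omega)
    by_cases hc : M.blk pg x t ≠ M.blk pg x (t + 1) ∨ M.blk pg y t ≠ M.blk pg y (t + 1)
    · have h2 := h.chg t ht hc
      unfold OM.blk
      rw [h2]
    · rw [not_or, not_not, not_not] at hc
      rw [← hc.1, h1, hc.2]

theorem vis_eq (h : M.Rel pg L T x y) (B : β) (t : ℕ) (ht : t ≤ T) :
    M.vis pg y B t = M.vis pg x B t := by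
  unfold OM.vis
  congr 1
  apply filter_congr
  intro t' ht'
  rw [mem_range] at ht'
  rw [blk_eq M pg L T x y h t' (by omega)]

theorem pc_eq (h : M.Rel pg L T x y) (t : ℕ) (ht : t < T) : M.pc pg L y t = M.pc pg L x t := by
  unfold OM.pc
  rw [blk_eq M pg L T x y h t ht, vis_eq M pg L T x y h _ t ht.le]

theorem vis_succ_of_ne (B : β) (t : ℕ) (h : M.blk pg x t ≠ B) :
    M.vis pg x B (t + 1) = M.vis pg x B t := by
  unfold OM.vis
  rw [range_add_one, filter_insert, if_neg h]

theorem vis_succ_self (t : ℕ) :
    M.vis pg x (M.blk pg x t) (t + 1) = M.vis pg x (M.blk pg x t) t + 1 := by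
  unfold OM.vis
  rw [range_add_one, filter_insert, if_pos rfl, card_insert_of_notMem]
  simp

theorem main (ω : β × ℕ → Bool) (h : M.Rel pg L T x y)
    (hxy : ∀ e, (∃ t < T, ω (M.pc pg L x t) = false ∧ M.query t (M.st x t) = some e) →
      (∃ t < T, ω (M.pc pg L y t) = false ∧ M.query t (M.st y t) = some e) → x e = y e) :
    ∀ t ≤ T, (∀ r, ω (pg r, M.vis pg x (pg r) t / L) = false → M.mem x t r = M.mem y t r) ∧
      (t < T → ω (M.pc pg L x t) = false → M.st y t = M.st x t) := by
  intro t
  induction t with
  | zero =>
    intro _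
    exact ⟨fun _ _ => rfl, fun _ _ => rfl⟩
  | succ t ih =>
    intro ht
    have htT : t < T := by omega
    obtain ⟨hP, hQ⟩ := ih (by omega)
    have hQ := hQ htT
    have hB := blk_eq M pg L T x y h t htT
    -- the piece does not end
    have hpiece : ¬ L ∣ M.vis pg x (M.blk pg x t) t + 1 →
        (M.vis pg x (M.blk pg x t) (t + 1)) / L = (M.vis pg x (M.blk pg x t) t) / L := by
      intro hn
      rw [vis_succ_self, Nat.succ_div, if_neg hn, add_zero]
    -- the same step
    have hsame : ω (M.pc pg L x t) = false → M.st y (t + 1) = M.st x (t + 1) ∧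
        ∀ r, ω (pg r, M.vis pg x (pg r) t / L) = false →
          M.mem x (t + 1) r = M.mem y (t + 1) r := by
      intro hc
      have hst := hQ hc
      have hmem : M.mem x t (M.addr t (M.st x t)) = M.mem y t (M.addr t (M.st x t)) :=
        hP _ hc
      have hread : (M.query t (M.st x t)).map x = (M.query t (M.st x t)).map y := by
        cases hq : M.query t (M.st x t) with
        | none => rfl
        | some e =>
          have h1 := hxy e ⟨t, htT, hc, hq⟩
            ⟨t, htT, by rw [pc_eq M pg L T x y h t htT]; exact hc, by rw [hst]; exact hq⟩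
          rw [Option.map_some, Option.map_some, h1]
      constructor
      · rw [st_succ, st_succ, hst, hmem, hread]
      · intro r hr
        rw [mem_succ, mem_succ, hst, hmem, hread]
        by_cases hra : r = M.addr t (M.st x t)
        · rw [hra, Function.update_self, Function.update_self]
        · rw [Function.update_of_ne hra, Function.update_of_ne hra]
          exact hP r hr
    refine ⟨?_, ?_⟩
    · intro r hr
      by_cases hpr : M.blk pg x t = pg r
      · by_cases hd : L ∣ M.vis pg x (M.blk pg x t) t + 1
        · exact (h.fin t htT (Or.inl hd)).2 r hpr.symm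
        · rw [← hpr, hpiece hd] at hr
          exact (hsame hr).2 r (by rw [← hpr]; exact hr)
      · rw [vis_succ_of_ne M pg x _ t hpr] at hr
        rw [mem_succ, mem_succ, Function.update_of_ne, Function.update_of_ne]
        · exact hP r hr
        · rintro rfl
          exact hpr hB
        · rintro rfl
          exact hpr rfl
    · intro ht' hc
      by_cases hch : M.blk pg x t ≠ M.blk pg x (t + 1)
      · exact (h.chg t ht' (Or.inl hch)).symm
      · rw [not_not] at hch
        by_cases hd : L ∣ M.vis pg x (M.blk pg x t) t + 1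
        · exact (h.fin t htT (Or.inl hd)).1.symm
        · unfold OM.pc at hc
          rw [← hch, hpiece hd] at hc
          exact (hsame hc).1

end RECO

theorem reco : RECO_Stmt := by
  intro I A V R G β _ _ M pg L T ω x y _ h hxy t ht
  exact ⟨RECO.pc_eq M pg L T x y h t ht, (RECO.main M pg L T x y ω h hxy t ht.le).2 ht⟩

end Pool.Agent.UM
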