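import Pool.Agent.UM.Stmts

/-!
# RESTR: the machine on one point
-/

set_option autoImplicit false

namespace Pool.Agent.UM

open Finset
open Pool.Agent.Lib_helper26.TS (fil)
open Pool.Agent.Lib_helper26.TB (Cell cub kerN sg side Closed PP fam DS)

namespace RESTR

variable {n m : ℕ} {V G : Type}

/-- The machine. -/
def mac (Q : Mach (ECell n m) (ZMod 2) V G) (s : Fin m × Fin n → ZMod 2)
    (p : Fin m → Cell n → ZMod 2) (l : Fin m) : OM (Cell n) (ZMod 2) V ℤ G where
  start := Q.start
  init := Q.init
  query t v := eblk l (Q.query t v)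
  addr := Q.addr
  next t v a g := Q.next t v (a.getD (einp s p (Q.query t v))) g

theorem val (s : Fin m × Fin n → ZMod 2) (p : Fin m → Cell n → ZMod 2) (l : Fin m)
    (x : Cell n → ZMod 2) (c : ECell n m) :
    ((eblk l c).map x).getD (einp s p c) = einp s (Function.update p l x) c := by
  rcases c with a | q
  · simp [eblk, einp]
  · by_cases h : q.1 = l
    · simp [eblk, einp, h]
    · simp [eblk, einp, h]

theorem conf_eq (Q : Mach (ECell n m) (ZMod 2) V G) (s : Fin m × Fin n → ZMod 2)
    (p : Fin m → Cell n → ZMod 2) (l : Fin m) (x : Cell n → ZMod 2) (t : ℕ) :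
    (mac Q s p l).conf x t = Q.conf (einp s (Function.update p l x)) t := by
  induction t with
  | zero => rfl
  | succ t ih =>
    simp only [OM.conf, Mach.conf, ih]
    simp only [mac, val]

end RESTR

/-- **Module RESTR.** -/
theorem restr : RESTR_Stmt := by
  intro n m V G Q s p l
  exact ⟨RESTR.mac Q s p l, rfl, fun _ _ => rfl, fun x t => RESTR.conf_eq Q s p l x t⟩

end Pool.Agent.UM
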