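import Pool.Agent.UM.Stmts

/-!
SPARSE: the number of sparse partial functions.
-/

set_option autoImplicit false

namespace Pool.Agent.UM

open Finset
open Pool.Agent.Lib_helper26.TS (fil)

namespace SPARSE

variable {A : Type} {T : ℕ}

/-- the support -/
noncomputable def supp (f : Fin T → Option A) : Finset (Fin T) := fil fun t => f t ≠ none

lemma mem_supp (f : Fin T → Option A) (t : Fin T) : t ∈ supp f ↔ f t ≠ none := by
  simp [supp, fil]

/-- the graph as a list of length `K` -/
noncomputable def code (K : ℕ) (f : Fin T → Option A) (i : Fin K) : Option (Fin T × A) :=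
  if h : (i : ℕ) < (supp f).card then
    (f ((supp f).equivFin.symm ⟨i, h⟩ : supp f)).map fun a => (((supp f).equivFin.symm ⟨i, h⟩ : supp f), a)
  else none

lemma code_spec {K : ℕ} {f : Fin T → Option A} (hf : (supp f).card ≤ K) (t : Fin T) (a : A) :
    f t = some a ↔ ∃ i, code K f i = some (t, a) := by
  constructor
  · intro h
    have ht : t ∈ supp f := by
      rw [mem_supp, h]
      simp
    refine ⟨⟨(supp f).equivFin ⟨t, ht⟩, lt_of_lt_of_le (Fin.is_lt _) hf⟩, ?_⟩
    have hlt : ((supp f).equivFin ⟨t, ht⟩ : ℕ) < (supp f).card := Fin.is_lt _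
    have key : ∀ s : supp f, (s : Fin T) = t →
        (f s).map (fun a => ((s : Fin T), a)) = some (t, a) := by
      intro s hs
      rw [hs, h]
      rfl
    unfold code
    split_ifs with h1
    · exact key _ (congrArg Subtype.val ((supp f).equivFin.symm_apply_apply ⟨t, ht⟩))
    · exact absurd hlt h1
  · rintro ⟨i, hi⟩
    unfold code at hi
    split_ifs at hi with h
    rw [Option.map_eq_some_iff] at hi
    obtain ⟨b, hb, hb'⟩ := hi
    rw [Prod.mk.injEq] at hb'
    rw [← hb'.1, ← hb'.2, hb]

end SPARSE

theorem sparse : SPARSE_Stmt := by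
  intro A _ T K
  classical
  have hfin : Finite (Fin K → Option (Fin T × A)) := inferInstance
  have h := Nat.card_le_card_of_injective
    (fun f : {f : Fin T → Option A // (fil fun t => f t ≠ none).card ≤ K} =>
      SPARSE.code K f.1) (by
        intro f g hfg
        simp only at hfg
        apply Subtype.ext
        funext t
        apply Option.ext
        intro a
        rw [SPARSE.code_spec f.2, SPARSE.code_spec g.2, hfg])
  refine h.trans (le_of_eq ?_)
  rw [Nat.card_eq_fintype_card]
  simp

end Pool.Agent.UM
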