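import Pool.Agent.UM.Stmts

/-!
# The system of pieces of a machine
-/

set_option autoImplicit false
set_option linter.unusedSectionVars false
set_option linter.unusedFintypeInType false
set_option linter.unusedDecidableInType false

namespace Pool.Agent.UM

open Finset
open Pool.Agent.Lib_helper26.TS (fil)

namespace SYSOM

section a

variable {I A V R G β : Type} [DecidableEq R] [DecidableEq β]

/-- pages agree from the agreement of states after changes of page -/
theorem blk_eq (M : OM I A V R G) (pg : R → β) (T : ℕ) (x y : I → A)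
    (chg : ∀ t, t + 1 < T →
      (M.blk pg x t ≠ M.blk pg x (t + 1) ∨ M.blk pg y t ≠ M.blk pg y (t + 1)) →
      M.st x (t + 1) = M.st y (t + 1)) :
    ∀ t < T, M.blk pg x t = M.blk pg y t := by
  intro t
  induction t with
  | zero => intro _; rfl
  | succ t ih =>
    intro ht
    have ih' := ih (by omega)
    by_cases h1 : M.blk pg x t ≠ M.blk pg x (t + 1) ∨ M.blk pg y t ≠ M.blk pg y (t + 1)
    · have := chg t ht h1
      unfold OM.blk
      rw [this]
    · push Not at h1
      rw [← h1.1, ← h1.2, ih']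

theorem vis_eq (M : OM I A V R G) (pg : R → β) (T : ℕ) (x y : I → A)
    (h : ∀ t < T, M.blk pg x t = M.blk pg y t) (B : β) (t : ℕ) (ht : t ≤ T) :
    M.vis pg x B t = M.vis pg y B t := by
  unfold OM.vis
  congr 1
  apply filter_congr
  intro t' ht'
  rw [mem_range] at ht'
  rw [h t' (by omega)]

theorem pc_eq (M : OM I A V R G) (pg : R → β) (L T : ℕ) (x y : I → A)
    (h : ∀ t < T, M.blk pg x t = M.blk pg y t) (t : ℕ) (ht : t < T) :
    M.pc pg L x t = M.pc pg L y t := by
  unfold OM.pc
  rw [h t ht, vis_eq M pg T x y h _ t ht.le]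

theorem vis_le (M : OM I A V R G) (pg : R → β) (x : I → A) (B : β) (t : ℕ) :
    M.vis pg x B t ≤ t := by
  unfold OM.vis
  refine (card_filter_le _ _).trans ?_
  simp

end a

section b

variable {I A V R G O β κ : Type} [Fintype I] [Fintype V] [Nonempty V] [Fintype G] [Fintype O]
    [Nonempty O] [Fintype κ] [DecidableEq κ] [DecidableEq R] [DecidableEq β]

/-- the possible pieces -/
noncomputable def pieces (M : OM I A V R G) (pg : O → R → β) (T : ℕ) : Finset (β × ℕ) :=
  (univ : Finset (O × Fin T × V × Fin (T + 1))).image fun q =>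
    (pg q.1 (M.addr q.2.1 q.2.2.1), (q.2.2.2 : ℕ))

theorem mem_pieces (M : OM I A V R G) (pg : O → R → β) (L T : ℕ) (o : O) (x : I → A) (t : ℕ)
    (ht : t < T) : M.pc (pg o) L x t ∈ pieces M pg T := by
  unfold pieces
  rw [mem_image]
  refine ⟨(o, ⟨t, ht⟩, M.st x t, ⟨M.vis (pg o) x (M.blk (pg o) x t) t / L, ?_⟩), mem_univ _, rfl⟩
  have h1 := vis_le M (pg o) x (M.blk (pg o) x t) t
  have h2 := Nat.div_le_self (M.vis (pg o) x (M.blk (pg o) x t) t) L
  omega

variable (M : OM I A V R G) (pg : O → R → β) (v : ℕ) (slot : O → R → Fin v) (L T K : ℕ)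
    (φ : κ → ℕ → V → V → Bool) (sel : (κ → ℕ) → O) (accf : V → (κ → ℕ) → Prop)

/-- extension of a colouring -/
noncomputable def ext (ω : {j // j ∈ pieces M pg T} → Bool) (j : β × ℕ) : Bool :=
  if h : j ∈ pieces M pg T then ω ⟨j, h⟩ else true

/-- the totals -/
def tot (x : I → A) (i : κ) : ℕ :=
  ((range T).filter fun t => φ i t (M.st x t) (M.st x (t + 1)) = true).card

/-- the counts with colours -/
def cnt (c : β × ℕ → Bool) (o : O) (x : I → A) (i : κ) (b : Bool) : ℕ :=
  ((range T).filter fun t => φ i t (M.st x t) (M.st x (t + 1)) = true ∧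
    c (M.pc (pg o) L x t) = b).card

theorem cnt_le (c : β × ℕ → Bool) (o : O) (x : I → A) (i : κ) (b : Bool) :
    cnt M pg L T φ c o x i b ≤ T := by
  unfold cnt
  refine (card_filter_le _ _).trans ?_
  simp

theorem tot_eq (c : β × ℕ → Bool) (o : O) (x : I → A) (i : κ) :
    tot M T φ x i = cnt M pg L T φ c o x i true + cnt M pg L T φ c o x i false := by
  unfold tot cnt
  rw [← card_union_of_disjoint]
  · congr 1
    ext t
    simp only [mem_filter, mem_union]
    cases c (M.pc (pg o) L x t) <;> simp
  · rw [disjoint_left]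
    intro t h1 h2
    rw [mem_filter] at h1 h2
    rw [h1.2.2] at h2
    exact absurd h2.2.2 (by decide)

/-- the paging of an input -/
def pgo (x : I → A) : O := sel (tot M T φ x)

open Classical in
/-- states after changes of page -/
noncomputable def f1 (o : O) (x : I → A) (t : Fin T) : Option V :=
  if 0 < t.val ∧ M.blk (pg o) x (t.val - 1) ≠ M.blk (pg o) x t.val then some (M.st x t.val)
  else none

open Classical in
/-- contents of a page -/
noncomputable def cont (o : O) (x : I → A) (t : ℕ) (s : Fin v) : Option G :=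
  if h : ∃ r, pg o r = M.blk (pg o) x t ∧ slot o r = s then some (M.mem x (t + 1) h.choose)
  else none

open Classical in
/-- states and contents at the ends of pieces -/
noncomputable def f2 (o : O) (x : I → A) (t : Fin T) : Option (V × (Fin v → Option G)) :=
  if L ∣ M.vis (pg o) x (M.blk (pg o) x t.val) t.val + 1 then
    some (M.st x (t.val + 1), cont M pg v slot o x t.val)
  else none

theorem cont_spec (hs : ∀ o r r', pg o r = pg o r' → slot o r = slot o r' → r = r')
    (o : O) (x : I → A) (t : ℕ) (r : R) (hr : pg o r = M.blk (pg o) x t) :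
    cont M pg v slot o x t (slot o r) = some (M.mem x (t + 1) r) := by
  have h : ∃ r', pg o r' = M.blk (pg o) x t ∧ slot o r' = slot o r := ⟨r, hr, rfl⟩
  have hc := h.choose_spec
  unfold cont
  rw [dif_pos h]
  have : h.choose = r := hs o _ _ (hc.1.trans hr.symm) hc.2
  rw [this]

/-- contents agree when the memories agree on the page -/
theorem cont_congr (o : O) (x y : I → A) (t : ℕ) (hb : M.blk (pg o) x t = M.blk (pg o) y t)
    (hm : ∀ r, pg o r = M.blk (pg o) x t → M.mem x (t + 1) r = M.mem y (t + 1) r) :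
    cont M pg v slot o x t = cont M pg v slot o y t := by
  funext s
  unfold cont
  by_cases h : ∃ r, pg o r = M.blk (pg o) x t ∧ slot o r = s
  · have h' : ∃ r, pg o r = M.blk (pg o) y t ∧ slot o r = s := by rw [← hb]; exact h
    rw [dif_pos h, dif_pos h']
    have e : h.choose = h'.choose := by
      congr 1
      funext r
      rw [hb]
    rw [← e, hm _ h.choose_spec.1]
  · have h' : ¬ ∃ r, pg o r = M.blk (pg o) y t ∧ slot o r = s := by rw [← hb]; exact h
    rw [dif_neg h, dif_neg h']

/-- the relation from the equality of the two partial functions and the last state -/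
theorem rel_of (hs : ∀ o r r', pg o r = pg o r' → slot o r = slot o r' → r = r')
    (o : O) (x y : I → A) (h1 : f1 M pg T o x = f1 M pg T o y)
    (h2 : f2 M pg v slot L T o x = f2 M pg v slot L T o y) (h3 : M.st x T = M.st y T) :
    M.Rel (pg o) L T x y := by
  have chg : ∀ t, t + 1 < T →
      (M.blk (pg o) x t ≠ M.blk (pg o) x (t + 1) ∨ M.blk (pg o) y t ≠ M.blk (pg o) y (t + 1)) →
      M.st x (t + 1) = M.st y (t + 1) := by
    intro t ht hor
    have e := congrFun h1 ⟨t + 1, ht⟩
    unfold f1 at e
    simp only [Nat.succ_pos, true_and, Nat.add_sub_cancel] at e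
    rcases hor with h | h
    · rw [if_pos h] at e
      by_cases h' : M.blk (pg o) y t ≠ M.blk (pg o) y (t + 1)
      · rw [if_pos h'] at e
        exact Option.some.inj e
      · rw [if_neg h'] at e
        exact absurd e (by simp)
    · rw [if_pos h] at e
      by_cases h' : M.blk (pg o) x t ≠ M.blk (pg o) x (t + 1)
      · rw [if_pos h'] at e
        exact Option.some.inj e
      · rw [if_neg h'] at e
        exact absurd e (by simp)
  have hb := blk_eq M (pg o) T x y chg
  refine ⟨chg, ?_, h3⟩
  intro t ht hor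
  have hv := vis_eq M (pg o) T x y hb (M.blk (pg o) x t) t ht.le
  have hL : L ∣ M.vis (pg o) x (M.blk (pg o) x t) t + 1 := by
    rcases hor with h | h
    · exact h
    · rw [hv, hb t ht]
      exact h
  have hL' : L ∣ M.vis (pg o) y (M.blk (pg o) y t) t + 1 := by
    rw [← hb t ht, ← hv]
    exact hL
  have e := congrFun h2 ⟨t, ht⟩
  unfold f2 at e
  simp only at e
  rw [if_pos hL, if_pos hL'] at e
  have e' := Option.some.inj e
  rw [Prod.mk.injEq] at e'
  refine ⟨e'.1, ?_⟩
  intro r hr
  have a1 := cont_spec M pg v slot hs o x t r hr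
  have a2 := cont_spec M pg v slot hs o y t r (hr.trans (hb t ht))
  rw [e'.2, a2] at a1
  exact (Option.some.inj a1).symm

/-- the partial functions agree for related inputs -/
theorem f1_of_rel (o : O) (x y : I → A) (h : M.Rel (pg o) L T x y) :
    f1 M pg T o x = f1 M pg T o y := by
  have hb := blk_eq M (pg o) T x y h.chg
  funext t
  unfold f1
  have ht := t.isLt
  by_cases h0 : 0 < t.val ∧ M.blk (pg o) x (t.val - 1) ≠ M.blk (pg o) x t.val
  · have h0' : 0 < t.val ∧ M.blk (pg o) y (t.val - 1) ≠ M.blk (pg o) y t.val := by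
      rw [← hb t.val ht, ← hb (t.val - 1) (by omega)]
      exact h0
    rw [if_pos h0, if_pos h0']
    congr 1
    have e : t.val = (t.val - 1) + 1 := by omega
    rw [e]
    apply h.chg
    · omega
    · left
      rw [← e]
      exact h0.2
  · have h0' : ¬ (0 < t.val ∧ M.blk (pg o) y (t.val - 1) ≠ M.blk (pg o) y t.val) := by
      rw [← hb t.val ht, ← hb (t.val - 1) (by omega)]
      exact h0
    rw [if_neg h0, if_neg h0']

theorem f2_of_rel (o : O) (x y : I → A) (h : M.Rel (pg o) L T x y) :
    f2 M pg v slot L T o x = f2 M pg v slot L T o y := by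
  have hb := blk_eq M (pg o) T x y h.chg
  funext t
  unfold f2
  have ht := t.isLt
  have hv := vis_eq M (pg o) T x y hb (M.blk (pg o) x t.val) t.val ht.le
  by_cases h0 : L ∣ M.vis (pg o) x (M.blk (pg o) x t.val) t.val + 1
  · have h0' : L ∣ M.vis (pg o) y (M.blk (pg o) y t.val) t.val + 1 := by
      rw [← hb t.val ht, ← hv]
      exact h0
    rw [if_pos h0, if_pos h0']
    have hf := h.fin t.val ht (Or.inl h0)
    rw [hf.1, cont_congr M pg v slot o x y t.val (hb t.val ht) hf.2]
  · have h0' : ¬ L ∣ M.vis (pg o) y (M.blk (pg o) y t.val) t.val + 1 := by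
      rw [← hb t.val ht, ← hv]
      exact h0
    rw [if_neg h0, if_neg h0']

theorem card_f1 (o : O) (x : I → A)
    (hK : ((range (T - 1)).filter fun t =>
      M.blk (pg o) x t ≠ M.blk (pg o) x (t + 1)).card ≤ K) :
    (fil fun t : Fin T => f1 M pg T o x t ≠ none).card ≤ K := by
  classical
  refine le_trans ?_ hK
  refine card_le_card_of_injOn (fun t : Fin T => t.val - 1) ?_ ?_
  · intro t ht
    have ht' : f1 M pg T o x t ≠ none := by
      simpa [fil] using ht
    unfold f1 at ht'
    by_cases h0 : 0 < t.val ∧ M.blk (pg o) x (t.val - 1) ≠ M.blk (pg o) x t.val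
    · have hT := t.isLt
      rw [mem_coe, mem_filter, mem_range]
      have e : (t.val - 1) + 1 = t.val := by omega
      refine ⟨show t.val - 1 < T - 1 by omega, ?_⟩
      show M.blk (pg o) x (t.val - 1) ≠ M.blk (pg o) x (t.val - 1 + 1)
      rw [e]
      exact h0.2
    · rw [if_neg h0] at ht'
      exact absurd rfl ht'
  · intro t ht t' ht' he
    have a1 : f1 M pg T o x t ≠ none := by
      simpa [fil] using ht
    have a2 : f1 M pg T o x t' ≠ none := by
      simpa [fil] using ht'
    unfold f1 at a1 a2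
    have b1 : 0 < t.val := by
      by_contra hc
      rw [if_neg (fun hh => hc hh.1)] at a1
      exact a1 rfl
    have b2 : 0 < t'.val := by
      by_contra hc
      rw [if_neg (fun hh => hc hh.1)] at a2
      exact a2 rfl
    simp only at he
    ext
    omega

theorem card_f2 (h3 : COMP_Stmt) (hL : 0 < L) (o : O) (x : I → A) :
    (fil fun t : Fin T => f2 M pg v slot L T o x t ≠ none).card ≤ T / L := by
  classical
  refine le_trans ?_ (h3 β (fun t => M.blk (pg o) x t) L T hL).2
  refine card_le_card_of_injOn (fun t : Fin T => t.val) ?_ ?_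
  · intro t ht
    have ht' : f2 M pg v slot L T o x t ≠ none := by
      simpa [fil] using ht
    unfold f2 at ht'
    by_cases h0 : L ∣ M.vis (pg o) x (M.blk (pg o) x t.val) t.val + 1
    · rw [mem_coe, mem_filter, mem_range]
      exact ⟨t.isLt, h0⟩
    · rw [if_neg h0] at ht'
      exact absurd rfl ht'
  · intro t _ t' _ he
    exact Fin.ext he

open Classical in
/-- the pieces that read a cell -/
noncomputable def pcs (x : I → A) (e : I) : Finset {j // j ∈ pieces M pg T} :=
  univ.filter fun j => ∃ t < T, M.pc (pg (pgo M T φ sel x)) L x t = j.1 ∧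
    M.query t (M.st x t) = some e

theorem mem_pcs (x : I → A) (e : I) (j : {j // j ∈ pieces M pg T}) :
    j ∈ pcs M pg L T φ sel x e ↔ ∃ t < T, M.pc (pg (pgo M T φ sel x)) L x t = j.1 ∧
      M.query t (M.st x t) = some e := by
  unfold pcs
  simp

theorem ext_mem (ω : {j // j ∈ pieces M pg T} → Bool) (o : O) (x : I → A) (t : ℕ) (ht : t < T) :
    ext M pg T ω (M.pc (pg o) L x t) = ω ⟨M.pc (pg o) L x t, mem_pieces M pg L T o x t ht⟩ := by
  unfold ext
  rw [dif_pos]

/-- the type of data -/
abbrev Dat (V G κ : Type) (v T K K' : ℕ) : Type :=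
  ((κ → Bool → Fin (T + 1)) ×
    {f : Fin T → Option V // (fil fun t => f t ≠ none).card ≤ K}) ×
  ({f : Fin T → Option (V × (Fin v → Option G)) // (fil fun t => f t ≠ none).card ≤ K'} × V)

/-- the data of an input -/
noncomputable def dat (h3 : COMP_Stmt) (hL : 0 < L)
    (hK : ∀ x, ((range (T - 1)).filter fun t =>
      M.blk (pg (pgo M T φ sel x)) x t ≠ M.blk (pg (pgo M T φ sel x)) x (t + 1)).card ≤ K)
    (ω : {j // j ∈ pieces M pg T} → Bool) (x : I → A) : Dat V G κ v T K (T / L) :=
  ((fun i b => ⟨cnt M pg L T φ (ext M pg T ω) (pgo M T φ sel x) x i b,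
      Nat.lt_succ_of_le (cnt_le M pg L T φ _ _ x i b)⟩,
    ⟨f1 M pg T (pgo M T φ sel x) x, card_f1 M pg T K _ x (hK x)⟩),
   (⟨f2 M pg v slot L T (pgo M T φ sel x) x, card_f2 M pg v slot L T h3 hL _ x⟩, M.st x T))

theorem dat_eq_iff (h3 : COMP_Stmt) (hL : 0 < L)
    (hK : ∀ x, ((range (T - 1)).filter fun t =>
      M.blk (pg (pgo M T φ sel x)) x t ≠ M.blk (pg (pgo M T φ sel x)) x (t + 1)).card ≤ K)
    (ω : {j // j ∈ pieces M pg T} → Bool) (x y : I → A) :
    dat M pg v slot L T K φ sel h3 hL hK ω x = dat M pg v slot L T K φ sel h3 hL hK ω y ↔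
      (∀ i b, cnt M pg L T φ (ext M pg T ω) (pgo M T φ sel x) x i b =
        cnt M pg L T φ (ext M pg T ω) (pgo M T φ sel y) y i b) ∧
      f1 M pg T (pgo M T φ sel x) x = f1 M pg T (pgo M T φ sel y) y ∧
      f2 M pg v slot L T (pgo M T φ sel x) x = f2 M pg v slot L T (pgo M T φ sel y) y ∧
      M.st x T = M.st y T := by
  unfold dat
  simp only [Prod.mk.injEq, Subtype.mk.injEq]
  constructor
  · rintro ⟨⟨h1, h2⟩, h3, h4⟩
    refine ⟨fun i b => ?_, h2, h3, h4⟩
    have := congrFun (congrFun h1 i) b
    exact congrArg Fin.val this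
  · rintro ⟨h1, h2, h3, h4⟩
    refine ⟨⟨?_, h2⟩, h3, h4⟩
    funext i b
    exact Fin.ext (h1 i b)

/-- equal counts give equal totals -/
theorem tot_of (c : β × ℕ → Bool) (o o' : O) (x y : I → A)
    (h : ∀ i b, cnt M pg L T φ c o x i b = cnt M pg L T φ c o' y i b) :
    tot M T φ x = tot M T φ y := by
  funext i
  rw [tot_eq M pg L T φ c o x i, tot_eq M pg L T φ c o' y i, h, h]

/-- counts of the mixed run -/
theorem cnt_mix (c : β × ℕ → Bool) (o : O) (x y z : I → A)
    (hc : ∀ i b, cnt M pg L T φ c o x i b = cnt M pg L T φ c o y i b)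
    (h : ∀ t < T, M.pc (pg o) L z t = M.pc (pg o) L x t ∧
      M.pc (pg o) L y t = M.pc (pg o) L x t ∧
      (c (M.pc (pg o) L x t) = true → M.st z t = M.st x t ∧ M.st z (t + 1) = M.st x (t + 1)) ∧
      (c (M.pc (pg o) L x t) = false → M.st z t = M.st y t ∧ M.st z (t + 1) = M.st y (t + 1)))
    (i : κ) (b : Bool) :
    cnt M pg L T φ c o z i b = cnt M pg L T φ c o x i b := by
  cases b with
  | true =>
    unfold cnt
    congr 1
    apply filter_congr
    intro t ht
    rw [mem_range] at ht
    obtain ⟨a1, a2, a3, a4⟩ := h t ht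
    rw [a1]
    constructor
    · rintro ⟨b1, b2⟩
      obtain ⟨d1, d2⟩ := a3 b2
      rw [d1, d2] at b1
      exact ⟨b1, b2⟩
    · rintro ⟨b1, b2⟩
      obtain ⟨d1, d2⟩ := a3 b2
      rw [d1, d2]
      exact ⟨b1, b2⟩
  | false =>
    rw [hc]
    unfold cnt
    congr 1
    apply filter_congr
    intro t ht
    rw [mem_range] at ht
    obtain ⟨a1, a2, a3, a4⟩ := h t ht
    rw [a1, a2]
    constructor
    · rintro ⟨b1, b2⟩
      obtain ⟨d1, d2⟩ := a4 b2
      rw [d1, d2] at b1
      exact ⟨b1, b2⟩
    · rintro ⟨b1, b2⟩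
      obtain ⟨d1, d2⟩ := a4 b2
      rw [d1, d2]
      exact ⟨b1, b2⟩

/-- the system -/
noncomputable def sys (h1 : MIX_Stmt) (h2 : RECO_Stmt) (h3 : COMP_Stmt) (hL : 0 < L)
    (hs : ∀ o r r', pg o r = pg o r' → slot o r = slot o r' → r = r')
    (hK : ∀ x, ((range (T - 1)).filter fun t =>
      M.blk (pg (pgo M T φ sel x)) x t ≠ M.blk (pg (pgo M T φ sel x)) x (t + 1)).card ≤ K) :
    Sys I A {j // j ∈ pieces M pg T} (Dat V G κ v T K (T / L))
      (fun x => accf (M.st x T) (tot M T φ x)) where
  pc := pcs M pg L T φ sel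
  data := dat M pg v slot L T K φ sel h3 hL hK
  mix := by
    intro ω x y z hd hx hy
    rw [dat_eq_iff] at hd
    obtain ⟨d1, d2, d3, d4⟩ := hd
    have ht := tot_of M pg L T φ _ _ _ x y d1
    have ho : pgo M T φ sel y = pgo M T φ sel x := by
      unfold pgo
      rw [ht]
    rw [ho] at d1 d2 d3
    have hr := rel_of M pg v slot L T hs _ x y d2 d3 d4
    have hmix := h1 I A V R G β M (pg (pgo M T φ sel x)) L T (ext M pg T ω) x y z hL hr ?_ ?_
    · obtain ⟨hz, hz'⟩ := hmix
      have hc := cnt_mix M pg L T φ (ext M pg T ω) (pgo M T φ sel x) x y z d1 hz'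
      have ht' := tot_of M pg L T φ _ _ _ z x hc
      have ho' : pgo M T φ sel z = pgo M T φ sel x := by
        unfold pgo
        rw [ht']
      refine ⟨?_, ?_⟩
      · rw [dat_eq_iff, ho']
        exact ⟨hc, f1_of_rel M pg L T _ z x hz, f2_of_rel M pg v slot L T _ z x hz, hz.last⟩
      · intro e j
        rw [mem_pcs, mem_pcs, mem_pcs, ho', ho]
        by_cases hj : ω j = true
        · rw [if_pos hj]
          constructor
          · rintro ⟨t, ht, b1, b2⟩
            obtain ⟨a1, a2, a3, a4⟩ := hz' t ht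
            rw [a1] at b1
            have hcol : ext M pg T ω (M.pc (pg (pgo M T φ sel x)) L x t) = true := by
              rw [b1]
              unfold ext
              rw [dif_pos j.2]
              exact hj
            rw [(a3 hcol).1] at b2
            exact ⟨t, ht, b1, b2⟩
          · rintro ⟨t, ht, b1, b2⟩
            obtain ⟨a1, a2, a3, a4⟩ := hz' t ht
            have hcol : ext M pg T ω (M.pc (pg (pgo M T φ sel x)) L x t) = true := by
              rw [b1]
              unfold ext
              rw [dif_pos j.2]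
              exact hj
            refine ⟨t, ht, a1.trans b1, ?_⟩
            rw [(a3 hcol).1]
            exact b2
        · rw [if_neg hj]
          have hj' : ω j = false := by
            simpa using hj
          constructor
          · rintro ⟨t, ht, b1, b2⟩
            obtain ⟨a1, a2, a3, a4⟩ := hz' t ht
            rw [a1] at b1
            have hcol : ext M pg T ω (M.pc (pg (pgo M T φ sel x)) L x t) = false := by
              rw [b1]
              unfold ext
              rw [dif_pos j.2]
              exact hj'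
            rw [(a4 hcol).1] at b2
            exact ⟨t, ht, a2.trans b1, b2⟩
          · rintro ⟨t, ht, b1, b2⟩
            obtain ⟨a1, a2, a3, a4⟩ := hz' t ht
            rw [a2] at b1
            have hcol : ext M pg T ω (M.pc (pg (pgo M T φ sel x)) L x t) = false := by
              rw [b1]
              unfold ext
              rw [dif_pos j.2]
              exact hj'
            refine ⟨t, ht, a1.trans b1, ?_⟩
            rw [(a4 hcol).1]
            exact b2
    · intro t ht hcol e he
      apply hx e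
      refine ⟨⟨_, mem_pieces M pg L T (pgo M T φ sel x) x t ht⟩, ?_, ?_⟩
      · rw [mem_pcs]
        exact ⟨t, ht, rfl, he⟩
      · rw [← ext_mem M pg L T ω (pgo M T φ sel x) x t ht]
        exact hcol
    · intro t ht hcol e he
      apply hy e
      refine ⟨⟨_, mem_pieces M pg L T (pgo M T φ sel x) y t ht⟩, ?_, ?_⟩
      · rw [mem_pcs, ho]
        exact ⟨t, ht, rfl, he⟩
      · rw [← ext_mem M pg L T ω (pgo M T φ sel x) y t ht]
        exact hcol
  recov := by
    intro ω x y hd hxy e j hj
    rw [dat_eq_iff] at hd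
    obtain ⟨d1, d2, d3, d4⟩ := hd
    have ht := tot_of M pg L T φ _ _ _ x y d1
    have ho : pgo M T φ sel y = pgo M T φ sel x := by
      unfold pgo
      rw [ht]
    rw [ho] at d1 d2 d3
    have hr := rel_of M pg v slot L T hs _ x y d2 d3 d4
    have hre := h2 I A V R G β M (pg (pgo M T φ sel x)) L T (ext M pg T ω) x y hL hr ?_
    · rw [mem_pcs, mem_pcs, ho]
      constructor
      · rintro ⟨t, ht, b1, b2⟩
        obtain ⟨a1, a2⟩ := hre t ht
        have hcol : ext M pg T ω (M.pc (pg (pgo M T φ sel x)) L x t) = false := by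
          rw [b1]
          unfold ext
          rw [dif_pos j.2]
          exact hj
        refine ⟨t, ht, a1.trans b1, ?_⟩
        rw [a2 hcol]
        exact b2
      · rintro ⟨t, ht, b1, b2⟩
        obtain ⟨a1, a2⟩ := hre t ht
        rw [a1] at b1
        have hcol : ext M pg T ω (M.pc (pg (pgo M T φ sel x)) L x t) = false := by
          rw [b1]
          unfold ext
          rw [dif_pos j.2]
          exact hj
        rw [a2 hcol] at b2
        exact ⟨t, ht, b1, b2⟩
    · rintro e' ⟨t, ht, c1, c2⟩ ⟨t', ht', c1', c2'⟩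
      apply hxy e'
      · refine ⟨⟨_, mem_pieces M pg L T (pgo M T φ sel x) x t ht⟩, ?_, ?_⟩
        · rw [mem_pcs]
          exact ⟨t, ht, rfl, c2⟩
        · rw [← ext_mem M pg L T ω (pgo M T φ sel x) x t ht]
          exact c1
      · refine ⟨⟨_, mem_pieces M pg L T (pgo M T φ sel x) y t' ht'⟩, ?_, ?_⟩
        · rw [mem_pcs, ho]
          exact ⟨t', ht', rfl, c2'⟩
        · rw [← ext_mem M pg L T ω (pgo M T φ sel x) y t' ht']
          exact c1'
  acc := by
    intro ω x y hd
    rw [dat_eq_iff] at hd
    obtain ⟨d1, d2, d3, d4⟩ := hd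
    have ht := tot_of M pg L T φ _ _ _ x y d1
    show accf (M.st x T) (tot M T φ x) ↔ accf (M.st y T) (tot M T φ y)
    rw [ht, d4]

theorem card_dat (h4 : SPARSE_Stmt) (K' : ℕ) [Fintype (Dat V G κ v T K K')] :
    Fintype.card (Dat V G κ v T K K') ≤
      (T + 1) ^ (2 * Fintype.card κ) * (T * Fintype.card V + 1) ^ K *
        (T * (Fintype.card V * (Fintype.card G + 1) ^ v) + 1) ^ K' * Fintype.card V := by
  classical
  rw [← Nat.card_eq_fintype_card]
  have e1 : Nat.card (κ → Bool → Fin (T + 1)) = (T + 1) ^ (2 * Fintype.card κ) := by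
    rw [Nat.card_eq_fintype_card]
    simp only [Fintype.card_pi, Fintype.card_fin, prod_const, card_univ, Fintype.card_bool]
    rw [← pow_mul]
  have e2 := h4 V T K
  have e3 := h4 (V × (Fin v → Option G)) T K'
  have e4 : Fintype.card (V × (Fin v → Option G)) =
      Fintype.card V * (Fintype.card G + 1) ^ v := by
    simp [Fintype.card_prod, Fintype.card_option]
  rw [e4] at e3
  have e5 : Nat.card V = Fintype.card V := Nat.card_eq_fintype_card
  unfold Dat
  rw [Nat.card_prod, Nat.card_prod, Nat.card_prod, e1, e5]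
  calc (T + 1) ^ (2 * Fintype.card κ) *
        Nat.card {f : Fin T → Option V // (fil fun t => f t ≠ none).card ≤ K} *
        (Nat.card {f : Fin T → Option (V × (Fin v → Option G)) //
          (fil fun t => f t ≠ none).card ≤ K'} * Fintype.card V)
      ≤ (T + 1) ^ (2 * Fintype.card κ) * (T * Fintype.card V + 1) ^ K *
        ((T * (Fintype.card V * (Fintype.card G + 1) ^ v) + 1) ^ K' * Fintype.card V) := by
        gcongr
    _ = _ := by ring

theorem card_pc (h3 : COMP_Stmt) (hL : 0 < L) (x : I → A) (j : {j // j ∈ pieces M pg T}) :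
    (fil fun e => j ∈ pcs M pg L T φ sel x e).card ≤ L := by
  classical
  refine le_trans ?_ ((h3 β (fun t => M.blk (pg (pgo M T φ sel x)) x t) L T hL).1 j.1)
  have hch : ∀ e ∈ (fil fun e => j ∈ pcs M pg L T φ sel x e), ∃ t < T,
      M.pc (pg (pgo M T φ sel x)) L x t = j.1 ∧ M.query t (M.st x t) = some e := by
    intro e he
    rw [Pool.Agent.Lib_helper26.TS.mem_fil, mem_pcs] at he
    exact he
  choose! g hg using hch
  refine card_le_card_of_injOn g ?_ ?_
  · intro e he
    obtain ⟨g1, g2, g3⟩ := hg e he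
    rw [mem_coe, mem_filter, mem_range]
    exact ⟨g1, g2⟩
  · intro e he e' he' hee
    obtain ⟨g1, g2, g3⟩ := hg e he
    obtain ⟨g1', g2', g3'⟩ := hg e' he'
    rw [hee, g3'] at g3
    exact (Option.some.inj g3).symm

theorem sum_pc (x : I → A) :
    ∑ e, (pcs M pg L T φ sel x e).card ≤
      ((range T).filter fun t => (M.query t (M.st x t)).isSome = true).card := by
  classical
  have h1 : ∀ e : I, (pcs M pg L T φ sel x e).card ≤
      ((range T).filter fun t => M.query t (M.st x t) = some e).card := by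
    intro e
    have hch : ∀ j ∈ pcs M pg L T φ sel x e, ∃ t < T,
        M.pc (pg (pgo M T φ sel x)) L x t = j.1 ∧ M.query t (M.st x t) = some e := by
      intro j hj
      rw [mem_pcs] at hj
      exact hj
    choose! g hg using hch
    refine card_le_card_of_injOn g ?_ ?_
    · intro j hj
      obtain ⟨g1, g2, g3⟩ := hg j hj
      rw [mem_coe, mem_filter, mem_range]
      exact ⟨g1, g3⟩
    · intro j hj j' hj' hee
      obtain ⟨g1, g2, g3⟩ := hg j hj
      obtain ⟨g1', g2', g3'⟩ := hg j' hj'
      rw [hee, g2'] at g2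
      exact (Subtype.ext g2).symm
  refine (sum_le_sum fun e _ => h1 e).trans ?_
  rw [← card_biUnion]
  · apply card_le_card
    intro t ht
    rw [mem_biUnion] at ht
    obtain ⟨e, _, he⟩ := ht
    rw [mem_filter] at he ⊢
    refine ⟨he.1, ?_⟩
    rw [he.2]
    rfl
  · intro e _ e' _ hne
    rw [Function.onFun, disjoint_left]
    intro t h1 h2
    rw [mem_filter] at h1 h2
    rw [h1.2] at h2
    exact hne (Option.some.inj h2.2)

end b

end SYSOM

theorem sysom (h1 : MIX_Stmt) (h2 : RECO_Stmt) (h3 : COMP_Stmt) (h4 : SPARSE_Stmt) :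
    SYSOM_Stmt := by
  intro I A V R G O β κ _ _ _ _ _ _ _ _ _ _ M pg v slot L T K φ sel accf tot hL hs hK
  classical
  have hK' : ∀ x, ((range (T - 1)).filter fun t =>
      M.blk (pg (SYSOM.pgo M T φ sel x)) x t ≠
        M.blk (pg (SYSOM.pgo M T φ sel x)) x (t + 1)).card ≤ K := by
    intro x
    exact hK x
  refine ⟨{j // j ∈ SYSOM.pieces M pg T}, SYSOM.Dat V G κ v T K (T / L), inferInstance,
    inferInstance, inferInstance,
    SYSOM.sys M pg v slot L T K φ sel accf h1 h2 h3 hL hs hK', ?_, ?_, ?_⟩
  · intro x j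
    exact SYSOM.card_pc M pg L T φ sel h3 hL x j
  · intro x
    exact SYSOM.sum_pc M pg L T φ sel x
  · exact SYSOM.card_dat v T K h4 (T / L)

end Pool.Agent.UM
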