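import Pool.Agent.UM.Stmts
import Pool.Agent.Lib_helper26.TB.Blocks

/-!
# From the correlation at one point to the correlation with the sum over all points
-/

set_option autoImplicit false

namespace Pool.Agent.UM

open Finset
open Pool.Agent.Lib_helper26.TS (fil mem_fil fil_congr)
open Pool.Agent.Lib_helper26.TB (Cell cub sg sg_add abs_sg card_cell sum_update first_good)

namespace BLOCK

variable {n m : ℕ}

theorem card_pts : (Fintype.card (Cell n → ZMod 2) : ℝ) = 2 ^ (3 * n) := by
  rw [Fintype.card_pi]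
  simp only [ZMod.card, Finset.prod_const, Finset.card_univ]
  rw [card_cell]
  push_cast
  rfl

theorem sg_upd (M : Fin n → Fin n → Fin n → ZMod 2) (p : Fin m → Cell n → ZMod 2) (l : Fin m)
    (x : Cell n → ZMod 2) : sg (∑ l', cub M (Function.update p l x l')) =
      sg (∑ l' ∈ univ.erase l, cub M (p l')) * sg (cub M x) := by
  rw [← Finset.sum_erase_add univ _ (mem_univ l), sg_add, Function.update_self]
  congr 2
  refine Finset.sum_congr rfl fun l' hl' => ?_
  rw [Function.update_of_ne (mem_erase.1 hl').1]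

variable {acc : (Fin m → Cell n → ZMod 2) → Prop} {rd : (Fin m → Cell n → ZMod 2) → Fin m → ℕ}

open Classical in
/-- the points that are read often -/
noncomputable def bads (rd : (Fin m → Cell n → ZMod 2) → Fin m → ℕ) (B : ℕ)
    (p : Fin m → Cell n → ZMod 2) : Finset (Fin m) := univ.filter fun l => B < rd p l

theorem bads_card {T : ℕ} (B : ℕ) (hrd : ∀ p, ∑ l, rd p l ≤ T) (p : Fin m → Cell n → ZMod 2) :
    (bads rd B p).card * (B + 1) ≤ T := by
  classical
  calc (bads rd B p).card * (B + 1) = ∑ _l ∈ bads rd B p, (B + 1) := by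
        rw [Finset.sum_const, smul_eq_mul]
    _ ≤ ∑ l ∈ bads rd B p, rd p l := by
        refine Finset.sum_le_sum fun l hl => ?_
        exact (mem_filter.1 hl).2
    _ ≤ ∑ l, rd p l := Finset.sum_le_sum_of_subset (subset_univ _)
    _ ≤ T := hrd p

open Classical in
/-- one tuple of points, one good point -/
theorem one_block {M : Fin n → Fin n → Fin n → ZMod 2} {B r : ℕ} {δ : ℝ}
    (hδ : ∀ (p : Fin m → Cell n → ZMod 2) (σ : Fin r → Fin m) (j : Fin r),
      |∑ x ∈ fil (fun x => acc (Function.update p (σ j) x) ∧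
          rd (Function.update p (σ j) x) (σ j) ≤ B ∧
          ∀ i : Fin r, i.val < j.val → B < rd (Function.update p (σ j) x) (σ i)),
        sg (cub M x)| ≤ 2 ^ (3 * n) * δ)
    (σ : Fin r → Fin m) (j : Fin r) :
    |∑ p : Fin m → Cell n → ZMod 2, if acc p ∧ ¬ (B < rd p (σ j)) ∧
        (∀ i : Fin r, i.val < j.val → B < rd p (σ i))
        then sg (∑ l, cub M (p l)) else 0| ≤
      (Fintype.card (Fin m → Cell n → ZMod 2) : ℝ) * δ := by
  set g : (Fin m → Cell n → ZMod 2) → ℝ := fun p => if acc p ∧ ¬ (B < rd p (σ j)) ∧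
        (∀ i : Fin r, i.val < j.val → B < rd p (σ i))
        then sg (∑ l, cub M (p l)) else 0 with hg
  have hN : (0:ℝ) < 2 ^ (3 * n) := by positivity
  have h1 := sum_update (σ j) g
  rw [card_pts] at h1
  have h2 : ∀ p : Fin m → Cell n → ZMod 2,
      |∑ x, g (Function.update p (σ j) x)| ≤ 2 ^ (3 * n) * δ := by
    intro p
    set A : (Cell n → ZMod 2) → Prop := fun x => acc (Function.update p (σ j) x) ∧
          rd (Function.update p (σ j) x) (σ j) ≤ B ∧
          ∀ i : Fin r, i.val < j.val → B < rd (Function.update p (σ j) x) (σ i) with hA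
    have h3 : ∀ x, g (Function.update p (σ j) x) =
        sg (∑ l' ∈ univ.erase (σ j), cub M (p l')) * (if A x then sg (cub M x) else 0) := by
      intro x
      rw [hg]
      simp only
      by_cases h : A x
      · rw [if_pos h, ← sg_upd, if_pos]
        exact ⟨h.1, not_lt.2 h.2.1, h.2.2⟩
      · rw [if_neg h, mul_zero, if_neg]
        rintro ⟨a1, a2, a3⟩
        exact h ⟨a1, not_lt.1 a2, a3⟩
    have h5 := hδ p σ j
    rw [Finset.sum_congr rfl fun x _ => h3 x, ← Finset.mul_sum, abs_mul, abs_sg, one_mul,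
      ← Finset.sum_filter]
    refine le_trans (le_of_eq ?_) h5
    congr 1
    refine Finset.sum_congr ?_ fun _ _ => rfl
    ext x
    rw [mem_filter, mem_fil]
    exact ⟨fun h => h.2, fun h => ⟨mem_univ _, h⟩⟩
  have h3 : |2 ^ (3 * n) * ∑ p, g p| ≤ (Fintype.card (Fin m → Cell n → ZMod 2) : ℝ) *
      (2 ^ (3 * n) * δ) := by
    rw [← h1]
    refine (Finset.abs_sum_le_sum_abs _ _).trans ((Finset.sum_le_sum fun p _ => h2 p).trans
      (le_of_eq ?_))
    rw [Finset.sum_const, nsmul_eq_mul, card_univ]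
  rw [abs_mul, abs_of_pos hN, mul_left_comm] at h3
  exact le_of_mul_le_mul_left h3 hN

end BLOCK

open BLOCK in
theorem block : BLOCK_Stmt := by
  classical
  intro n m T B r M acc rd δ hm hTB hrd hδ
  set b : (Fin m → Cell n → ZMod 2) → Fin m → Prop := fun p l => B < rd p l with hb
  set a : (Fin m → Cell n → ZMod 2) → ℝ := fun p =>
    if acc p then sg (∑ l, cub M (p l)) else 0 with ha
  have h0 : ∑ p ∈ fil acc, sg (∑ l, cub M (p l)) = ∑ p, a p := by
    rw [ha, ← Finset.sum_filter]
    refine Finset.sum_congr ?_ fun _ _ => rfl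
    ext x
    rw [mem_filter, mem_fil]
    exact ⟨fun h => ⟨mem_univ _, h⟩, fun h => h.2⟩
  rw [h0]
  set K : ℝ := (Fintype.card (Fin m → Cell n → ZMod 2) : ℝ) with hK
  have hK0 : 0 ≤ K := Nat.cast_nonneg _
  have hm' : (0:ℝ) < m := by exact_mod_cast hm
  have hmr : (0:ℝ) < (m:ℝ) ^ r := by positivity
  -- the tuples
  have h1 : (m : ℝ) ^ r * ∑ p, a p =
      (∑ σ : Fin r → Fin m, ∑ j : Fin r, ∑ p, if acc p ∧
        ¬ (b p (σ j)) ∧ (∀ i : Fin r, i.val < j.val → b p (σ i))
        then sg (∑ l, cub M (p l)) else 0) +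
      ∑ p, a p * ∑ σ : Fin r → Fin m, (if ∀ i, b p (σ i) then (1:ℝ) else 0) := by
    have e1 : (m : ℝ) ^ r * ∑ p, a p = ∑ σ : Fin r → Fin m, ∑ p, a p := by
      rw [Finset.sum_const, card_univ, Fintype.card_fun, Fintype.card_fin, Fintype.card_fin,
        nsmul_eq_mul]
      push_cast
      rfl
    rw [e1]
    have e2 : ∀ (σ : Fin r → Fin m) (p : Fin m → Cell n → ZMod 2), a p =
        (∑ j : Fin r, if acc p ∧
          ¬ (b p (σ j)) ∧ (∀ i : Fin r, i.val < j.val → b p (σ i))
          then sg (∑ l, cub M (p l)) else 0) + a p * (if ∀ i, b p (σ i) then (1:ℝ) else 0) := by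
      intro σ p
      have h := first_good (fun i => b p (σ i))
      have h2 : a p = a p * 1 := (mul_one _).symm
      rw [h] at h2
      rw [mul_add, Finset.mul_sum] at h2
      refine h2.trans ?_
      congr 1
      refine Finset.sum_congr rfl fun j _ => ?_
      rw [ha]
      simp only
      by_cases h3 : acc p
      · simp only [h3, true_and, if_true]
        split_ifs <;> simp
      · simp [h3]
    rw [Finset.sum_congr rfl fun σ _ => Finset.sum_congr rfl fun p _ => e2 σ p]
    simp only [Finset.sum_add_distrib]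
    congr 1
    · refine Finset.sum_congr rfl fun σ _ => ?_
      rw [Finset.sum_comm]
    · rw [Finset.sum_comm]
      refine Finset.sum_congr rfl fun p _ => ?_
      rw [Finset.mul_sum]
  have h2 : |∑ σ : Fin r → Fin m, ∑ j : Fin r, ∑ p, if acc p ∧
        ¬ (b p (σ j)) ∧ (∀ i : Fin r, i.val < j.val → b p (σ i))
        then sg (∑ l, cub M (p l)) else 0| ≤ (m:ℝ) ^ r * (r * (K * δ)) := by
    refine (Finset.abs_sum_le_sum_abs _ _).trans ?_
    have e1 : ∀ σ : Fin r → Fin m, |∑ j : Fin r, ∑ p, if acc p ∧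
        ¬ (b p (σ j)) ∧ (∀ i : Fin r, i.val < j.val → b p (σ i))
        then sg (∑ l, cub M (p l)) else 0| ≤ r * (K * δ) := by
      intro σ
      refine (Finset.abs_sum_le_sum_abs _ _).trans ?_
      refine (Finset.sum_le_sum fun j _ => one_block hδ σ j).trans (le_of_eq ?_)
      rw [Finset.sum_const, card_univ, Fintype.card_fin, nsmul_eq_mul]
    refine (Finset.sum_le_sum fun σ _ => e1 σ).trans (le_of_eq ?_)
    rw [Finset.sum_const, card_univ, Fintype.card_fun, Fintype.card_fin, Fintype.card_fin,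
      nsmul_eq_mul]
    push_cast
    rfl
  have h3 : |∑ p, a p * ∑ σ : Fin r → Fin m, (if ∀ i, b p (σ i) then (1:ℝ) else 0)| ≤
      K * ((m:ℝ) ^ r / 4 ^ r) := by
    refine (Finset.abs_sum_le_sum_abs _ _).trans ?_
    have e1 : ∀ p, |a p * ∑ σ : Fin r → Fin m, (if ∀ i, b p (σ i) then (1:ℝ) else 0)| ≤
        (m:ℝ) ^ r / 4 ^ r := by
      intro p
      have e2 : ∑ σ : Fin r → Fin m, (if ∀ i, b p (σ i) then (1:ℝ) else 0) =
          ((bads rd B p).card : ℝ) ^ r := by
        rw [← Finset.sum_filter, Finset.sum_const, nsmul_eq_mul, mul_one]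
        have e3 : (univ.filter fun σ : Fin r → Fin m => ∀ i, b p (σ i)) =
            Fintype.piFinset fun _ : Fin r => bads rd B p := by
          ext σ
          rw [mem_filter, Fintype.mem_piFinset]
          unfold bads
          simp only [mem_filter, mem_univ, true_and]
          exact Iff.rfl
        rw [e3, Fintype.card_piFinset, Finset.prod_const, card_univ, Fintype.card_fin]
        push_cast
        rfl
      have e4 : |a p| ≤ 1 := by
        rw [ha]
        simp only
        split_ifs
        · rw [abs_sg]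
        · simp
      have e5 : ((bads rd B p).card : ℝ) ≤ m / 4 := by
        have e6 := bads_card B hrd p
        have e7 : 4 * (bads rd B p).card ≤ m := by
          refine Nat.le_of_mul_le_mul_right ?_ (Nat.succ_pos B)
          calc 4 * (bads rd B p).card * (B + 1) =
                4 * ((bads rd B p).card * (B + 1)) := by ring
            _ ≤ 4 * T := Nat.mul_le_mul_left _ e6
            _ ≤ m * (B + 1) := hTB
        rw [le_div_iff₀ (by norm_num)]
        have : ((4 * (bads rd B p).card : ℕ) : ℝ) ≤ m := by exact_mod_cast e7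
        push_cast at this
        linarith
      rw [e2, abs_mul, abs_of_nonneg (by positivity :
        (0:ℝ) ≤ ((bads rd B p).card : ℝ) ^ r), ← div_pow]
      calc |a p| * ((bads rd B p).card : ℝ) ^ r ≤ 1 * ((m:ℝ) / 4) ^ r := by gcongr
        _ = _ := one_mul _
    refine (Finset.sum_le_sum fun p _ => e1 p).trans (le_of_eq ?_)
    rw [Finset.sum_const, card_univ, nsmul_eq_mul]
  have h4 : (m:ℝ) ^ r * |∑ p, a p| ≤ (m:ℝ) ^ r * (K * (r * δ + 1 / 4 ^ r)) := by
    rw [← abs_of_pos hmr, ← abs_mul, h1, abs_of_pos hmr]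
    refine (abs_add_le _ _).trans ((add_le_add h2 h3).trans (le_of_eq ?_))
    ring
  exact le_of_mul_le_mul_left h4 hmr

end Pool.Agent.UM
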