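import Pool.Agent.UM.Stmts
import Pool.Agent.Lib_helper26.TB.Color

/-!
# A random colouring of the pieces
-/

set_option autoImplicit false
set_option linter.unusedSectionVars false

namespace Pool.Agent.UM

namespace COLS

open Finset
open Pool.Agent.Lib_helper26.TS (fil mem_fil fil_congr card_fixed mcd_upper mcd_lower)
open Pool.Agent.Lib_helper26.TB (Cell DS mem_DS fam exists_fam card_cell)

variable {P I : Type} [Fintype P] [DecidableEq P] [Fintype I] {w : ℕ}

/-- number of cells all of whose pieces have colour zero -/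
noncomputable def nA (S : I → Finset P) (ω : P → Fin (w + 1)) : ℝ :=
  ((fil fun i => ∀ j ∈ S i, ω j = 0).card : ℝ)

/-- number of cells of the piece `j` -/
noncomputable def cc (S : I → Finset P) (j : P) : ℝ := ((fil fun i => j ∈ S i).card : ℝ)

/-- number of cells in pieces of colour zero, with multiplicities -/
noncomputable def xx (S : I → Finset P) (ω : P → Fin (w + 1)) : ℝ :=
  ∑ j, if ω j = 0 then cc S j else 0

theorem cc_nonneg (S : I → Finset P) (j : P) : 0 ≤ cc S j := Nat.cast_nonneg _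

theorem card_fil_sum {α : Type} [Fintype α] (p : α → Prop) [DecidablePred p] :
    ((fil p).card : ℝ) = ∑ a, if p a then (1 : ℝ) else 0 := by
  rw [← Finset.sum_filter, Finset.sum_const, nsmul_eq_mul, mul_one]
  congr 2
  ext a
  rw [mem_fil, mem_filter]
  exact ⟨fun h => ⟨mem_univ _, h⟩, fun h => h.2⟩

/-- double counting -/
theorem sum_cc (S : I → Finset P) : ∑ j, cc S j = ((∑ i, (S i).card : ℕ) : ℝ) := by
  unfold cc
  rw [Finset.sum_congr rfl fun j _ => card_fil_sum (fun i => j ∈ S i), Finset.sum_comm]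
  push_cast
  refine Finset.sum_congr rfl fun i _ => ?_
  rw [← Finset.sum_filter, Finset.sum_const, nsmul_eq_mul, mul_one]
  congr 2
  ext j
  rw [mem_filter]
  exact ⟨fun h => h.2, fun h => ⟨mem_univ _, h⟩⟩

theorem sum_sq (S : I → Finset P) {L : ℕ} {B : ℝ} (hL : ∀ j, (fil fun i => j ∈ S i).card ≤ L)
    (hB : ((∑ i, (S i).card : ℕ) : ℝ) ≤ B) : ∑ j, cc S j ^ 2 ≤ L * B := by
  have h1 : ∀ j ∈ (univ : Finset P), cc S j ^ 2 ≤ L * cc S j := by
    intro j _
    rw [pow_two]
    refine mul_le_mul_of_nonneg_right ?_ (cc_nonneg S j)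
    unfold cc
    exact_mod_cast hL j
  refine (Finset.sum_le_sum h1).trans ?_
  rw [← Finset.mul_sum, sum_cc]
  exact mul_le_mul_of_nonneg_left hB (Nat.cast_nonneg _)

theorem sum_nA (S : I → Finset P) :
    ∑ ω : P → Fin (w + 1), nA S ω =
      (∑ i, (1 / (w + 1 : ℝ)) ^ (S i).card) * (w + 1 : ℝ) ^ Fintype.card P := by
  classical
  unfold nA
  rw [Finset.sum_congr rfl fun (ω : P → Fin (w + 1)) _ =>
    card_fil_sum (fun i => ∀ j ∈ S i, ω j = 0), Finset.sum_comm, Finset.sum_mul]
  refine Finset.sum_congr rfl fun i _ => ?_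
  rw [← card_fil_sum (fun ω : P → Fin (w + 1) => ∀ j ∈ S i, ω j = 0)]
  have h := card_fixed (S i) (fun _ : P => (0 : Fin (w + 1)))
  rw [Fintype.card_fin] at h
  have h3 : ((fil fun ω : P → Fin (w + 1) => ∀ j ∈ S i, ω j = 0).card : ℝ) *
      (w + 1 : ℝ) ^ (S i).card = (w + 1 : ℝ) ^ Fintype.card P := by exact_mod_cast h
  have h4 : (0:ℝ) < (w + 1 : ℝ) := by positivity
  rw [← h3, one_div, inv_pow]
  field_simp

theorem nA_update (S : I → Finset P) (ω : P → Fin (w + 1)) (j : P)
    (v : Fin (w + 1)) : |nA S (Function.update ω j v) - nA S ω| ≤ cc S j := by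
  classical
  have hone : ∀ ω ω' : P → Fin (w + 1), (∀ j', j' ≠ j → ω j' = ω' j') →
      nA S ω ≤ nA S ω' + cc S j := by
    intro ω ω' hω
    have h1 : (fil fun i => ∀ j ∈ S i, ω j = 0) ⊆
        (fil fun i => ∀ j ∈ S i, ω' j = 0) ∪ (fil fun i => j ∈ S i) := by
      intro i hi
      rw [mem_union]
      by_cases hj : j ∈ S i
      · exact Or.inr (mem_fil.2 hj)
      · left
        rw [mem_fil] at hi ⊢
        intro j' hj'
        rw [← hω j' (fun h => hj (h ▸ hj'))]
        exact hi j' hj'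
    have h2 := (card_le_card h1).trans (card_union_le _ _)
    unfold nA cc
    exact_mod_cast h2
  have h1 := hone (Function.update ω j v) ω fun j' hj' => Function.update_of_ne hj' _ _
  have h2 := hone ω (Function.update ω j v) fun j' hj' => (Function.update_of_ne hj' _ _).symm
  rw [abs_le]
  constructor <;> linarith

theorem sum_xx (S : I → Finset P) :
    ∑ ω : P → Fin (w + 1), xx S ω =
      (∑ j, cc S j) / (w + 1 : ℝ) * (w + 1 : ℝ) ^ Fintype.card P := by
  classical
  unfold xx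
  rw [Finset.sum_comm, Finset.sum_div, Finset.sum_mul]
  refine Finset.sum_congr rfl fun j _ => ?_
  have h := card_fixed ({j} : Finset P) (fun _ : P => (0 : Fin (w + 1)))
  rw [Fintype.card_fin, card_singleton, pow_one] at h
  have h3 : ((fil fun ω : P → Fin (w + 1) => ∀ i ∈ ({j} : Finset P), ω i = 0).card : ℝ) *
      (w + 1 : ℝ) = (w + 1 : ℝ) ^ Fintype.card P := by exact_mod_cast h
  have h4 : (0:ℝ) < (w + 1 : ℝ) := by positivity
  have h5 : ∑ ω : P → Fin (w + 1), (if ω j = 0 then cc S j else 0) =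
      ((fil fun ω : P → Fin (w + 1) => ∀ i ∈ ({j} : Finset P), ω i = 0).card : ℝ) * cc S j := by
    rw [card_fil_sum (fun ω : P → Fin (w + 1) => ∀ i ∈ ({j} : Finset P), ω i = 0),
      Finset.sum_mul]
    refine Finset.sum_congr rfl fun ω _ => ?_
    by_cases h0 : ω j = 0
    · rw [if_pos h0, if_pos, one_mul]
      intro i hi
      rw [mem_singleton.1 hi]
      exact h0
    · rw [if_neg h0, if_neg, zero_mul]
      intro h6
      exact h0 (h6 j (mem_singleton_self j))
  rw [h5, ← h3]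
  field_simp

theorem xx_update (S : I → Finset P) (ω : P → Fin (w + 1)) (j : P)
    (v : Fin (w + 1)) : |xx S (Function.update ω j v) - xx S ω| ≤ cc S j := by
  unfold xx
  rw [← Finset.sum_sub_distrib, Finset.sum_eq_single j]
  · have h0 := cc_nonneg S j
    rw [Function.update_self]
    by_cases h1 : v = 0 <;> by_cases h2 : ω j = 0 <;> simp [h1, h2, abs_of_nonneg h0, h0]
  · intro i _ hi
    rw [Function.update_of_ne hi, sub_self]
  · intro h
    exact absurd (mem_univ j) h

/-- few reads: the mean is large -/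
theorem mean_ge (S : I → Finset P) (T k : ℕ) (hT : ∑ e, (S e).card ≤ T)
    (hk : 2 * T ≤ Fintype.card I * (k + 1)) :
    (Fintype.card I : ℝ) / 2 * (1 / (w + 1 : ℝ)) ^ k ≤ ∑ i, (1 / (w + 1 : ℝ)) ^ (S i).card := by
  classical
  set J := univ.filter fun e => (S e).card ≤ k with hJ
  have h1 : ((univ.filter fun e => ¬ (S e).card ≤ k).card) * (k + 1) ≤ T := by
    calc ((univ.filter fun e => ¬ (S e).card ≤ k).card) * (k + 1)
        = ∑ _e ∈ univ.filter (fun e => ¬ (S e).card ≤ k), (k + 1) := by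
          rw [Finset.sum_const, smul_eq_mul]
      _ ≤ ∑ e ∈ univ.filter (fun e => ¬ (S e).card ≤ k), (S e).card := by
          refine Finset.sum_le_sum fun e he => ?_
          have := (mem_filter.1 he).2
          omega
      _ ≤ ∑ e, (S e).card := Finset.sum_le_sum_of_subset (filter_subset _ _)
      _ ≤ T := hT
  have h2 : J.card + (univ.filter fun e => ¬ (S e).card ≤ k).card = Fintype.card I := by
    rw [hJ, ← card_univ]
    exact card_filter_add_card_filter_not (s := (univ : Finset I)) (fun e => (S e).card ≤ k)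
  have h3 : Fintype.card I ≤ 2 * J.card := by
    have h4 : 2 * ((univ.filter fun e => ¬ (S e).card ≤ k).card) ≤ Fintype.card I := by
      have h5 : 2 * ((univ.filter fun e => ¬ (S e).card ≤ k).card) * (k + 1) ≤
          Fintype.card I * (k + 1) := by
        rw [mul_assoc]
        exact (Nat.mul_le_mul_left 2 h1).trans hk
      exact Nat.le_of_mul_le_mul_right h5 (Nat.succ_pos k)
    omega
  have h5 : (Fintype.card I : ℝ) / 2 ≤ J.card := by
    have : (Fintype.card I : ℝ) ≤ 2 * J.card := by exact_mod_cast h3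
    linarith
  have hw : (0:ℝ) < 1 / (w + 1 : ℝ) := by positivity
  have hw1 : 1 / (w + 1 : ℝ) ≤ 1 := by
    rw [div_le_one (by positivity)]
    have : (0:ℝ) ≤ w := Nat.cast_nonneg w
    linarith
  calc (Fintype.card I : ℝ) / 2 * (1 / (w + 1 : ℝ)) ^ k ≤ J.card * (1 / (w + 1 : ℝ)) ^ k :=
        mul_le_mul_of_nonneg_right h5 (by positivity)
    _ = ∑ _e ∈ J, (1 / (w + 1 : ℝ)) ^ k := by rw [Finset.sum_const, nsmul_eq_mul]
    _ ≤ ∑ e ∈ J, (1 / (w + 1 : ℝ)) ^ (S e).card :=
        Finset.sum_le_sum fun e he => pow_le_pow_of_le_one hw.le hw1 (mem_filter.1 he).2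
    _ ≤ _ := Finset.sum_le_sum_of_subset_of_nonneg (filter_subset _ _)
        fun _ _ _ => by positivity

theorem card_colours : (Fintype.card (Fin (w + 1)) : ℝ) = w + 1 := by
  rw [Fintype.card_fin]
  push_cast
  rfl

/-- the lower tail -/
theorem tail_nA (S : I → Finset P) (T k : ℕ) (hT : ∑ e, (S e).card ≤ T)
    (hk : 2 * T ≤ Fintype.card I * (k + 1)) {μ σ E : ℝ}
    (hμ : 2 * μ ≤ (Fintype.card I : ℝ) / 2 * (1 / (w + 1 : ℝ)) ^ k) (hμ0 : 0 ≤ μ) (hσ0 : 0 < σ)
    (hσ : ∑ j, cc S j ^ 2 ≤ σ) (hE : E ≤ μ ^ 2 / (2 * σ)) :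
    ((univ.filter fun ω : P → Fin (w + 1) => nA S ω ≤ μ).card : ℝ) ≤
      (w + 1 : ℝ) ^ Fintype.card P * Real.exp (-E) := by
  classical
  have hm := mean_ge (w := w) S T k hT hk
  have hcard := card_colours (w := w)
  have h := mcd_lower (κ := Fin (w + 1)) (fun ω : P → Fin (w + 1) => nA S ω) (fun j => cc S j)
    (fun ω j v => nA_update S ω j v) σ (2 * μ) μ hσ0 hσ hμ0 (by
      rw [sum_nA, hcard]
      exact mul_le_mul_of_nonneg_right (hμ.trans hm) (by positivity))
  rw [hcard] at h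
  have e1 : 2 * μ - μ = μ := by ring
  rw [e1] at h
  refine h.trans (mul_le_mul_of_nonneg_left ?_ (by positivity))
  rw [Real.exp_le_exp]
  linarith

/-- the upper tail -/
theorem tail_xx (S : I → Finset P) {L : ℕ} {B σ E : ℝ} (hL : 0 < L) (hB : 0 < B)
    (hS : ((∑ i, (S i).card : ℕ) : ℝ) ≤ B) (hσ1 : ∑ j, cc S j ^ 2 ≤ σ) (hσ : σ = L * B)
    (hE : E ≤ B / (2 * (w + 1 : ℝ) ^ 2 * L)) :
    ((univ.filter fun ω : P → Fin (w + 1) => 2 * B / (w + 1 : ℝ) ≤ xx S ω).card : ℝ) ≤
      (w + 1 : ℝ) ^ Fintype.card P * Real.exp (-E) := by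
  have hcard := card_colours (w := w)
  have hL' : (0:ℝ) < L := by exact_mod_cast hL
  have hw : (0:ℝ) < (w + 1 : ℝ) := by positivity
  have hσ0 : 0 < σ := by
    rw [hσ]
    positivity
  have h := mcd_upper (κ := Fin (w + 1)) (fun ω : P → Fin (w + 1) => xx S ω) (fun j => cc S j)
    (fun ω j v => xx_update S ω j v) σ (B / (w + 1 : ℝ)) (B / (w + 1 : ℝ)) hσ0 hσ1
    (by positivity) (by
      rw [sum_xx, hcard, sum_cc]
      exact mul_le_mul_of_nonneg_right (div_le_div_of_nonneg_right hS hw.le) (by positivity))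
  rw [hcard] at h
  have e1 : B / (w + 1 : ℝ) + B / (w + 1) = 2 * B / (w + 1) := by ring
  rw [e1] at h
  refine h.trans (mul_le_mul_of_nonneg_left ?_ (by positivity))
  rw [Real.exp_le_exp, neg_le_neg_iff]
  refine hE.trans (le_of_eq ?_)
  rw [hσ]
  field_simp

end COLS

open Finset COLS
open Pool.Agent.Lib_helper26.TS (fil mem_fil)
open Pool.Agent.Lib_helper26.TB (Cell DS mem_DS fam exists_fam card_cell)

/-- a good colouring -/
theorem cols : COLS_Stmt := by
  intro n w k ρ q e L B P D _ _ _ Acc Sy E hL hq hρ0 hkn hB hseg' hsum' hρ hE hE2 hc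
  classical
  have hw : (0:ℝ) < (w + 1 : ℝ) := by positivity
  set N2 : ℝ := (w + 1 : ℝ) ^ Fintype.card P with hN2
  have hN20 : 0 < N2 := by rw [hN2]; positivity
  have hOc : (Fintype.card (P → Fin (w + 1)) : ℝ) = N2 := by
    rw [Fintype.card_fun, Fintype.card_fin, hN2]
    push_cast
    rfl
  have hB0 : (0:ℝ) < k * (3 * n) := by
    have h1 : (0:ℝ) < ((k * n : ℕ) : ℝ) := by exact_mod_cast hkn
    push_cast at h1
    linarith
  have hL' : (0:ℝ) < L := by exact_mod_cast hL
  -- one input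
  have h1 : ∀ z : Cell n → ZMod 2,
      ((fil fun ω : P → Fin (w + 1) => Acc z ∧ ¬ GoodS Sy ω ρ q e z).card : ℝ) ≤
        N2 * (3 * Real.exp (-E)) := by
    intro z
    by_cases hz : Acc z
    swap
    · have h0 : (fil fun ω : P → Fin (w + 1) => Acc z ∧ ¬ GoodS Sy ω ρ q e z) = ∅ := by
        ext ω
        rw [mem_fil]
        exact ⟨fun h => absurd h.1 hz, fun h => absurd h (notMem_empty ω)⟩
      rw [h0, card_empty, Nat.cast_zero]
      positivity
    set S : Fin 3 → Fin n → Finset P := fun s i => Sy.pc z (s, i) with hS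
    have hsum : ∀ s, ∑ i, (S s i).card ≤ B := by
      intro s
      refine le_trans ?_ (hsum' z hz)
      rw [Fintype.sum_prod_type]
      exact Finset.single_le_sum (f := fun s => ∑ i, (Sy.pc z (s, i)).card)
        (fun _ _ => Nat.zero_le _) (mem_univ s)
    have hsumR : ∀ s, ((∑ i, (S s i).card : ℕ) : ℝ) ≤ k * (3 * n) := by
      intro s
      exact_mod_cast (hsum s).trans hB
    have hseg : ∀ s j, (fil fun i => j ∈ S s i).card ≤ L := by
      intro s j
      refine le_trans ?_ (hseg' z j)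
      refine card_le_card_of_injOn (fun i => (s, i)) ?_ ?_
      · intro i hi
        have h2 := mem_fil.1 (mem_coe.1 hi)
        exact mem_coe.2 (mem_fil.2 h2)
      · intro i _ i' _ h
        exact (Prod.mk.inj h).2
    have hnA : ∀ s (ω : P → Fin (w + 1)), nA (S s) ω = ((DS s (UNs Sy ω z)).card : ℝ) := by
      intro s ω
      unfold nA
      congr 2
      ext i
      rw [mem_fil, mem_DS]
      unfold UNs
      rw [mem_fil, hS]
      simp only
      push Not
      rfl
    have hsq : ∀ s, ∑ j, cc (S s) j ^ 2 ≤ L * (k * (3 * n)) := fun s =>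
      sum_sq (S s) (hseg s) (hsumR s)
    have htail : ∀ s, ((univ.filter fun ω : P → Fin (w + 1) => nA (S s) ω ≤ 4 * ρ).card : ℝ) ≤
        N2 * Real.exp (-E) := by
      intro s
      refine tail_nA (S s) B (6 * k) (hsum s) ?_ ?_ (by positivity) (mul_pos hL' hB0) (hsq s) hE
      · rw [Fintype.card_fin]
        nlinarith
      · rw [Fintype.card_fin, one_div, inv_pow]
        have h3 : (0:ℝ) < (w + 1 : ℝ) ^ (6 * k) := by positivity
        rw [div_mul_eq_mul_div, le_div_iff₀ (by norm_num : (0:ℝ) < 2), ← div_eq_mul_inv,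
          le_div_iff₀ h3]
        linarith
    have hx0 := tail_xx (w := w) (S 2) hL hB0 (hsumR 2) (hsq 2) rfl hE2
    have hsub : (fil fun ω : P → Fin (w + 1) => Acc z ∧ ¬ GoodS Sy ω ρ q e z) ⊆
        ((univ.filter fun ω : P → Fin (w + 1) => nA (S 0) ω ≤ 4 * ρ) ∪
        (univ.filter fun ω : P → Fin (w + 1) => nA (S 1) ω ≤ 4 * ρ)) ∪
        (univ.filter fun ω : P → Fin (w + 1) =>
          2 * ((k : ℝ) * (3 * n)) / (w + 1 : ℝ) ≤ xx (S 2) ω) := by
      intro ω hω
      rw [mem_fil] at hω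
      rw [mem_union, mem_union, mem_filter, mem_filter, mem_filter]
      by_contra hcon
      push Not at hcon
      obtain ⟨⟨a1, a2⟩, a3⟩ := hcon
      have b1 := a1 (mem_univ _)
      have b2 := a2 (mem_univ _)
      have b3 := a3 (mem_univ _)
      apply hω.2
      rw [hnA] at b1 b2
      refine ⟨⟨by exact_mod_cast b1.le, by exact_mod_cast b2.le⟩, exists_fam hq ?_⟩
      have h4 : ((univ \ DS 2 (UFs Sy ω z)).card : ℝ) ≤ xx (S 2) ω := by
        have h5 : (univ \ DS 2 (UFs Sy ω z)) ⊆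
            (univ.filter fun j => ω j = 0).biUnion fun j => fil fun i => j ∈ S 2 i := by
          intro i hi
          have h6 := (mem_sdiff.1 hi).2
          rw [mem_DS, not_not] at h6
          unfold UFs at h6
          rw [mem_fil] at h6
          obtain ⟨j, hj, hj0⟩ := h6
          exact mem_biUnion.2 ⟨j, mem_filter.2 ⟨mem_univ j, hj0⟩, mem_fil.2 hj⟩
        have h6 := (card_le_card h5).trans card_biUnion_le
        have h7 : ((univ \ DS 2 (UFs Sy ω z)).card : ℝ) ≤
            ((∑ j ∈ univ.filter (fun j => ω j = 0), (fil fun i => j ∈ S 2 i).card : ℕ) : ℝ) := by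
          exact_mod_cast h6
        refine h7.trans (le_of_eq ?_)
        unfold xx cc
        rw [← Finset.sum_filter]
        push_cast
        rfl
      have h5 : ((univ \ DS 2 (UFs Sy ω z)).card : ℝ) < ((n / q) * (e + 1) : ℕ) :=
        lt_of_lt_of_le (lt_of_le_of_lt h4 b3) hc
      exact_mod_cast h5
    have hcard := (card_le_card hsub).trans ((card_union_le _ _).trans
      (Nat.add_le_add_right (card_union_le _ _) _))
    have hcard' : ((fil fun ω : P → Fin (w + 1) => Acc z ∧ ¬ GoodS Sy ω ρ q e z).card : ℝ) ≤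
        ((univ.filter fun ω : P → Fin (w + 1) => nA (S 0) ω ≤ 4 * ρ).card : ℝ) +
        ((univ.filter fun ω : P → Fin (w + 1) => nA (S 1) ω ≤ 4 * ρ).card : ℝ) +
        ((univ.filter fun ω : P → Fin (w + 1) =>
          2 * ((k : ℝ) * (3 * n)) / (w + 1 : ℝ) ≤ xx (S 2) ω).card : ℝ) := by
      exact_mod_cast hcard
    have := htail 0
    have := htail 1
    linarith
  -- the average
  by_contra hcon
  push Not at hcon
  have h2 : ∑ ω : P → Fin (w + 1), ((fil fun z => Acc z ∧ ¬ GoodS Sy ω ρ q e z).card : ℝ) =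
      ∑ z : Cell n → ZMod 2,
        ((fil fun ω : P → Fin (w + 1) => Acc z ∧ ¬ GoodS Sy ω ρ q e z).card : ℝ) := by
    rw [Finset.sum_congr rfl fun (ω : P → Fin (w + 1)) _ =>
        card_fil_sum (fun z => Acc z ∧ ¬ GoodS Sy ω ρ q e z),
      Finset.sum_congr rfl fun (z : Cell n → ZMod 2) _ =>
        card_fil_sum (fun ω : P → Fin (w + 1) => Acc z ∧ ¬ GoodS Sy ω ρ q e z), Finset.sum_comm]
  have h3 : ∑ z : Cell n → ZMod 2,
        ((fil fun ω : P → Fin (w + 1) => Acc z ∧ ¬ GoodS Sy ω ρ q e z).card : ℝ) ≤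
      2 ^ (3 * n) * (N2 * (3 * Real.exp (-E))) := by
    refine (Finset.sum_le_sum fun z _ => h1 z).trans (le_of_eq ?_)
    rw [Finset.sum_const, nsmul_eq_mul, card_univ, Pool.Agent.Lib_helper26.TB.card_pi,
      card_cell]
  have h4 : ∑ _ω : P → Fin (w + 1), (2:ℝ) ^ (3 * n) * (3 * Real.exp (-E)) <
      ∑ ω : P → Fin (w + 1), ((fil fun z => Acc z ∧ ¬ GoodS Sy ω ρ q e z).card : ℝ) :=
    Finset.sum_lt_sum_of_nonempty ⟨fun _ => 0, mem_univ _⟩ fun ω _ => hcon ω
  rw [Finset.sum_const, card_univ, nsmul_eq_mul, hOc, h2] at h4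
  linarith [h3, h4, mul_left_comm N2 ((2:ℝ) ^ (3 * n)) (3 * Real.exp (-E))]

end Pool.Agent.UM
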