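import Pool.Agent.UM.Stmts
import Pool.Agent.Lib_helper26.TB.Runs
import Pool.Agent.Lib_helper26.TB.Corr

/-!
# The correlation of a system of pieces, for a colouring (module CORS)
-/

set_option autoImplicit false
set_option linter.unusedSectionVars false

namespace Pool.Agent.UM.CORS

open Finset
open Pool.Agent.UM
open Pool.Agent.Lib_helper26.TS (fil mem_fil fil_congr)
open Pool.Agent.Lib_helper26.TB (Cell cub sg side Closed PP fam DS mem_DS pr pr_disj pick pick_sub
  pick_mem trunc trunc_card mem_side abs_sg fam_mem_card)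

variable {n w : ℕ} {P D : Type} {Acc : (Cell n → ZMod 2) → Prop}

/-- the two colours -/
def o2 (ω : P → Fin (w + 1)) (j : P) : Bool := decide (ω j = 0)

theorem o2_true {ω : P → Fin (w + 1)} {j : P} : o2 ω j = true ↔ ω j = 0 := by
  rw [o2, decide_eq_true_iff]

theorem o2_false {ω : P → Fin (w + 1)} {j : P} : o2 ω j = false ↔ ω j ≠ 0 := by
  rw [o2, decide_eq_false_iff_not]

/-- the class -/
def Cls (S : Sys (Cell n) (ZMod 2) P D Acc) (ω : P → Fin (w + 1)) (ρ q e : ℕ)
    (d : D) (Q : Finset (Fin n)) (p : Finset (Fin n) × Finset (Fin n))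
    (x : Cell n → ZMod 2) : Prop :=
  (GoodS S ω ρ q e x ∧ S.data (o2 ω) x = d ∧
    pr ρ (UNs S ω x) = p ∧ pick q e (DS 2 (UFs S ω x)) = Q) ∧ Acc x

/-- the classes are closed under mixing -/
theorem cls_closed (S : Sys (Cell n) (ZMod 2) P D Acc) (ω : P → Fin (w + 1)) (ρ q e : ℕ)
    (d : D) (Q : Finset (Fin n)) (p : Finset (Fin n) × Finset (Fin n)) :
    Closed (PP p) (side 2 Q) (Cls S ω ρ q e d Q p) := by
  rintro x y ⟨⟨gx, hx1, hx2, hx3⟩, hx4⟩ ⟨⟨gy, hy1, hy2, hy3⟩, hy4⟩ hxy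
  set z : Cell n → ZMod 2 := fun i => if i ∈ PP p then x i else y i with hz
  have hz1 : ∀ a, (∃ j ∈ S.pc x a, o2 ω j = true) → z a = x a := by
    rintro a ⟨j, hj, hω⟩
    rw [hz]
    simp only
    by_cases hP : a ∈ PP p
    · rw [if_pos hP]
    · rw [if_neg hP]
      refine (hxy a hP ?_).symm
      obtain ⟨s, l⟩ := a
      intro hQ
      obtain ⟨rfl, hl⟩ := mem_side.1 hQ
      rw [← hx3] at hl
      have := mem_DS.1 (pick_sub gx.2 hl)
      exact this (mem_fil.2 ⟨j, hj, o2_true.1 hω⟩)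
  have hz2 : ∀ a, (∃ j ∈ S.pc y a, o2 ω j = false) → z a = y a := by
    rintro a ⟨j, hj, hω⟩
    rw [hz]
    simp only
    rw [if_neg]
    intro hP
    rw [← hy2] at hP
    exact pr_disj gy.1 hP (mem_fil.2 ⟨j, hj, o2_false.1 hω⟩)
  obtain ⟨hd, hsg⟩ := S.mix (o2 ω) x y z (by rw [hx1, hy1]) hz1 hz2
  have hUN : UNs S ω z = UNs S ω y := by
    unfold UNs
    refine fil_congr fun a => exists_congr fun j => ?_
    rw [hsg a j]
    by_cases hj : ω j = 0
    · simp [hj]
    · rw [if_neg (fun h => hj (o2_true.1 h))]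
  have hUF : UFs S ω z = UFs S ω x := by
    unfold UFs
    refine fil_congr fun a => exists_congr fun j => ?_
    rw [hsg a j]
    by_cases hj : ω j = 0
    · rw [if_pos (o2_true.2 hj)]
    · simp [hj]
  refine ⟨⟨⟨?_, ?_⟩, ?_, ?_, ?_⟩, ?_⟩
  · rw [hUN]
    exact gy.1
  · rw [hUF]
    exact gx.2
  · rw [hd, hx1]
  · rw [hUN]
    exact hy2
  · rw [hUF]
    exact hx3
  · exact (S.acc (o2 ω) z x hd).2 hx4

/-- the subcubes are disjoint -/
theorem cls_disj (S : Sys (Cell n) (ZMod 2) P D Acc) (ω : P → Fin (w + 1)) (ρ q e : ℕ)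
    (d : D) (Q : Finset (Fin n)) (p p' : Finset (Fin n) × Finset (Fin n))
    (z z' v : Cell n → ZMod 2)
    (hz : Cls S ω ρ q e d Q p z) (hz' : Cls S ω ρ q e d Q p' z')
    (h : ∀ i, i ∉ PP p → z i = v i) (h' : ∀ i, i ∉ PP p' → z' i = v i) : p = p' := by
  obtain ⟨⟨g1, a1, a2, a3⟩, -⟩ := hz
  obtain ⟨⟨g2, b1, b2, b3⟩, -⟩ := hz'
  have hr := S.recov (o2 ω) z z' (by rw [a1, b1]) (by
    intro a ha hb
    have h1 : a ∉ PP p := by
      intro hP
      rw [← a2] at hP
      obtain ⟨j, hj, hω⟩ := ha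
      exact pr_disj g1.1 hP (mem_fil.2 ⟨j, hj, o2_false.1 hω⟩)
    have h2 : a ∉ PP p' := by
      intro hP
      rw [← b2] at hP
      obtain ⟨j, hj, hω⟩ := hb
      exact pr_disj g2.1 hP (mem_fil.2 ⟨j, hj, o2_false.1 hω⟩)
    rw [h a h1, h' a h2])
  have hUN : UNs S ω z = UNs S ω z' := by
    unfold UNs
    refine fil_congr fun a => exists_congr fun j => ?_
    constructor
    · rintro ⟨h1, h2⟩
      exact ⟨(hr a j (o2_false.2 h2)).1 h1, h2⟩
    · rintro ⟨h1, h2⟩
      exact ⟨(hr a j (o2_false.2 h2)).2 h1, h2⟩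
  rw [← a2, ← b2, hUN]

end Pool.Agent.UM.CORS

namespace Pool.Agent.UM

open Finset
open Pool.Agent.Lib_helper26.TS (fil mem_fil fil_congr)
open Pool.Agent.Lib_helper26.TB (Cell cub sg side Closed PP fam DS mem_DS pr pr_disj pick pick_sub
  pick_mem trunc trunc_card mem_side abs_sg fam_mem_card)

theorem cors (h : FAMM_Stmt) : CORS_Stmt := by
  classical
  intro n w ρ q e m M P D _ _ _ Acc S ω E hM hm hm0 hme hE0 hE
  set F : Finset (Finset (Fin n) × Finset (Fin n)) :=
    (univ : Finset (Fin n)).powersetCard (4 * ρ) ×ˢ (univ : Finset (Fin n)).powersetCard (4 * ρ)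
    with hF
  have hFm : ∀ p ∈ F, p.1.card = 4 * ρ ∧ p.2.card = 4 * ρ := by
    intro p hp
    rw [hF, mem_product, mem_powersetCard, mem_powersetCard] at hp
    exact ⟨hp.1.2, hp.2.2⟩
  have hFc : (F.card : ℝ) = (n.choose (4 * ρ) : ℝ) ^ 2 := by
    rw [hF, card_product, card_powersetCard, card_univ, Fintype.card_fin]
    push_cast
    ring
  set A1 := fil fun z => Acc z ∧ GoodS S ω ρ q e z with hA1
  set A2 := fil fun z => Acc z ∧ ¬ GoodS S ω ρ q e z with hA2
  have hsplit : ∑ z ∈ fil Acc, sg (cub M z) =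
      ∑ z ∈ A1, sg (cub M z) + ∑ z ∈ A2, sg (cub M z) := by
    rw [← Finset.sum_union]
    · refine Finset.sum_congr ?_ fun _ _ => rfl
      ext z
      rw [mem_union, hA1, hA2, mem_fil, mem_fil, mem_fil]
      tauto
    · rw [Finset.disjoint_left]
      intro z h1 h2
      rw [hA1, mem_fil] at h1
      rw [hA2, mem_fil] at h2
      exact h2.2 h1.2
  rw [hsplit]
  refine (abs_add_le _ _).trans ?_
  rw [add_comm]
  refine add_le_add ?_ ?_
  · refine (Finset.abs_sum_le_sum_abs _ _).trans ?_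
    rw [Finset.sum_congr rfl fun z _ => abs_sg _, Finset.sum_const, nsmul_eq_mul, mul_one]
  · set key : (Cell n → ZMod 2) → D × Finset (Fin n) ×
        (Finset (Fin n) × Finset (Fin n)) := fun x =>
      (S.data (CORS.o2 ω) x, pick q e (DS 2 (UFs S ω x)), pr ρ (UNs S ω x)) with hkey
    set t : Finset (D × Finset (Fin n) × (Finset (Fin n) × Finset (Fin n))) :=
      univ ×ˢ (fam n q e ×ˢ F) with ht
    have hmaps : ∀ z ∈ A1, key z ∈ t := by
      intro z hz
      rw [hA1, mem_fil] at hz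
      obtain ⟨-, ⟨g1, g2⟩, g3⟩ := hz
      rw [ht, mem_product, mem_product, hF, mem_product, mem_powersetCard, mem_powersetCard]
      exact ⟨mem_univ _, pick_mem g3, ⟨subset_univ _, trunc_card g1⟩,
        ⟨subset_univ _, trunc_card g2⟩⟩
    rw [← Finset.sum_fiberwise_of_maps_to hmaps]
    have hfil : ∀ κ : D × Finset (Fin n) × (Finset (Fin n) × Finset (Fin n)),
        (A1.filter fun z => key z = κ) = fil (CORS.Cls S ω ρ q e κ.1 κ.2.1 κ.2.2) := by
      intro κ
      ext z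
      rw [mem_filter, hA1, mem_fil, mem_fil, hkey]
      simp only [CORS.Cls, Prod.ext_iff]
      tauto
    refine (Finset.abs_sum_le_sum_abs _ _).trans ?_
    simp only [hfil]
    rw [ht, Finset.sum_product]
    have hone : ∀ (b : D), ∑ y ∈ fam n q e ×ˢ F,
        |∑ z ∈ fil (CORS.Cls S ω ρ q e b y.1 y.2), sg (cub M z)| ≤
        (fam n q e).card * (2 ^ (3 * n) * E) := by
      intro b
      rw [Finset.sum_product]
      calc _ ≤ ∑ _Q ∈ fam n q e, 2 ^ (3 * n) * E := by
            refine Finset.sum_le_sum fun Q hQ => ?_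
            have hQc := fam_mem_card hQ
            refine h n ρ m M Q F (CORS.Cls S ω ρ q e b Q) E hM (by rw [hQc]; exact hm) hm0 hme hFm
              (fun p _ => CORS.cls_closed S ω ρ q e b Q p)
              (fun p _ p' _ z z' v hz hz' h1 h2 =>
                CORS.cls_disj S ω ρ q e b Q p p' z z' v hz hz' h1 h2) hE0 ?_
            rw [hFc, hQc]
            exact hE
        _ = _ := by rw [Finset.sum_const, nsmul_eq_mul]
    refine (Finset.sum_le_sum fun b _ => hone b).trans (le_of_eq ?_)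
    rw [Finset.sum_const, card_univ, nsmul_eq_mul]

end Pool.Agent.UM
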