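import Pool.Agent.UM.Stmts

/-!
# FAMM: the family bound for a rich tensor
-/

set_option autoImplicit false
set_option linter.unusedSectionVars false

namespace Pool.Agent.UM

namespace FAMM

open Finset
open Pool.Agent.Lib_helper26.TS (fil mem_fil fil_congr card_fixed)
open Pool.Agent.Lib_helper26.TB

variable {n : ℕ}

/-- the bias of a slice -/
theorem bias {M : Fin n → Fin n → Fin n → ZMod 2} {ρ : ℕ} (hM : RichAt ρ M)
    {v : Fin n → ZMod 2} (hv : v ≠ 0)
    {A B : Finset (Fin n)} (hA : A.card = 4 * ρ) (hB : B.card = 4 * ρ)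
    (z : Cell n → ZMod 2) :
    |∑ c, sg (∑ l, v l * coef M l (mix (side 0 A ∪ side 1 B) c z))| * 2 ^ ρ ≤ 2 ^ (3 * n) := by
  classical
  set P := side 0 A ∪ side 1 B with hP
  have hm0 : ∀ i, ((0 : Fin 3), i) ∈ P ↔ i ∈ A := by
    intro i
    rw [hP, mem_union, mem_side, mem_side]
    simp
  have hm1 : ∀ i, ((1 : Fin 3), i) ∈ P ↔ i ∈ B := by
    intro i
    rw [hP, mem_union, mem_side, mem_side]
    simp
  set Nn : Fin n → Fin n → ZMod 2 := fun i j => ∑ l, v l * M i j l with hN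
  set H : Fin n → (Cell n → ZMod 2) → ZMod 2 := fun j c =>
    ∑ i, Nn i j * (if i ∈ A then c (0, i) else z (0, i)) with hH
  set φ : (Cell n → ZMod 2) → ZMod 2 := fun w => ∑ l, v l * coef M l w with hφ
  have hφ' : ∀ w, φ w = ∑ j, w (1, j) * ∑ i, Nn i j * w (0, i) := by
    intro w
    rw [hφ]
    simp only [coef, hN]
    calc ∑ l, v l * ∑ i, ∑ j, M i j l * w (0, i) * w (1, j) =
          ∑ l, ∑ i, ∑ j, v l * M i j l * w (0, i) * w (1, j) := by
          refine Finset.sum_congr rfl fun l _ => ?_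
          rw [Finset.mul_sum]
          refine Finset.sum_congr rfl fun i _ => ?_
          rw [Finset.mul_sum]
          exact Finset.sum_congr rfl fun j _ => by ring
      _ = ∑ i, ∑ l, ∑ j, v l * M i j l * w (0, i) * w (1, j) := Finset.sum_comm
      _ = ∑ i, ∑ j, ∑ l, v l * M i j l * w (0, i) * w (1, j) :=
          Finset.sum_congr rfl fun i _ => Finset.sum_comm
      _ = ∑ j, ∑ i, ∑ l, v l * M i j l * w (0, i) * w (1, j) := Finset.sum_comm
      _ = _ := by
          refine Finset.sum_congr rfl fun j _ => ?_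
          rw [Finset.mul_sum]
          refine Finset.sum_congr rfl fun i _ => ?_
          rw [Finset.sum_mul, Finset.mul_sum]
          exact Finset.sum_congr rfl fun l _ => by ring
  -- average over the second word
  have h1 : ∑ c, sg (φ (mix P c z)) * 2 ^ (3 * n) =
      ∑ c, ∑ d, sg (φ (mix P (mix (side 1 B) d c) z)) := by
    have := sum_mix (side 1 B) (fun c => sg (φ (mix P c z)))
    rw [card_cell] at this
    rw [← Finset.sum_mul, mul_comm]
    exact this.symm
  have h2 : ∀ c d, φ (mix P (mix (side 1 B) d c) z) =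
      (∑ j ∈ univ \ B, z (1, j) * H j c) + ∑ e ∈ side 1 B, d e * H e.2 c := by
    intro c d
    rw [hφ', sum_side, ← Finset.sum_sdiff (subset_univ B)]
    have e0 : ∀ j, ∑ i, Nn i j * mix P (mix (side 1 B) d c) z (0, i) = H j c := by
      intro j
      rw [hH]
      simp only
      refine Finset.sum_congr rfl fun i _ => ?_
      congr 1
      by_cases hi : i ∈ A
      · rw [mix_pos ((hm0 i).2 hi), if_pos hi, mix_neg]
        intro h
        simpa using (mem_side.1 h).1
      · rw [mix_neg (fun h => hi ((hm0 i).1 h)), if_neg hi]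
    congr 1
    · refine Finset.sum_congr rfl fun j hj => ?_
      rw [e0, mix_neg]
      intro h
      exact (mem_sdiff.1 hj).2 ((hm1 j).1 h)
    · refine Finset.sum_congr rfl fun j hj => ?_
      rw [e0, mix_pos ((hm1 j).2 hj), mix_pos (mem_side.2 ⟨rfl, hj⟩)]
  have h3 : ∀ c, |∑ d, sg (φ (mix P (mix (side 1 B) d c) z))| ≤
      if ∀ j ∈ B, H j c = 0 then (2:ℝ) ^ (3 * n) else 0 := by
    intro c
    have e1 : ∑ d, sg (φ (mix P (mix (side 1 B) d c) z)) =
        sg (∑ j ∈ univ \ B, z (1, j) * H j c) *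
        ∑ d : Cell n → ZMod 2, sg (∑ e ∈ side 1 B, d e * H e.2 c) := by
      rw [Finset.mul_sum]
      exact Finset.sum_congr rfl fun d _ => by rw [h2, sg_add]
    rw [e1, abs_mul, abs_sg, one_mul, sum_vec (side 1 B) (fun e => H e.2 c), card_cell]
    have e2 : (∀ e ∈ side 1 B, H e.2 c = 0) ↔ ∀ j ∈ B, H j c = 0 := by
      constructor
      · intro h j hj
        exact h (1, j) (mem_side.2 ⟨rfl, hj⟩)
      · rintro h ⟨s, j⟩ he
        exact h j (mem_side.1 he).2
    simp only [e2]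
    split_ifs
    · rw [abs_of_nonneg (by positivity)]
    · rw [abs_zero]
  -- the number of solutions
  set D := univ.filter fun c : Cell n → ZMod 2 => ∀ j ∈ B, H j c = 0 with hD
  have h4 : |∑ c, sg (φ (mix P c z))| ≤ D.card := by
    have h5 : |∑ c, sg (φ (mix P c z))| * 2 ^ (3 * n) ≤ D.card * 2 ^ (3 * n) := by
      rw [← abs_of_nonneg (by positivity : (0:ℝ) ≤ 2 ^ (3 * n)), ← abs_mul, Finset.sum_mul, h1,
        abs_of_nonneg (by positivity : (0:ℝ) ≤ 2 ^ (3 * n))]
      refine (Finset.abs_sum_le_sum_abs _ _).trans ((Finset.sum_le_sum fun c _ => h3 c).trans ?_)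
      rw [← Finset.sum_filter, Finset.sum_const, nsmul_eq_mul]
    exact le_of_mul_le_mul_right h5 (by positivity)
  have h6 : D.card * 2 ^ n ≤ (kerN M v A B).card * 2 ^ (3 * n) := by
    have h7 := fiber_card (word0 n) word0_surj (fun x : Fin n → ZMod 2 =>
      ∀ j ∈ B, ∑ i, Nn i j * (if i ∈ A then x i else z (0, i)) = 0)
    rw [Fintype.card_fun, Fintype.card_fun, ZMod.card, Fintype.card_fin, card_cell] at h7
    calc D.card * 2 ^ n = _ := h7
      _ ≤ _ := Nat.mul_le_mul_right _ (affine_le M v A B (fun i => z (0, i)))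
  have h8 : D.card * 2 ^ ρ ≤ 2 ^ (3 * n) := by
    have h9 := hM v A B hv hA hB
    have h10 : 0 < 2 ^ n := by positivity
    refine Nat.le_of_mul_le_mul_right ?_ h10
    calc D.card * 2 ^ ρ * 2 ^ n = (D.card * 2 ^ n) * 2 ^ ρ := by ring
      _ ≤ ((kerN M v A B).card * 2 ^ (3 * n)) * 2 ^ ρ := Nat.mul_le_mul_right _ h6
      _ = ((kerN M v A B).card * 2 ^ ρ) * 2 ^ (3 * n) := by ring
      _ ≤ 2 ^ n * 2 ^ (3 * n) := Nat.mul_le_mul_right _ h9
      _ = _ := Nat.mul_comm _ _
  calc |∑ c, sg (φ (mix P c z))| * 2 ^ ρ ≤ D.card * 2 ^ ρ :=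
        mul_le_mul_of_nonneg_right h4 (by positivity)
    _ ≤ 2 ^ (3 * n) := by exact_mod_cast h8

/-- the moment bound for the cubic form -/
theorem cub_moment {M : Fin n → Fin n → Fin n → ZMod 2} {ρ : ℕ} (hM : RichAt ρ M)
    {A B Q : Finset (Fin n)} (hA : A.card = 4 * ρ) (hB : B.card = 4 * ρ)
    {X : (Cell n → ZMod 2) → ℝ} (hX : ∀ z y, X (mix (side 2 Q) y z) = X z)
    (hX1 : ∀ z, |X z| ≤ 1) {m : ℕ} (hm : Q.card ≤ ρ * m) :
    (∑ z, (∑ c, X (mix (side 0 A ∪ side 1 B) c z) *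
      sg (cub M (mix (side 0 A ∪ side 1 B) c z))) ^ m) * 2 ^ Q.card ≤
      2 * (2 ^ (3 * n) * 2 ^ (3 * n * m)) := by
  classical
  set P := side 0 A ∪ side 1 B with hP
  have hPQ : Disjoint P (side 2 Q) := by
    rw [Finset.disjoint_left]
    rintro ⟨s, i⟩ h h'
    rw [hP, mem_union, mem_side, mem_side] at h
    have h2 := (mem_side.1 h').1
    subst h2
    simp at h
  have h1 := moment hPQ hX hX1 (f := cub M)
    (g0 := fun z => ∑ l ∈ univ \ Q, z (2, l) * coef M l z) (g := fun e z => coef M e.2 z)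
    (fun z y => cub_mix M Q z y) m
  rw [card_cell] at h1
  -- the inner sums
  have h2 : ∀ (z y : Cell n → ZMod 2),
      (∑ c, sg (∑ e ∈ side 2 Q, y e * coef M e.2 (mix P c z))) ^ m ≤
      (if ∀ e ∈ side 2 Q, y e = 0 then (2:ℝ) ^ (3 * n * m) else 0) +
        2 ^ (3 * n * m) / 2 ^ (ρ * m) := by
    intro z y
    by_cases hy : ∀ e ∈ side 2 Q, y e = 0
    · rw [if_pos hy]
      have e1 : ∀ c, sg (∑ e ∈ side 2 Q, y e * coef M e.2 (mix P c z)) = 1 := by
        intro c
        rw [Finset.sum_eq_zero, sg_zero]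
        intro e he
        rw [hy e he, zero_mul]
      rw [Finset.sum_congr rfl fun c _ => e1 c, Finset.sum_const, card_univ, nsmul_eq_mul, mul_one,
        Pool.Agent.Lib_helper26.TB.card_pi, card_cell, ← pow_mul]
      have : (0:ℝ) ≤ 2 ^ (3 * n * m) / 2 ^ (ρ * m) := by positivity
      linarith
    · rw [if_neg hy, zero_add]
      set v : Fin n → ZMod 2 := fun l => if l ∈ Q then y (2, l) else 0 with hv
      have hv0 : v ≠ 0 := by
        push Not at hy
        obtain ⟨⟨s, l⟩, he, hne⟩ := hy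
        intro h
        apply hne
        obtain ⟨hs, hl⟩ := mem_side.1 he
        subst hs
        have := congrFun h l
        rw [hv] at this
        simp only [if_pos hl] at this
        exact this
      have e1 : ∀ c, ∑ e ∈ side 2 Q, y e * coef M e.2 (mix P c z) =
          ∑ l, v l * coef M l (mix P c z) := by
        intro c
        rw [sum_side (fun e => y e * coef M e.2 (mix P c z)), ← Finset.sum_subset (subset_univ Q)]
        · refine Finset.sum_congr rfl fun l hl => ?_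
          rw [hv]
          simp only [if_pos hl]
        · intro l _ hl
          rw [hv]
          simp only [if_neg hl, zero_mul]
      have e2 := bias hM hv0 hA hB z
      rw [← hP] at e2
      rw [Finset.sum_congr rfl fun c _ => by rw [e1 c]]
      rw [pow_mul (2:ℝ) (3 * n) m, pow_mul (2:ℝ) ρ m, ← div_pow]
      refine (le_abs_self _).trans ?_
      rw [abs_pow]
      refine pow_le_pow_left₀ (abs_nonneg _) ?_ m
      rw [le_div_iff₀ (by positivity)]
      exact e2
  have h3 : ∀ z : Cell n → ZMod 2, ∑ y : Cell n → ZMod 2,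
      (∑ c, sg (∑ e ∈ side 2 Q, y e * coef M e.2 (mix P c z))) ^ m ≤
      2 ^ (3 * n * m) * (2 * (2 ^ (3 * n) / 2 ^ Q.card)) := by
    intro z
    refine (Finset.sum_le_sum fun y _ => h2 z y).trans ?_
    rw [Finset.sum_add_distrib, ← Finset.sum_filter, Finset.sum_const, Finset.sum_const,
      nsmul_eq_mul, nsmul_eq_mul, card_univ, Pool.Agent.Lib_helper26.TB.card_pi, card_cell]
    have e1 : ((univ.filter fun y : Cell n → ZMod 2 => ∀ e ∈ side 2 Q, y e = 0).card : ℝ) =
        2 ^ (3 * n) / 2 ^ Q.card := by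
      rw [eq_div_iff (by positivity)]
      have h4 := card_fixed (side 2 Q) (fun _ : Cell n => (0 : ZMod 2))
      rw [card_cell, ZMod.card, side, card_map] at h4
      have h5 : (fil fun ω : Cell n → ZMod 2 => ∀ i ∈ side 2 Q, ω i = 0) =
          univ.filter fun y : Cell n → ZMod 2 => ∀ e ∈ side 2 Q, y e = 0 := by
        ext ω
        rw [mem_fil, mem_filter]
        exact ⟨fun h => ⟨mem_univ _, h⟩, fun h => h.2⟩
      rw [← h5]
      exact_mod_cast h4
    rw [e1]
    have e2 : (2:ℝ) ^ (3 * n * m) / 2 ^ (ρ * m) ≤ 2 ^ (3 * n * m) / 2 ^ Q.card := by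
      apply div_le_div_of_nonneg_left (by positivity) (by positivity)
      exact pow_le_pow_right₀ (by norm_num) hm
    calc (2:ℝ) ^ (3 * n) / 2 ^ Q.card * 2 ^ (3 * n * m) +
          2 ^ (3 * n) * (2 ^ (3 * n * m) / 2 ^ (ρ * m)) ≤
          2 ^ (3 * n) / 2 ^ Q.card * 2 ^ (3 * n * m) +
          2 ^ (3 * n) * (2 ^ (3 * n * m) / 2 ^ Q.card) := by gcongr
      _ = _ := by ring
  have h4 := h1.trans (Finset.sum_le_sum fun z _ => h3 z)
  rw [Finset.sum_const, nsmul_eq_mul, card_univ, Pool.Agent.Lib_helper26.TB.card_pi, card_cell] at h4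
  have h5 : (0:ℝ) < 2 ^ (3 * n) := by positivity
  have h6 := le_of_mul_le_mul_left h4 h5
  calc _ ≤ (2 ^ (3 * n * m) * (2 * (2 ^ (3 * n) / 2 ^ Q.card))) * 2 ^ Q.card :=
        mul_le_mul_of_nonneg_right h6 (by positivity)
    _ = _ := by
        field_simp

/-- the family bound -/
theorem family {M : Fin n → Fin n → Fin n → ZMod 2} {ρ m : ℕ} (hM : RichAt ρ M)
    {Q : Finset (Fin n)} (hm : Q.card ≤ ρ * m) (hm0 : 0 < m) (hme : Even m)
    (F : Finset (Finset (Fin n) × Finset (Fin n)))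
    (hF : ∀ p ∈ F, p.1.card = 4 * ρ ∧ p.2.card = 4 * ρ)
    (Z : Finset (Fin n) × Finset (Fin n) → (Cell n → ZMod 2) → Prop)
    (hZ : ∀ p ∈ F, Closed (PP p) (side 2 Q) (Z p))
    (hdis : ∀ p ∈ F, ∀ p' ∈ F, ∀ z z' w : Cell n → ZMod 2, Z p z → Z p' z' → (∀ i, i ∉ PP p → z i = w i) →
      (∀ i, i ∉ PP p' → z' i = w i) → p = p')
    {E : ℝ} (hE0 : 0 ≤ E) (hE : 2 * (F.card : ℝ) / 2 ^ Q.card ≤ E ^ m) :
    ∑ p ∈ F, |∑ z ∈ fil (Z p), sg (cub M z)| ≤ 2 ^ (3 * n) * E := by
  classical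
  set X : Finset (Fin n) × Finset (Fin n) → (Cell n → ZMod 2) → ℝ := fun p z =>
    if ∃ z', Z p z' ∧ ∀ i, i ∉ side 2 Q → z' i = z i then 1 else 0 with hX
  set Y : Finset (Fin n) × Finset (Fin n) → (Cell n → ZMod 2) → Prop := fun p z =>
    ∃ z', Z p z' ∧ ∀ i, i ∉ PP p → z' i = z i with hY
  set J : Finset (Fin n) × Finset (Fin n) → (Cell n → ZMod 2) → ℝ := fun p z =>
    ∑ c, X p (mix (PP p) c z) * sg (cub M (mix (PP p) c z)) with hJ
  have hXmix : ∀ p z y, X p (mix (side 2 Q) y z) = X p z := by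
    intro p z y
    rw [hX]
    simp only
    congr 1
    refine propext (exists_congr fun z' => and_congr Iff.rfl (forall₂_congr fun i hi => ?_))
    rw [mix_neg hi]
  have hX1 : ∀ p z, |X p z| ≤ 1 := by
    intro p z
    rw [hX]
    simp only
    split_ifs <;> simp
  have hYmix : ∀ p z c, Y p (mix (PP p) c z) ↔ Y p z := by
    intro p z c
    rw [hY]
    refine exists_congr fun z' => and_congr Iff.rfl (forall₂_congr fun i hi => ?_)
    rw [mix_neg hi]
  have hZXY : ∀ p ∈ F, ∀ z, Z p z ↔ (∃ z', Z p z' ∧ ∀ i, i ∉ side 2 Q → z' i = z i) ∧ Y p z := by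
    intro p hp z
    constructor
    · exact fun h => ⟨⟨z, h, fun _ _ => rfl⟩, ⟨z, h, fun _ _ => rfl⟩⟩
    · rintro ⟨⟨x, hx, hxz⟩, ⟨y, hy, hyz⟩⟩
      have h1 := hZ p hp x y hx hy fun i hi hi' => (hxz i hi').trans (hyz i hi).symm
      have h3 : (fun i => if i ∈ PP p then x i else y i) = z := by
        funext i
        by_cases hi : i ∈ PP p
        · rw [if_pos hi, hxz i (Finset.disjoint_left.1 (PP_disj p Q) hi)]
        · rw [if_neg hi, hyz i hi]
      rwa [h3] at h1
  -- one class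
  have h1 : ∀ p ∈ F, 2 ^ (3 * n) * ∑ z ∈ fil (Z p), sg (cub M z) =
      ∑ z ∈ univ.filter (Y p), J p z := by
    intro p hp
    have e1 : ∑ z ∈ fil (Z p), sg (cub M z) =
        ∑ z, X p z * ((if Y p z then 1 else 0) * sg (cub M z)) := by
      have h6 : fil (Z p) = univ.filter (Z p) := by
        ext z
        rw [mem_fil, mem_filter]
        exact ⟨fun h => ⟨mem_univ _, h⟩, fun h => h.2⟩
      rw [h6, Finset.sum_filter]
      refine Finset.sum_congr rfl fun z _ => ?_
      rw [hX]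
      simp only
      by_cases hz : Z p z
      · have := (hZXY p hp z).1 hz
        rw [if_pos hz, if_pos this.1, if_pos this.2, one_mul, one_mul]
      · rw [if_neg hz]
        by_cases h7 : ∃ z', Z p z' ∧ ∀ i, i ∉ side 2 Q → z' i = z i
        · have h8 : ¬ Y p z := fun h8 => hz ((hZXY p hp z).2 ⟨h7, h8⟩)
          rw [if_neg h8, zero_mul, mul_zero]
        · rw [if_neg h7, zero_mul]
    rw [e1]
    have e2 := sum_mix (PP p) (fun z => X p z * ((if Y p z then 1 else 0) * sg (cub M z)))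
    rw [card_cell] at e2
    rw [← e2, Finset.sum_filter]
    refine Finset.sum_congr rfl fun z _ => ?_
    simp only [hYmix]
    rw [hJ]
    simp only
    split_ifs with h
    · exact Finset.sum_congr rfl fun c _ => by rw [one_mul]
    · exact Finset.sum_eq_zero fun c _ => by rw [zero_mul, mul_zero]
  set W := (F ×ˢ (univ : Finset (Cell n → ZMod 2))).filter (fun q => Y q.1 q.2) with hW
  have hWc : (W.card : ℝ) ≤ 2 ^ (3 * n) := by
    have h2 : W.card ≤ (univ : Finset (Cell n → ZMod 2)).card := by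
      refine card_le_card_of_injOn (fun q => q.2) (fun _ _ => mem_coe.2 (mem_univ _)) ?_
      intro q hq q' hq' hqq
      rw [mem_coe, hW, mem_filter, mem_product] at hq hq'
      obtain ⟨z, hz, hzz⟩ := hq.2
      obtain ⟨z', hz', hzz'⟩ := hq'.2
      simp only at hqq
      rw [← hqq] at hzz'
      exact Prod.ext (hdis q.1 hq.1.1 q'.1 hq'.1.1 z z' q.2 hz hz' hzz hzz') hqq
    have h3 : ((univ : Finset (Cell n → ZMod 2)).card : ℝ) = 2 ^ (3 * n) := by
      rw [card_univ, Pool.Agent.Lib_helper26.TB.card_pi, card_cell]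
    rw [← h3]
    exact_mod_cast h2
  set S := ∑ p ∈ F, |∑ z ∈ fil (Z p), sg (cub M z)| with hS
  have hS0 : 0 ≤ S := Finset.sum_nonneg fun _ _ => abs_nonneg _
  have h2 : 2 ^ (3 * n) * S ≤ ∑ q ∈ W, |J q.1 q.2| := by
    rw [hS, Finset.mul_sum, hW, Finset.sum_filter, Finset.sum_product]
    refine Finset.sum_le_sum fun p hp => ?_
    rw [← abs_of_nonneg (by positivity : (0:ℝ) ≤ 2 ^ (3 * n)), ← abs_mul, h1 p hp]
    refine (Finset.abs_sum_le_sum_abs _ _).trans (le_of_eq ?_)
    rw [Finset.sum_filter]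
  obtain ⟨k, rfl⟩ : ∃ k, m = k + 1 := ⟨m - 1, by omega⟩
  have h3 : (∑ q ∈ W, |J q.1 q.2|) ^ (k + 1) ≤
      (2 ^ (3 * n)) ^ k * ∑ q ∈ W, |J q.1 q.2| ^ (k + 1) := by
    rcases W.eq_empty_or_nonempty with h0 | h0
    · rw [h0, Finset.sum_empty, Finset.sum_empty, mul_zero, zero_pow (Nat.succ_ne_zero k)]
    · have h4 := pow_sum_div_card_le_sum_pow (s := W) (f := fun q => |J q.1 q.2|)
        (fun _ _ => abs_nonneg _) k
      have h5 : (0:ℝ) < W.card := by exact_mod_cast card_pos.2 h0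
      rw [div_le_iff₀ (by positivity)] at h4
      refine h4.trans ?_
      rw [mul_comm]
      refine mul_le_mul_of_nonneg_right (pow_le_pow_left₀ h5.le hWc k) ?_
      exact Finset.sum_nonneg fun _ _ => by positivity
  have h4 : (∑ q ∈ W, |J q.1 q.2| ^ (k + 1)) * 2 ^ Q.card ≤
      F.card * (2 * (2 ^ (3 * n) * 2 ^ (3 * n * (k + 1)))) := by
    calc (∑ q ∈ W, |J q.1 q.2| ^ (k + 1)) * 2 ^ Q.card ≤
          (∑ p ∈ F, ∑ z, (J p z) ^ (k + 1)) * 2 ^ Q.card := by
          refine mul_le_mul_of_nonneg_right ?_ (by positivity)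
          rw [← Finset.sum_product']
          have e : ∀ q : (Finset (Fin n) × Finset (Fin n)) × (Cell n → ZMod 2),
              |J q.1 q.2| ^ (k + 1) = (J q.1 q.2) ^ (k + 1) := fun q => hme.pow_abs _
          rw [Finset.sum_congr rfl fun q _ => e q]
          exact Finset.sum_le_sum_of_subset_of_nonneg (filter_subset _ _)
            fun q _ _ => hme.pow_nonneg _
      _ = ∑ p ∈ F, (∑ z, (J p z) ^ (k + 1)) * 2 ^ Q.card := by rw [Finset.sum_mul]
      _ ≤ ∑ _p ∈ F, 2 * (2 ^ (3 * n) * 2 ^ (3 * n * (k + 1))) := by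
          refine Finset.sum_le_sum fun p hp => ?_
          exact cub_moment hM (hF p hp).1 (hF p hp).2 (hXmix p) (hX1 p) hm
      _ = _ := by rw [Finset.sum_const, nsmul_eq_mul]
  -- put together
  have h5 : (2 ^ (3 * n) * S) ^ (k + 1) ≤ (2 ^ (3 * n) * (2 ^ (3 * n) * E)) ^ (k + 1) := by
    have h6 : (2 ^ (3 * n) * S) ^ (k + 1) * 2 ^ Q.card ≤
        (2 ^ (3 * n) * (2 ^ (3 * n) * E)) ^ (k + 1) * 2 ^ Q.card := by
      rw [div_le_iff₀ (by positivity)] at hE
      calc (2 ^ (3 * n) * S) ^ (k + 1) * 2 ^ Q.card ≤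
            (∑ q ∈ W, |J q.1 q.2|) ^ (k + 1) * 2 ^ Q.card := by gcongr
        _ ≤ ((2 ^ (3 * n)) ^ k * ∑ q ∈ W, |J q.1 q.2| ^ (k + 1)) * 2 ^ Q.card := by gcongr
        _ = (2 ^ (3 * n)) ^ k * ((∑ q ∈ W, |J q.1 q.2| ^ (k + 1)) * 2 ^ Q.card) := by ring
        _ ≤ (2 ^ (3 * n)) ^ k * (F.card * (2 * (2 ^ (3 * n) * 2 ^ (3 * n * (k + 1))))) := by
            gcongr
        _ = (2 * F.card) * ((2 ^ (3 * n)) ^ (k + 1) * (2 ^ (3 * n)) ^ (k + 1)) := by
            rw [pow_mul (2:ℝ) (3 * n) (k + 1), pow_succ ((2:ℝ) ^ (3 * n)) k]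
            ring
        _ ≤ (E ^ (k + 1) * 2 ^ Q.card) * ((2 ^ (3 * n)) ^ (k + 1) * (2 ^ (3 * n)) ^ (k + 1)) := by
            gcongr
        _ = _ := by
            rw [mul_pow, mul_pow]
            ring
    exact le_of_mul_le_mul_right h6 (by positivity)
  have h6 := le_of_pow_le_pow_left₀ (Nat.succ_ne_zero k) (by positivity) h5
  exact le_of_mul_le_mul_left h6 (by positivity)

end FAMM

open Pool.Agent.Lib_helper26.TS (fil)
open Pool.Agent.Lib_helper26.TB (Cell cub sg side Closed PP)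

/-- FAMM: the family bound for a rich tensor. -/
theorem famm : FAMM_Stmt := by
  intro n ρ m M Q F Z E hM hm hm0 hme hF hZ hdis hE0 hE
  exact FAMM.family hM hm hm0 hme F hF Z hZ hdis hE0 hE

end Pool.Agent.UM
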