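import Pool.Agent.UM.Stmts

/-!
# FORM: expansion of the form
-/

set_option autoImplicit false

namespace Pool.Agent.UM.FORM

open Finset

/-- Linearised monomials commute with linear combinations over the field with two elements. -/
theorem pow_sum {F : Type} [Field F] [Algebra (ZMod 2) F] {n : ℕ} (x : Fin n → ZMod 2)
    (A : Fin n → F) (k : ℕ) :
    (∑ i, x i • A i) ^ (2 ^ k) = ∑ i, x i • A i ^ (2 ^ k) := by
  have h2 : CharP F 2 := charP_of_injective_algebraMap (algebraMap (ZMod 2) F).injective 2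
  rw [sum_pow_char_pow]
  refine Finset.sum_congr rfl fun i _ => ?_
  rw [smul_pow, ZMod.pow_card_pow]

theorem lpol_sum {n m : ℕ} (s : Fin m → GaloisField 2 n) (x : Fin n → ZMod 2)
    (A : Fin n → GaloisField 2 n) :
    lpol s (∑ i, x i • A i) = ∑ i, x i • lpol s (A i) := by
  unfold lpol
  simp only [pow_sum, Finset.mul_sum, Finset.smul_sum, mul_smul_comm]
  rw [Finset.sum_comm]

theorem tri {n : ℕ} (A B C : Fin n → GaloisField 2 n) (x y z : Fin n → ZMod 2) :
    Algebra.trace (ZMod 2) (GaloisField 2 n)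
      ((∑ i, x i • A i) * (∑ j, y j • B j) * (∑ l, z l • C l)) =
    ∑ i, ∑ j, ∑ l, Algebra.trace (ZMod 2) (GaloisField 2 n) (A i * B j * C l) *
      x i * y j * z l := by
  rw [Finset.sum_mul_sum, Finset.sum_mul, map_sum]
  refine Finset.sum_congr rfl fun i _ => ?_
  rw [Finset.sum_mul, map_sum]
  refine Finset.sum_congr rfl fun j _ => ?_
  rw [Finset.mul_sum, map_sum]
  refine Finset.sum_congr rfl fun l _ => ?_
  rw [smul_mul_smul_comm, smul_mul_smul_comm, map_smul, smul_eq_mul]
  ring

end Pool.Agent.UM.FORM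

namespace Pool.Agent.UM

open Finset

theorem form_thm : FORM_Stmt := by
  intro n m α z
  unfold form Pool.Agent.Lib_helper26.TB.cub
  rw [map_sum]
  refine Finset.sum_congr rfl fun p _ => ?_
  have h := FORM.tri
    (fun i => lpol (fun k : Fin m => elt α fun i => z (Sum.inl (k, i))) (α i)) α α
    (fun i => z (Sum.inr (p, 0, i))) (fun i => z (Sum.inr (p, 1, i)))
    (fun i => z (Sum.inr (p, 2, i)))
  rw [← FORM.lpol_sum] at h
  exact h

end Pool.Agent.UM
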