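import Pool.Agent.UM.Stmts

/-!
# The lower bound
-/

set_option autoImplicit false

namespace Pool.Agent.UM

open Finset
open Pool.Agent.Lib_helper26.TS (fil mem_fil)
open Pool.Agent.Lib_helper26.TB (Cell cub sg pp_count_gen gap_count)

namespace LOW

/-! ### Machines that always accept -/

section mach

variable {I A V G : Type}

theorem conf_acc (M : Mach I A V G) (a : V → Prop) (x : I → A) (t : ℕ) :
    Mach.conf { M with acc := a } x t = M.conf x t := by
  induction t with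
  | zero => rfl
  | succ t ih => simp only [Mach.conf, ih]

theorem far_acc (M : Mach I A V G) (a : V → Prop) (δ T : ℕ) (x : I → A) :
    Mach.far { M with acc := a } δ T x = M.far δ T x := by
  simp only [Mach.far, Mach.reg, conf_acc]

theorem dec_true {T δ J : ℕ} {L : (I → A) → Prop} (h : Dec I A V G T δ J L) :
    Dec I A V G T δ J fun _ => True := by
  obtain ⟨M, h1, _⟩ := h
  refine ⟨{ M with acc := fun _ => True }, fun x => ?_, fun x => ?_⟩
  · rw [far_acc]
    exact h1 x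
  · exact ⟨fun _ => trivial, fun _ => trivial⟩

theorem dec_pos [Fintype V] [Fintype G] {T δ J : ℕ} {L : (I → A) → Prop}
    (h : Dec I A V G T δ J L) : 0 < Fintype.card V ∧ 0 < Fintype.card G := by
  obtain ⟨M, _, _⟩ := h
  exact ⟨Fintype.card_pos_iff.2 ⟨M.start⟩, Fintype.card_pos_iff.2 ⟨M.init 0⟩⟩

end mach

/-! ### Reads -/

theorem sum_erd {n m : ℕ} {V G : Type} (Q : Mach (ECell n m) (ZMod 2) V G) (T : ℕ)
    (z : ECell n m → ZMod 2) : ∑ l, erd Q T z l ≤ T := by
  have h1 : ∀ l, erd Q T z l = ∑ t ∈ range T,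
      if (eblk l (Q.query t (Q.conf z t).1)).isSome = true then 1 else 0 := by
    intro l
    unfold erd
    rw [Finset.card_filter]
  rw [Finset.sum_congr rfl fun l _ => h1 l, Finset.sum_comm]
  have h2 : ∀ c : ECell n m, ∑ l : Fin m,
      (if (eblk l c).isSome = true then 1 else 0) ≤ 1 := by
    intro c
    rcases c with c | q
    · have h3 : ∀ l : Fin m, (if (eblk l (Sum.inl c : ECell n m)).isSome = true then 1 else 0) = 0 :=
        fun l => rfl
      rw [Finset.sum_congr rfl fun l _ => h3 l, Finset.sum_const_zero]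
      exact Nat.zero_le 1
    · have h3 : ∀ l : Fin m, (if (eblk l (Sum.inr q : ECell n m)).isSome = true then 1 else 0) =
          if q.1 = l then 1 else 0 := by
        intro l
        by_cases h : q.1 = l
        · rw [if_pos h]
          have h4 : eblk l (Sum.inr q : ECell n m) = some q.2 := if_pos h
          rw [h4]
          rfl
        · rw [if_neg h]
          have h4 : eblk l (Sum.inr q : ECell n m) = none := if_neg h
          rw [h4]
          rfl
      rw [Finset.sum_congr rfl fun l _ => h3 l, Finset.sum_ite_eq]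
      simp
  calc ∑ t ∈ range T, ∑ l : Fin m,
        (if (eblk l (Q.query t (Q.conf z t).1)).isSome = true then 1 else 0)
      ≤ ∑ _t ∈ range T, 1 := Finset.sum_le_sum fun t _ => h2 _
    _ = T := by simp

/-! ### The form -/

theorem form_einp (h2 : FORM_Stmt) {n m : ℕ}
    (α : Module.Basis (Fin n) (ZMod 2) (GaloisField 2 n)) (s : Fin m → GaloisField 2 n)
    (p : Fin m → Cell n → ZMod 2) :
    form α (einp (fun q => α.repr (s q.1) q.2) p) = ∑ l, cub (tens α s) (p l) := by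
  rw [h2 n m α]
  have h3 : (fun k : Fin m => elt α fun i =>
      einp (fun q : Fin m × Fin n => α.repr (s q.1) q.2) p (Sum.inl (k, i))) = s := by
    funext k
    exact α.sum_repr (s k)
  rw [h3]
  rfl

/-! ### Numbers -/

theorem num_le (W : ℕ) : (((W + 4 : ℕ) : ℝ) * (4 / 2 ^ (2 * W + 2 + 8)) + 1 / 4 ^ (W + 4)) ≤
    5 / 256 / 2 ^ W := by
  have hW : (0:ℝ) < 2 ^ W := by positivity
  rw [le_div_iff₀ hW]
  have e2 : ((W + 4 : ℕ) : ℝ) ≤ 4 * 2 ^ W := by
    have : W + 4 ≤ 4 * 2 ^ W := by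
      have := @Nat.lt_two_pow_self W
      omega
    exact_mod_cast this
  have e3 : ((W + 4 : ℕ) : ℝ) * (4 / 2 ^ (2 * W + 2 + 8)) * 2 ^ W ≤ 4 / 256 := by
    calc ((W + 4 : ℕ) : ℝ) * (4 / 2 ^ (2 * W + 2 + 8)) * 2 ^ W ≤
          (4 * 2 ^ W) * (4 / 2 ^ (2 * W + 2 + 8)) * 2 ^ W := by gcongr
      _ = 4 / 256 := by
          rw [show 2 * W + 2 + 8 = W + W + 10 by ring, pow_add, pow_add]
          field_simp
          norm_num
  have e4 : (1:ℝ) / 4 ^ (W + 4) * 2 ^ W ≤ 1 / 256 := by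
    rw [pow_add, show (4:ℝ) ^ W = 2 ^ W * 2 ^ W by rw [← mul_pow]; norm_num]
    rw [one_div_mul_eq_div, div_le_div_iff₀ (by positivity) (by norm_num)]
    have : (1:ℝ) ≤ 2 ^ W := one_le_pow₀ (by norm_num)
    nlinarith
  rw [add_mul]
  linarith

/-! ### The correlation -/

theorem corr (h1 : RICH_Stmt) (h2 : FORM_Stmt) (h3 : BLOCK_Stmt) (h4 : ONE_Stmt)
    (h5 : NUM_Stmt) {n m k T δ J W : ℕ} {V G : Type} [Fintype V] [Fintype G]
    (α : Module.Basis (Fin n) (ZMod 2) (GaloisField 2 n)) (hn : 0 < n) (hk : 1 ≤ k)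
    (hm : (k + 1) ^ (23040 * k) ≤ m) (hT : T ≤ k * (4 * n * m))
    (hV : 0 < Fintype.card V) (hG : 0 < Fintype.card G)
    (hcon : (Nat.log 2 (Fintype.card V) + Nat.log 2 n + 1) *
      (J + (W + 1) * (Nat.log 2 (Fintype.card G) + 1) * (δ + 1) * (Nat.log 2 n + 1)) * m ^ 16 ≤ n) :
    ∃ s : Fin m × Fin n → ZMod 2, ∀ L : (ECell n m → ZMod 2) → Prop,
      Dec (ECell n m) (ZMod 2) V G T δ J L →
      |∑ p ∈ fil (fun p : Fin m → Cell n → ZMod 2 => L (einp s p)), sg (form α (einp s p))| ≤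
        (Fintype.card (Fin m → Cell n → ZMod 2) : ℝ) * (5 / 256 / 2 ^ W) := by
  obtain ⟨ρ, γ, X, L, K, b, a1, a2, a3, a4, a5, a6, a7, a8, a9, a10, a11, a12, a13, a14, a15, a16,
    a17⟩ := h5 n m k (Fintype.card V) (Fintype.card G) T δ J W hk hV hG hm hT hcon
  obtain ⟨s, hs⟩ := h1 n m ρ α hn a16 a17
  have hm0 : 0 < m := lt_of_lt_of_le (by positivity) hm
  refine ⟨fun q => α.repr (s q.1) q.2, ?_⟩
  rintro L' ⟨Q, hQ, hL'⟩
  have hB : 16 * (k * n) ≤ 6 * k * (3 * n) := by
    have : 6 * k * (3 * n) = 18 * (k * n) := by ring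
    omega
  have hTB : 4 * T ≤ m * (16 * (k * n) + 1) := by
    calc 4 * T ≤ 4 * (k * (4 * n * m)) := Nat.mul_le_mul_left _ hT
      _ = m * (16 * (k * n)) := by ring
      _ ≤ _ := Nat.mul_le_mul_left _ (Nat.le_succ _)
  have hmain := h3 n m T (16 * (k * n)) (W + 4) (tens α s)
    (fun p => Q.Accepts T (einp (fun q => α.repr (s q.1) q.2) p))
    (fun p l => erd Q T (einp (fun q => α.repr (s q.1) q.2) p) l) (4 / 2 ^ (2 * W + 2 + 8)) hm0 hTB
    (fun p => sum_erd Q T _)
    (h4 n m ρ (6 * k) (2 * W + 2) γ X (16 * (k * n)) L K T δ J b (W + 4) (tens α s) V G Q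
      (fun q => α.repr (s q.1) q.2) hQ hs (by omega) a1 a2 a3 a4 a5 a6 a7 a8 a9 a10 a11 hB a12 a13
      a14 a15)
  have e1 : fil (fun p : Fin m → Cell n → ZMod 2 =>
      L' (einp (fun q => α.repr (s q.1) q.2) p)) =
      fil (fun p : Fin m → Cell n → ZMod 2 =>
        Q.Accepts T (einp (fun q => α.repr (s q.1) q.2) p)) := by
    ext p
    rw [mem_fil, mem_fil]
    exact hL' _
  rw [e1]
  have e2 : ∀ p : Fin m → Cell n → ZMod 2,
      sg (form α (einp (fun q => α.repr (s q.1) q.2) p)) =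
      sg (∑ l, cub (tens α s) (p l)) := fun p => by rw [form_einp h2 α s p]
  simp only [e2]
  exact hmain.trans (mul_le_mul_of_nonneg_left (num_le W) (Nat.cast_nonneg _))

theorem fil_true {X : Type} [Fintype X] : fil (fun _ : X => True) = univ := by
  ext x
  rw [mem_fil]
  simp

end LOW

open LOW in
/-- LOW: the lower bound. -/
theorem low (h1 : RICH_Stmt) (h2 : FORM_Stmt) (h3 : BLOCK_Stmt) (h4 : ONE_Stmt)
    (h5 : NUM_Stmt) : LOW_Stmt := by
  classical
  intro n m k T δ J W V G _ _ α hn hk hm hT h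
  by_contra hcon
  push Not at hcon
  have hc : (0:ℝ) < (Fintype.card (Fin m → Cell n → ZMod 2) : ℝ) := by
    exact_mod_cast Fintype.card_pos
  have hW : (0:ℝ) < 2 ^ W := by positivity
  rcases h with ⟨P, hP, hL⟩ | ⟨Ω, hΩ, q, P, hP, hq, hq1, hL⟩
  · have w0 : Fin (2 ^ W) := ⟨0, by positivity⟩
    obtain ⟨hV, hG⟩ := dec_pos (hP w0)
    obtain ⟨s, hs⟩ := corr h1 h2 h3 h4 h5 α hn hk hm hT hV hG hcon
    have hD0 := hs _ (dec_true (hP w0))
    rw [fil_true] at hD0
    have hmain := pp_count_gen (fun p : Fin m → Cell n → ZMod 2 => form α (einp s p)) W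
      (fun w p => P w (einp s p)) (fun p => hL (einp s p)) _ hD0 (fun w => hs _ (hP w))
    have e1 : 4 * 2 ^ W * ((Fintype.card (Fin m → Cell n → ZMod 2) : ℝ) * (5 / 256 / 2 ^ W)) =
        (Fintype.card (Fin m → Cell n → ZMod 2) : ℝ) * (5 / 64) := by
      field_simp
      norm_num
    rw [e1] at hmain
    nlinarith
  · obtain ⟨ω0⟩ : Nonempty Ω := by
      by_contra hne
      rw [not_nonempty_iff] at hne
      rw [Finset.univ_eq_empty, Finset.sum_empty] at hq1
      exact zero_ne_one hq1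
    obtain ⟨hV, hG⟩ := dec_pos (hP ω0)
    obtain ⟨s, hs⟩ := corr h1 h2 h3 h4 h5 α hn hk hm hT hV hG hcon
    have hD0 := hs _ (dec_true (hP ω0))
    rw [fil_true] at hD0
    have hmain := gap_count (fun p : Fin m → Cell n → ZMod 2 => form α (einp s p)) W
      (fun ω p => P ω (einp s p)) q hq hq1
      (fun z => by
        have h1 := hL (einp s z)
        refine ⟨fun h2 => (h1.1 h2).trans (le_of_eq ?_), fun h2 => (le_of_eq ?_).trans (h1.2 h2)⟩
        · exact Finset.sum_congr rfl fun ω _ => by congr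
        · exact Finset.sum_congr rfl fun ω _ => by congr) _ hD0 (fun ω => hs _ (hP ω))
    rw [← mul_assoc, mul_comm 3 (Fintype.card (Fin m → Cell n → ZMod 2) : ℝ), mul_assoc] at hmain
    have h6 := le_of_mul_le_mul_left hmain hc
    rw [← mul_div_assoc, div_le_div_iff_of_pos_right hW] at h6
    norm_num at h6

end Pool.Agent.UM
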