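import Pool.Agent.UM.Stmts
import Pool.Agent.Lib_helper26.TB.Num

/-!
# The parameters (module UM_NUM)
-/

set_option autoImplicit false

namespace Pool.Agent.UM

open Finset

namespace NUM

open Pool.Agent.Lib_helper26.TB (gam gam_ge gam_main pow_gam sq_le_pow)

theorem two_pow_le_m (k m : ℕ) (hk : 1 ≤ k) (hm : (k + 1) ^ (23040 * k) ≤ m) :
    2 ^ (20 * (6 * k * gam (6 * k))) ≤ m := by
  refine (pow_gam (6 * k) (by omega)).trans (le_trans ?_ hm)
  have h1 : 6 * k + 1 ≤ (k + 1) ^ 3 := by nlinarith [sq_nonneg k, Nat.zero_le (k ^ 3)]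
  calc (6 * k + 1) ^ (1280 * (6 * k)) ≤ ((k + 1) ^ 3) ^ (1280 * (6 * k)) :=
        Nat.pow_le_pow_left h1 _
    _ = (k + 1) ^ (23040 * k) := by
        rw [← pow_mul]
        congr 1
        ring

theorem le_gamX (k : ℕ) (hk : 1 ≤ k) : k ≤ 2 ^ (6 * k * gam (6 * k)) := by
  have h1 : k < 2 ^ k := Nat.lt_two_pow_self
  refine h1.le.trans (Nat.pow_le_pow_right (by norm_num) ?_)
  have h2 := gam_ge (6 * k)
  nlinarith

theorem k180 (k m : ℕ) (h : 2 ^ 30 * k ≤ m) : 180 * k ≤ 8 * m := by omega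

theorem k18 (k n : ℕ) (hk : 1 ≤ k) : n ≤ 6 * k * (3 * n) := by
  calc n = 1 * (1 * n) := by ring
    _ ≤ 6 * k * (3 * n) := Nat.mul_le_mul (by omega) (Nat.mul_le_mul_right _ (by norm_num))

end NUM

open NUM in
open Pool.Agent.Lib_helper26.TB (gam gam_ge gam_main pow_gam sq_le_pow) in
theorem num : NUM_Stmt := by
  intro n m k cV cG T δ J W hk hcV hcG hm hT hn
  set l : ℕ := Nat.log 2 n + 1 with hl
  set g : ℕ := Nat.log 2 cG + 1 with hg
  set v : ℕ := Nat.log 2 cV with hv
  set σ : ℕ := v + Nat.log 2 n + 1 with hσ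
  have hσl : σ = v + l := by omega
  set X : ℕ := 6 * k * gam (6 * k) with hX
  have hγ := gam_ge (6 * k)
  have hX32 : 192 ≤ X := by
    rw [hX]
    nlinarith
  have hmX : 2 ^ (20 * X) ≤ m := two_pow_le_m k m hk hm
  have hkX : k ≤ 2 ^ X := le_gamX k hk
  have hl1 : 1 ≤ l := by omega
  have hg1 : 1 ≤ g := by omega
  have hσ1 : 1 ≤ σ := by omega
  -- powers of two below m
  have hpow : ∀ a : ℕ, a ≤ 20 * X → 2 ^ a ≤ m := fun a ha =>
    (Nat.pow_le_pow_right (by norm_num) ha).trans hmX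
  have hm1 : 1 ≤ m := (Nat.one_le_two_pow).trans hmX
  -- the main inequality in parts
  have hJ : σ * J * m ^ 16 ≤ n := by
    refine le_trans ?_ hn
    gcongr
    exact Nat.le_add_right _ _
  have hA : σ * ((W + 1) * g * (δ + 1) * l) * m ^ 16 ≤ n := by
    refine le_trans ?_ hn
    gcongr
    exact Nat.le_add_left _ _
  have hn16 : (W + 1) * m ^ 16 ≤ n := by
    refine le_trans ?_ hA
    gcongr
    calc W + 1 = 1 * ((W + 1) * 1 * 1 * 1) := by ring
      _ ≤ σ * ((W + 1) * g * (δ + 1) * l) := by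
          gcongr
          exact Nat.succ_le_succ (Nat.zero_le δ)
  have hm16 : m ^ 16 ≤ n := le_trans (Nat.le_mul_of_pos_left _ (Nat.succ_pos W)) hn16
  have hn1 : 1 ≤ n := (Nat.one_le_pow _ _ hm1).trans hm16
  -- rho
  set ρ : ℕ := n / 2 ^ (6 * X + 4) with hρ
  have hρle : 2 ^ (6 * X + 4) * ρ ≤ n := Nat.mul_div_le n _
  have h24 : 2 ^ (6 * X + 4) ≤ n := (hpow _ (by omega)).trans
    ((Nat.le_self_pow (by norm_num) m).trans hm16)
  have hρ1 : 1 ≤ ρ := Nat.div_pos h24 (by positivity)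
  have hnρ : n ≤ 2 ^ (6 * X + 5) * ρ := by
    have h4 : n < 2 ^ (6 * X + 4) * (ρ + 1) := Nat.lt_mul_div_succ n (by positivity)
    calc n ≤ 2 ^ (6 * X + 4) * (ρ + 1) := h4.le
      _ ≤ 2 ^ (6 * X + 4) * (2 * ρ) := Nat.mul_le_mul_left _ (by omega)
      _ = _ := by
          rw [show 6 * X + 5 = (6 * X + 4) + 1 by ring, pow_succ]
          ring
  have hnm : n ≤ m * ρ := hnρ.trans (Nat.mul_le_mul_right _ (hpow _ (by omega)))
  have hρ15 : (W + 1) * m ^ 15 ≤ ρ := by
    refine Nat.le_of_mul_le_mul_left ?_ hm1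
    calc m * ((W + 1) * m ^ 15) = (W + 1) * m ^ 16 := by ring
      _ ≤ n := hn16
      _ ≤ m * ρ := hnm
  have hm15 : m ^ 15 ≤ ρ := le_trans (Nat.le_mul_of_pos_left _ (Nat.succ_pos W)) hρ15
  have hmρ : m ≤ ρ := (Nat.le_self_pow (by norm_num) m).trans hm15
  have hbig : 2 ^ 30 ≤ m := hpow _ (by omega)
  have hkm : 2 ^ 30 * k ≤ m := by
    calc 2 ^ 30 * k ≤ 2 ^ 30 * 2 ^ X := by gcongr
      _ = 2 ^ (30 + X) := by rw [pow_add]
      _ ≤ m := hpow _ (by omega)
  -- b and L
  set b : ℕ := (δ + 1) * σ * m ^ 4 with hb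
  set L : ℕ := m ^ 4 * g * b with hL
  have hb1 : 1 ≤ b := by
    rw [hb]
    exact Nat.mul_pos (Nat.mul_pos (Nat.succ_pos δ) hσ1) (Nat.pow_pos hm1)
  have hL1 : 1 ≤ L := by
    rw [hL]
    exact Nat.mul_pos (Nat.mul_pos (Nat.pow_pos hm1) hg1) hb1
  have hLW : L * (W + 1) * m ^ 8 ≤ n := by
    refine le_trans ?_ hA
    calc L * (W + 1) * m ^ 8 = σ * ((W + 1) * g * (δ + 1) * 1) * m ^ 16 := by
          rw [hL, hb]
          ring
      _ ≤ σ * ((W + 1) * g * (δ + 1) * l) * m ^ 16 := by gcongr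
  have hW10 : (2 * W + 2) + 8 ≤ 10 * (W + 1) := by omega
  refine ⟨ρ, gam (6 * k), X, L,
    4 * l * (b + W + 4) + 3 * σ * (T * δ / b + J) + (3 * σ + g * b) * (T / L) + σ, b,
    by omega, hX, gam_main (6 * k), hγ, hnρ, hρle, ?_, ?_, ?_, ?_, hL1, hb1, ?_, ?_, ?_, hmρ, ?_⟩
  · exact (show 1024 ≤ 2 ^ 30 by norm_num).trans (hbig.trans hmρ)
  · calc 32 * ((2 * W + 2) + 8) ≤ 32 * (10 * (W + 1)) := by gcongr
      _ = (W + 1) * 320 := by ring
      _ ≤ (W + 1) * m ^ 15 := by
          gcongr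
          exact (show 320 ≤ 2 ^ 30 by norm_num).trans (hbig.trans (Nat.le_self_pow (by norm_num) m))
      _ ≤ ρ := hρ15
  · refine le_trans ?_ (sq_le_pow ρ ((show 1024 ≤ 2 ^ 30 by norm_num).trans (hbig.trans hmρ)))
    calc n ≤ m * ρ := hnm
      _ ≤ ρ * ρ := Nat.mul_le_mul_right _ hmρ
      _ = ρ ^ 2 := by ring
  · -- 32 K ≤ ρ
    have hTn : T ≤ 4 * k * n * m := by
      refine hT.trans (le_of_eq ?_)
      ring
    have e1 : 4 * l * (b + W + 4) * m ^ 3 ≤ 20 * n := by
      have f1 : l * b * m ^ 3 ≤ n := by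
        refine le_trans ?_ hA
        calc l * b * m ^ 3 = σ * (1 * 1 * (δ + 1) * l) * m ^ 7 := by
              rw [hb]
              ring
          _ ≤ σ * ((W + 1) * g * (δ + 1) * l) * m ^ 16 := by
              gcongr
              · exact Nat.succ_le_succ (Nat.zero_le W)
              · norm_num
      have f2 : l * (W + 1) * m ^ 3 ≤ n := by
        refine le_trans ?_ hA
        calc l * (W + 1) * m ^ 3 = 1 * ((W + 1) * 1 * 1 * l) * m ^ 3 := by ring
          _ ≤ σ * ((W + 1) * g * (δ + 1) * l) * m ^ 16 := by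
              gcongr
              · exact Nat.succ_le_succ (Nat.zero_le δ)
              · norm_num
      have f3 : b + W + 4 ≤ b + 4 * (W + 1) := by
        clear * -
        omega
      calc 4 * l * (b + W + 4) * m ^ 3 ≤ 4 * l * (b + 4 * (W + 1)) * m ^ 3 :=
            Nat.mul_le_mul_right _ (Nat.mul_le_mul_left _ f3)
        _ = 4 * (l * b * m ^ 3) + 16 * (l * (W + 1) * m ^ 3) := by ring
        _ ≤ 4 * n + 16 * n := by gcongr
        _ = 20 * n := by ring
    have e2 : 3 * σ * (T * δ / b + J) * m ^ 3 ≤ 12 * k * n + 3 * n := by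
      have f1 : (T * δ / b) * σ * m ^ 3 ≤ 4 * k * n := by
        have h1 : (T * δ / b) * b ≤ T * δ := Nat.div_mul_le_self _ _
        have h2 : ((T * δ / b) * σ * m ^ 3) * ((δ + 1) * m) ≤ (4 * k * n) * ((δ + 1) * m) := by
          calc ((T * δ / b) * σ * m ^ 3) * ((δ + 1) * m) = (T * δ / b) * b := by
                rw [hb]
                ring
            _ ≤ T * δ := h1
            _ ≤ (4 * k * n * m) * (δ + 1) := Nat.mul_le_mul hTn (Nat.le_succ δ)
            _ = (4 * k * n) * ((δ + 1) * m) := by ring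
        exact Nat.le_of_mul_le_mul_right h2 (Nat.mul_pos (Nat.succ_pos δ) hm1)
      have f2 : σ * J * m ^ 3 ≤ n := by
        refine le_trans ?_ hJ
        gcongr
        · norm_num
      calc 3 * σ * (T * δ / b + J) * m ^ 3 =
            3 * ((T * δ / b) * σ * m ^ 3) + 3 * (σ * J * m ^ 3) := by ring
        _ ≤ 3 * (4 * k * n) + 3 * n := by gcongr
        _ = 12 * k * n + 3 * n := by ring
    have e3 : (3 * σ + g * b) * (T / L) * m ^ 3 ≤ 16 * k * n := by
      have h0 : σ ≤ b := by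
        rw [hb]
        calc σ = 1 * σ * 1 := by ring
          _ ≤ (δ + 1) * σ * m ^ 4 := by
              gcongr
              · exact Nat.succ_le_succ (Nat.zero_le δ)
              · exact Nat.one_le_pow _ _ hm1
      have h0' : σ ≤ g * b := h0.trans (Nat.le_mul_of_pos_left _ hg1)
      have h1 : (T / L) * L ≤ T := Nat.div_mul_le_self _ _
      have h2 : ((T / L) * (g * b) * m ^ 3) * m ≤ (4 * k * n) * m := by
        calc ((T / L) * (g * b) * m ^ 3) * m = (T / L) * L := by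
              rw [hL]
              ring
          _ ≤ T := h1
          _ ≤ 4 * k * n * m := hTn
      have h3 := Nat.le_of_mul_le_mul_right h2 hm1
      calc (3 * σ + g * b) * (T / L) * m ^ 3 ≤ (3 * (g * b) + g * b) * (T / L) * m ^ 3 := by
            gcongr
        _ = 4 * ((T / L) * (g * b) * m ^ 3) := by ring
        _ ≤ 4 * (4 * k * n) := by gcongr
        _ = 16 * k * n := by ring
    have e4 : σ * m ^ 3 ≤ n := by
      refine le_trans ?_ hA
      calc σ * m ^ 3 = σ * (1 * 1 * 1 * 1) * m ^ 3 := by ring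
        _ ≤ σ * ((W + 1) * g * (δ + 1) * l) * m ^ 16 := by
            gcongr
            · exact Nat.succ_le_succ (Nat.zero_le W)
            · exact Nat.succ_le_succ (Nat.zero_le δ)
            · norm_num
    set K : ℕ := 4 * l * (b + W + 4) + 3 * σ * (T * δ / b + J) + (3 * σ + g * b) * (T / L) + σ
      with hK
    have e5 : K * m ^ 3 ≤ 52 * k * n := by
      calc K * m ^ 3 = 4 * l * (b + W + 4) * m ^ 3 + 3 * σ * (T * δ / b + J) * m ^ 3 +
            (3 * σ + g * b) * (T / L) * m ^ 3 + σ * m ^ 3 := by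
            rw [hK]
            ring
        _ ≤ 20 * n + (12 * k * n + 3 * n) + 16 * k * n + n := by gcongr
        _ = 24 * (1 * n) + 28 * (k * n) := by ring
        _ ≤ 24 * (k * n) + 28 * (k * n) := by gcongr
        _ = 52 * k * n := by ring
    have e6 : (32 * K) * m * m ^ 2 ≤ n * m ^ 2 := by
      calc (32 * K) * m * m ^ 2 = 32 * (K * m ^ 3) := by ring
        _ ≤ 32 * (52 * k * n) := by gcongr
        _ = n * (1664 * k) := by ring
        _ ≤ n * m ^ 2 := by
            gcongr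
            calc 1664 * k ≤ 2 ^ 30 * k := by gcongr; norm_num
              _ ≤ m := hkm
              _ ≤ m ^ 2 := Nat.le_self_pow (by norm_num) m
    have e7 : (32 * K) * m ≤ ρ * m :=
      (Nat.le_of_mul_le_mul_right e6 (Nat.pow_pos hm1)).trans (hnm.trans (le_of_eq (mul_comm _ _)))
    exact Nat.le_of_mul_le_mul_right e7 hm1
  · -- L * (6 k * 3 n) * (2 W + 10) ≤ 8 ρ ^ 2
    have h1 : (L * (6 * k * (3 * n)) * ((2 * W + 2) + 8)) * m ^ 8 ≤ (8 * ρ ^ 2) * m ^ 8 := by
      calc (L * (6 * k * (3 * n)) * ((2 * W + 2) + 8)) * m ^ 8 ≤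
            (L * (6 * k * (3 * n)) * (10 * (W + 1))) * m ^ 8 := by gcongr
        _ = (180 * k * n) * (L * (W + 1) * m ^ 8) := by ring
        _ ≤ (180 * k * n) * n := by gcongr
        _ = (180 * k) * (n * n) := by ring
        _ ≤ (8 * m) * ((m * ρ) * (m * ρ)) :=
            Nat.mul_le_mul (k180 k m hkm) (Nat.mul_le_mul hnm hnm)
        _ = (8 * ρ ^ 2) * m ^ 3 := by ring
        _ ≤ (8 * ρ ^ 2) * m ^ 8 := by
            gcongr
            · norm_num
    exact Nat.le_of_mul_le_mul_right h1 (Nat.pow_pos hm1)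
  · have h4 : 4 ^ gam (6 * k) ≤ m := by
      calc 4 ^ gam (6 * k) = 2 ^ (2 * gam (6 * k)) := by
            rw [pow_mul]
            norm_num
        _ ≤ m := hpow _ (by
            rw [hX]
            nlinarith)
    have h1 : (2 * 4 ^ gam (6 * k) * L * ((2 * W + 2) + 8)) * m ^ 8 ≤
        (6 * k * (3 * n)) * m ^ 8 := by
      calc (2 * 4 ^ gam (6 * k) * L * ((2 * W + 2) + 8)) * m ^ 8 ≤
            (2 * m * L * (10 * (W + 1))) * m ^ 8 := by gcongr
        _ = (20 * m) * (L * (W + 1) * m ^ 8) := by ring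
        _ ≤ (20 * m) * n := by gcongr
        _ ≤ (m * m) * n := Nat.mul_le_mul_right _ (Nat.mul_le_mul_right _
            ((show 20 ≤ 2 ^ 30 by norm_num).trans hbig))
        _ = n * m ^ 2 := by ring
        _ ≤ (6 * k * (3 * n)) * m ^ 8 :=
            Nat.mul_le_mul (k18 k n hk) (Nat.pow_le_pow_right hm1 (by norm_num))
    exact Nat.le_of_mul_le_mul_right h1 (Nat.pow_pos hm1)
  · -- the product
    have hT1 : T + 1 ≤ 2 ^ (2 * l) := by
      have h1 : n < 2 ^ l := Nat.lt_pow_succ_log_self (by norm_num) n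
      calc T + 1 ≤ k * (4 * n * m) + n := by omega
        _ = (4 * k * m + 1) * n := by ring
        _ ≤ n * n := by
            gcongr
            calc 4 * k * m + 1 ≤ 4 * k * m + k * m := by
                  gcongr
                  exact Nat.mul_pos hk hm1
              _ = (5 * k) * m := by ring
              _ ≤ m * m := by
                  gcongr
                  exact le_trans (by gcongr; norm_num) hkm
              _ = m ^ 2 := by ring
              _ ≤ m ^ 16 := Nat.pow_le_pow_right hm1 (by norm_num)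
              _ ≤ n := hm16
        _ ≤ 2 ^ l * 2 ^ l := Nat.mul_le_mul h1.le h1.le
        _ = 2 ^ (2 * l) := by
            rw [← pow_add]
            congr 1
            ring
    have hV1 : cV ≤ 2 ^ (v + 1) := (Nat.lt_pow_succ_log_self (by norm_num) cV).le
    have hG1 : cG + 1 ≤ 2 ^ g := Nat.lt_pow_succ_log_self (by norm_num) cG
    have hTV : (T + 1) * cV ≤ 2 ^ (3 * σ) := by
      calc (T + 1) * cV ≤ 2 ^ (2 * l) * 2 ^ (v + 1) := Nat.mul_le_mul hT1 hV1
        _ = 2 ^ (2 * l + (v + 1)) := (pow_add 2 (2 * l) (v + 1)).symm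
        _ ≤ 2 ^ (3 * σ) := Nat.pow_le_pow_right (by norm_num) (by omega)
    have c1 : (T + 1) ^ (2 * (b + (W + 4))) ≤ 2 ^ (4 * l * (b + W + 4)) := by
      calc (T + 1) ^ (2 * (b + (W + 4))) ≤ (2 ^ (2 * l)) ^ (2 * (b + (W + 4))) :=
            Nat.pow_le_pow_left hT1 _
        _ = 2 ^ (4 * l * (b + W + 4)) := by
            rw [← pow_mul]
            congr 1
            ring
    have c2 : (T * cV + 1) ^ (T * δ / b + J) ≤ 2 ^ (3 * σ * (T * δ / b + J)) := by
      calc (T * cV + 1) ^ (T * δ / b + J) ≤ (2 ^ (3 * σ)) ^ (T * δ / b + J) := by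
            refine Nat.pow_le_pow_left (le_trans ?_ hTV) _
            calc T * cV + 1 ≤ T * cV + cV := by omega
              _ = (T + 1) * cV := by ring
        _ = _ := by rw [← pow_mul]
    have c3 : (T * (cV * (cG + 1) ^ b) + 1) ^ (T / L) ≤ 2 ^ ((3 * σ + g * b) * (T / L)) := by
      calc (T * (cV * (cG + 1) ^ b) + 1) ^ (T / L) ≤ (2 ^ (3 * σ + g * b)) ^ (T / L) := by
            refine Nat.pow_le_pow_left ?_ _
            calc T * (cV * (cG + 1) ^ b) + 1 ≤ T * (cV * (cG + 1) ^ b) + cV * (cG + 1) ^ b := by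
                  gcongr
                  exact Nat.mul_pos hcV (Nat.pow_pos (Nat.succ_pos cG))
              _ = ((T + 1) * cV) * (cG + 1) ^ b := by ring
              _ ≤ 2 ^ (3 * σ) * (2 ^ g) ^ b :=
                  Nat.mul_le_mul hTV (Nat.pow_le_pow_left hG1 _)
              _ = 2 ^ (3 * σ + g * b) := by rw [← pow_mul, ← pow_add]
        _ = _ := by rw [← pow_mul]
    have c4 : cV ≤ 2 ^ σ := hV1.trans (Nat.pow_le_pow_right (by norm_num) (by omega))
    calc (T + 1) ^ (2 * (b + (W + 4))) * (T * cV + 1) ^ (T * δ / b + J) *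
          (T * (cV * (cG + 1) ^ b) + 1) ^ (T / L) * cV ≤
          2 ^ (4 * l * (b + W + 4)) * 2 ^ (3 * σ * (T * δ / b + J)) *
            2 ^ ((3 * σ + g * b) * (T / L)) * 2 ^ σ := by gcongr
      _ = _ := by rw [← pow_add, ← pow_add, ← pow_add]
  · calc 3 * n + 2 ≤ 5 * n := by omega
      _ ≤ 5 * (2 ^ (6 * X + 5) * ρ) := by gcongr
      _ ≤ 2 ^ 3 * (2 ^ (6 * X + 5) * ρ) := by gcongr; norm_num
      _ = 2 ^ (3 + (6 * X + 5)) * ρ := by
          rw [pow_add 2 3]
          ring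
      _ ≤ m * ρ := by
          gcongr
          exact hpow _ (by omega)
      _ ≤ 2 * (m * ρ) := by omega
      _ = 2 * ρ * m := by ring

end Pool.Agent.UM
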