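import Pool.Agent.UM.Stmts

/-!
# Some coefficients give a rich tensor
-/

set_option autoImplicit false
set_option linter.unusedSectionVars false

namespace Pool.Agent.UM

open Finset
open Pool.Agent.Lib_helper26.TB (kerN slice card_kerN ker lin fiber_card)

namespace RICH

variable {n m : ℕ}

/-- the linearised polynomial as a linear map -/
noncomputable def lp (s : Fin m → GaloisField 2 n) : GaloisField 2 n →ₗ[ZMod 2] GaloisField 2 n :=
  AddMonoidHom.toZModLinearMap 2
    { toFun := lpol s
      map_zero' := by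
        unfold lpol
        refine Finset.sum_eq_zero fun k _ => ?_
        rw [zero_pow (by positivity), mul_zero]
      map_add' := by
        intro X Y
        unfold lpol
        rw [← Finset.sum_add_distrib]
        refine Finset.sum_congr rfl fun k _ => ?_
        rw [add_pow_char_pow, mul_add] }

theorem lp_apply (s : Fin m → GaloisField 2 n) (X : GaloisField 2 n) : lp s X = lpol s X := rfl

theorem slice_eq (α : Module.Basis (Fin n) (ZMod 2) (GaloisField 2 n))
    (s : Fin m → GaloisField 2 n) (y : Fin n → ZMod 2) (A B : Finset (Fin n)) (x : A → ZMod 2)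
    (j : B) :
    ∑ i, slice y A B (tens α s) i j * x i =
      Algebra.trace (ZMod 2) (GaloisField 2 n)
        (lpol s (∑ i, x i • α i) * (α j * ∑ l, y l • α l)) := by
  rw [← lp_apply, map_sum, Finset.sum_mul, map_sum]
  refine Finset.sum_congr rfl fun i _ => ?_
  rw [map_smul, smul_mul_assoc, map_smul, smul_eq_mul, mul_comm]
  congr 1
  show ∑ l, y l * Algebra.trace (ZMod 2) (GaloisField 2 n) (lpol s (α i) * α j * α l) = _
  rw [lp_apply, ← mul_assoc, Finset.mul_sum, map_sum]
  refine Finset.sum_congr rfl fun l _ => ?_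
  rw [mul_smul_comm, map_smul, smul_eq_mul]

theorem tr_surj (α : Module.Basis (Fin n) (ZMod 2) (GaloisField 2 n)) {Y : GaloisField 2 n}
    (hY : Y ≠ 0) (B : Finset (Fin n)) (N : B → ZMod 2) :
    ∃ U : GaloisField 2 n, ∀ j : B,
      Algebra.trace (ZMod 2) (GaloisField 2 n) (U * (α j * Y)) = N j := by
  classical
  refine ⟨(∑ j : B, N j • α.traceDual j) * Y⁻¹, fun j => ?_⟩
  have h1 : (∑ j : B, N j • α.traceDual j) * Y⁻¹ * (α j * Y) =
      ∑ i : B, N i • (α.traceDual i * α j) := by
    calc _ = (∑ j : B, N j • α.traceDual j) * α j * (Y⁻¹ * Y) := by ring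
      _ = _ := by
        rw [inv_mul_cancel₀ hY, mul_one, Finset.sum_mul]
        exact Finset.sum_congr rfl fun i _ => smul_mul_assoc _ _ _
  rw [h1, map_sum, Finset.sum_eq_single j]
  · rw [map_smul, Module.Basis.trace_traceDual_mul, if_pos rfl, smul_eq_mul, mul_one]
  · intro i _ hij
    rw [map_smul, Module.Basis.trace_traceDual_mul, if_neg, smul_zero]
    intro h
    exact hij (Subtype.ext h.symm)
  · intro h
    exact absurd (mem_univ _) h

theorem elt_ne (α : Module.Basis (Fin n) (ZMod 2) (GaloisField 2 n)) {y : Fin n → ZMod 2}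
    (hy : y ≠ 0) : ∑ l, y l • α l ≠ 0 := by
  intro h
  apply hy
  funext l
  exact Fintype.linearIndependent_iff.1 α.linearIndependent y h l

/-- the evaluation at a tuple of vectors -/
noncomputable def ev (α : Module.Basis (Fin n) (ZMod 2) (GaloisField 2 n)) (y : Fin n → ZMod 2)
    (A B : Finset (Fin n)) (X : Fin m → A → ZMod 2) :
    (Fin m → GaloisField 2 n) →+ (Fin m → B → ZMod 2) where
  toFun s t j := Algebra.trace (ZMod 2) (GaloisField 2 n)
        (lpol s (∑ i, X t i • α i) * (α j * ∑ l, y l • α l))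
  map_zero' := by
    funext t j
    simp [lpol]
  map_add' s s' := by
    funext t j
    show _ = Algebra.trace (ZMod 2) (GaloisField 2 n) _ +
      Algebra.trace (ZMod 2) (GaloisField 2 n) _
    rw [← map_add, ← add_mul]
    congr 2
    unfold lpol
    rw [← Finset.sum_add_distrib]
    refine Finset.sum_congr rfl fun k _ => ?_
    rw [Pi.add_apply, add_mul]

theorem ev_surj (h : MOORE_Stmt) (α : Module.Basis (Fin n) (ZMod 2) (GaloisField 2 n))
    {y : Fin n → ZMod 2} (hy : y ≠ 0) (A B : Finset (Fin n)) {X : Fin m → A → ZMod 2}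
    (hX : LinearIndependent (ZMod 2) X) : Function.Surjective (ev α y A B X) := by
  classical
  intro N
  choose U hU using fun t => tr_surj α (elt_ne α hy) B (N t)
  have hL : LinearIndependent (ZMod 2) fun t => ∑ i, X t i • α i := by
    let L : (A → ZMod 2) →ₗ[ZMod 2] GaloisField 2 n :=
      { toFun := fun x => ∑ i, x i • α i
        map_add' := by
          intro x x'
          rw [← Finset.sum_add_distrib]
          exact Finset.sum_congr rfl fun i _ => add_smul _ _ _
        map_smul' := by
          intro c x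
          rw [RingHom.id_apply, Finset.smul_sum]
          exact Finset.sum_congr rfl fun i _ => by rw [Pi.smul_apply, smul_assoc] }
    have hker : LinearMap.ker L = ⊥ := by
      rw [LinearMap.ker_eq_bot']
      intro x hx
      funext i
      have h1 : LinearIndependent (ZMod 2) fun i : A => α i :=
        α.linearIndependent.comp _ Subtype.val_injective
      exact Fintype.linearIndependent_iff.1 h1 x hx i
    exact hX.map' L hker
  obtain ⟨s, hs⟩ := h (GaloisField 2 n) m m _ hL le_rfl U
  refine ⟨s, ?_⟩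
  funext t j
  have h1 : lpol s (∑ i, X t i • α i) = U t := congrFun hs t
  show Algebra.trace (ZMod 2) (GaloisField 2 n)
        (lpol s (∑ i, X t i • α i) * (α j * ∑ l, y l • α l)) = _
  rw [h1, hU]

section count

variable [Fintype (GaloisField 2 n)] [DecidableEq (GaloisField 2 n)]

theorem mem_ker (α : Module.Basis (Fin n) (ZMod 2) (GaloisField 2 n)) (y : Fin n → ZMod 2)
    (A B : Finset (Fin n)) (s : Fin m → GaloisField 2 n) (x : A → ZMod 2) :
    x ∈ ker (slice y A B (tens α s)) ↔ ∀ j : B, Algebra.trace (ZMod 2) (GaloisField 2 n)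
        (lpol s (∑ i, x i • α i) * (α j * ∑ l, y l • α l)) = 0 := by
  unfold ker
  rw [mem_filter]
  simp only [mem_univ, true_and, slice_eq]

open Classical in
theorem fib (h : MOORE_Stmt) (α : Module.Basis (Fin n) (ZMod 2) (GaloisField 2 n))
    {y : Fin n → ZMod 2} (hy : y ≠ 0) (A B : Finset (Fin n)) {X : Fin m → A → ZMod 2}
    (hX : LinearIndependent (ZMod 2) X) :
    (univ.filter fun s : Fin m → GaloisField 2 n =>
      ∀ t, X t ∈ ker (slice y A B (tens α s))).card * (2 ^ B.card) ^ m =
      Fintype.card (Fin m → GaloisField 2 n) := by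
  have h1 := fiber_card (ev α y A B X) (ev_surj h α hy A B hX) (fun N => N = 0)
  have h2 : (univ.filter fun N : Fin m → B → ZMod 2 => N = 0).card = 1 := by
    rw [Finset.filter_eq' univ 0, if_pos (mem_univ _), card_singleton]
  have h3 : Fintype.card (Fin m → B → ZMod 2) = (2 ^ B.card) ^ m := by
    rw [Fintype.card_fun, Fintype.card_fun, ZMod.card, Fintype.card_coe, Fintype.card_fin]
  rw [h2, one_mul, h3] at h1
  rw [← h1]
  congr 2
  refine Finset.filter_congr fun s _ => ?_
  simp only [mem_ker]
  constructor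
  · intro h4
    funext t j
    exact h4 t j
  · intro h4 t j
    exact congrFun (congrFun h4 t) j

open Classical in
/-- the independent tuples in the kernel -/
noncomputable def IT (α : Module.Basis (Fin n) (ZMod 2) (GaloisField 2 n)) (y : Fin n → ZMod 2)
    (A B : Finset (Fin n)) (s : Fin m → GaloisField 2 n) : Finset (Fin m → A → ZMod 2) :=
  univ.filter fun X => LinearIndependent (ZMod 2) X ∧ ∀ t, X t ∈ ker (slice y A B (tens α s))

theorem sum_IT (h : MOORE_Stmt) (α : Module.Basis (Fin n) (ZMod 2) (GaloisField 2 n))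
    {y : Fin n → ZMod 2} (hy : y ≠ 0) (A B : Finset (Fin n)) (hAB : A.card = B.card) :
    ∑ s : Fin m → GaloisField 2 n, (IT α y A B s).card ≤
      Fintype.card (Fin m → GaloisField 2 n) := by
  classical
  have h1 : ∑ s : Fin m → GaloisField 2 n, (IT α y A B s).card =
      ∑ X ∈ univ.filter (fun X : Fin m → A → ZMod 2 => LinearIndependent (ZMod 2) X),
        (univ.filter fun s : Fin m → GaloisField 2 n =>
          ∀ t, X t ∈ ker (slice y A B (tens α s))).card := by
    unfold IT
    simp only [Finset.card_filter]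
    rw [Finset.sum_comm, Finset.sum_filter]
    refine Finset.sum_congr rfl fun X _ => ?_
    by_cases hX : LinearIndependent (ZMod 2) X
    · simp only [hX, true_and, if_true]
    · simp only [hX, false_and, if_false, Finset.sum_const_zero]
  have h2 : (0 : ℕ) < (2 ^ B.card) ^ m := by positivity
  refine Nat.le_of_mul_le_mul_right ?_ h2
  rw [h1, Finset.sum_mul]
  have h3 : ∀ X ∈ univ.filter (fun X : Fin m → A → ZMod 2 => LinearIndependent (ZMod 2) X),
      (univ.filter fun s : Fin m → GaloisField 2 n =>
          ∀ t, X t ∈ ker (slice y A B (tens α s))).card * (2 ^ B.card) ^ m =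
        Fintype.card (Fin m → GaloisField 2 n) := by
    intro X hX
    convert fib h α hy A B (mem_filter.1 hX).2
  rw [Finset.sum_congr rfl h3, Finset.sum_const, smul_eq_mul, mul_comm]
  refine Nat.mul_le_mul_left _ ?_
  refine (card_le_univ _).trans (le_of_eq ?_)
  rw [Fintype.card_fun, Fintype.card_fun, ZMod.card, Fintype.card_coe, Fintype.card_fin, hAB]

theorem card_IT (α : Module.Basis (Fin n) (ZMod 2) (GaloisField 2 n))
    (y : Fin n → ZMod 2) (A B : Finset (Fin n)) (s : Fin m → GaloisField 2 n) {r : ℕ}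
    (hm : m ≤ r + 1) (hr : 2 ^ r < (ker (slice y A B (tens α s))).card) :
    (2 ^ r) ^ m ≤ (IT α y A B s).card := by
  classical
  set W := LinearMap.ker (lin (slice y A B (tens α s))) with hW
  have hmem : ∀ x, x ∈ W ↔ x ∈ ker (slice y A B (tens α s)) := by
    intro x
    simp only [hW, ker, mem_filter, mem_univ, true_and, LinearMap.mem_ker, lin, LinearMap.coe_mk,
      AddHom.coe_mk, funext_iff, Pi.zero_apply]
  have h1 : (ker (slice y A B (tens α s))).card = Nat.card W := by
    rw [Nat.card_eq_fintype_card, Fintype.card_subtype]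
    congr 1
    ext x
    rw [mem_filter, hmem]
    simp
  have h2 : Nat.card W = 2 ^ Module.finrank (ZMod 2) W := by
    rw [Module.natCard_eq_pow_finrank (K := ZMod 2), Nat.card_zmod]
  have h3 : r + 1 ≤ Module.finrank (ZMod 2) W := by
    rw [h1, h2] at hr
    exact (Nat.pow_lt_pow_iff_right (by norm_num)).1 hr
  have h4 := card_linearIndependent (K := ZMod 2) (V := W) (k := m) (hm.trans h3)
  have h5 : (2 ^ r) ^ m ≤ Nat.card {X : Fin m → W // LinearIndependent (ZMod 2) X} := by
    rw [h4, ZMod.card]
    calc (2 ^ r) ^ m = ∏ _i : Fin m, 2 ^ r := by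
          rw [Finset.prod_const, card_univ, Fintype.card_fin]
      _ ≤ _ := by
          refine Finset.prod_le_prod' fun i _ => ?_
          have h6 : 2 ^ (i : ℕ) ≤ 2 ^ r := Nat.pow_le_pow_right (by norm_num) (by omega)
          have h7 : 2 ^ (r + 1) ≤ 2 ^ Module.finrank (ZMod 2) W :=
            Nat.pow_le_pow_right (by norm_num) h3
          rw [pow_succ] at h7
          omega
  refine h5.trans ?_
  have h8 : (IT α y A B s).card = Nat.card (IT α y A B s) := by simp
  rw [h8]
  refine Nat.card_le_card_of_injective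
    (fun X : {X : Fin m → W // LinearIndependent (ZMod 2) X} =>
      (⟨fun t => (X.1 t : A → ZMod 2), ?_⟩ : IT α y A B s)) ?_
  · unfold IT
    rw [mem_filter]
    refine ⟨mem_univ _, X.2.map' W.subtype (Submodule.ker_subtype W), fun t => ?_⟩
    exact (hmem _).1 (X.1 t).2
  · intro X X' hXX
    apply Subtype.ext
    funext t
    apply Subtype.ext
    exact congrFun (congrArg Subtype.val hXX) t

/-- few coefficients are bad for a given slice and rectangle -/
theorem bad (h : MOORE_Stmt) (α : Module.Basis (Fin n) (ZMod 2) (GaloisField 2 n))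
    {y : Fin n → ZMod 2} (hy : y ≠ 0) {A B : Finset (Fin n)} {ρ : ℕ} (hA : A.card = 4 * ρ)
    (hB : B.card = 4 * ρ) (hm : m ≤ ρ) :
    (univ.filter fun s : Fin m → GaloisField 2 n =>
      2 ^ n < (kerN (tens α s) y A B).card * 2 ^ ρ).card * (2 ^ (3 * ρ)) ^ m ≤
      Fintype.card (Fin m → GaloisField 2 n) := by
  classical
  refine le_trans ?_ (sum_IT h α hy A B (by rw [hA, hB]))
  calc _ = ∑ _s ∈ univ.filter fun s : Fin m → GaloisField 2 n =>
        2 ^ n < (kerN (tens α s) y A B).card * 2 ^ ρ, (2 ^ (3 * ρ)) ^ m := by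
        rw [Finset.sum_const, smul_eq_mul]
    _ ≤ ∑ s ∈ univ.filter fun s : Fin m → GaloisField 2 n =>
        2 ^ n < (kerN (tens α s) y A B).card * 2 ^ ρ, (IT α y A B s).card := by
        refine Finset.sum_le_sum fun s hs => ?_
        refine card_IT α y A B s (by omega) ?_
        have h1 := (mem_filter.1 hs).2
        have h2 := card_kerN (tens α s) y A B
        rw [hA] at h2
        have h3 : 0 < 2 ^ (4 * ρ) := by positivity
        have h4 : 0 < 2 ^ n := by positivity
        have h5 : 0 < 2 ^ ρ := by positivity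
        have h6 : 2 ^ n * 2 ^ (4 * ρ) < (kerN (tens α s) y A B).card * 2 ^ ρ * 2 ^ (4 * ρ) :=
          Nat.mul_lt_mul_of_pos_right h1 h3
        have h7 : (kerN (tens α s) y A B).card * 2 ^ ρ * 2 ^ (4 * ρ) =
            2 ^ n * ((ker (slice y A B (tens α s))).card * 2 ^ ρ) := by
          calc _ = ((kerN (tens α s) y A B).card * 2 ^ (4 * ρ)) * 2 ^ ρ := by ring
            _ = _ := by rw [h2]; ring
        rw [h7] at h6
        have h8 := Nat.lt_of_mul_lt_mul_left h6
        have h9 : 2 ^ (4 * ρ) = 2 ^ (3 * ρ) * 2 ^ ρ := by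
          rw [← pow_add]
          congr 1
          ring
        rw [h9] at h8
        exact Nat.lt_of_mul_lt_mul_right h8
    _ ≤ _ := Finset.sum_le_sum_of_subset (Finset.filter_subset _ _)

end count

end RICH

open RICH in
theorem rich (h : MOORE_Stmt) : RICH_Stmt := by
  classical
  intro n m ρ α hn hm hnm
  have : Fintype (GaloisField 2 n) := Fintype.ofFinite _
  by_contra hcon
  push Not at hcon
  set E : Finset ((Fin n → ZMod 2) × Finset (Fin n) × Finset (Fin n)) :=
    univ.filter fun e => e.1 ≠ 0 ∧ e.2.1.card = 4 * ρ ∧ e.2.2.card = 4 * ρ with hE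
  have hsub : (univ : Finset (Fin m → GaloisField 2 n)) ⊆
      E.biUnion fun e => univ.filter fun s : Fin m → GaloisField 2 n =>
        2 ^ n < (kerN (tens α s) e.1 e.2.1 e.2.2).card * 2 ^ ρ := by
    intro s _
    have h1 := hcon s
    unfold RichAt at h1
    push Not at h1
    obtain ⟨y, A, B, hy, hA, hB, hlt⟩ := h1
    rw [mem_biUnion]
    refine ⟨(y, A, B), ?_, ?_⟩
    · rw [hE, mem_filter]
      exact ⟨mem_univ _, hy, hA, hB⟩
    · rw [mem_filter]
      exact ⟨mem_univ _, hlt⟩
  set C := Fintype.card (Fin m → GaloisField 2 n) with hC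
  have hC0 : 0 < C := Fintype.card_pos
  have hEc : E.card ≤ 2 ^ (3 * n) := by
    refine (card_le_univ E).trans (le_of_eq ?_)
    rw [Fintype.card_prod, Fintype.card_prod, Fintype.card_fun, ZMod.card, Fintype.card_finset,
      Fintype.card_fin, ← pow_add, ← pow_add]
    congr 1
    ring
  have h1 : C * (2 ^ (3 * ρ)) ^ m ≤ 2 ^ (3 * n) * C := by
    calc C * (2 ^ (3 * ρ)) ^ m ≤ (E.biUnion fun e => univ.filter
          fun s : Fin m → GaloisField 2 n =>
          2 ^ n < (kerN (tens α s) e.1 e.2.1 e.2.2).card * 2 ^ ρ).card * (2 ^ (3 * ρ)) ^ m := by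
          refine Nat.mul_le_mul_right _ ?_
          rw [hC, ← card_univ]
          exact card_le_card hsub
      _ ≤ (∑ e ∈ E, (univ.filter fun s : Fin m → GaloisField 2 n =>
          2 ^ n < (kerN (tens α s) e.1 e.2.1 e.2.2).card * 2 ^ ρ).card) * (2 ^ (3 * ρ)) ^ m :=
          Nat.mul_le_mul_right _ card_biUnion_le
      _ = ∑ e ∈ E, (univ.filter fun s : Fin m → GaloisField 2 n =>
          2 ^ n < (kerN (tens α s) e.1 e.2.1 e.2.2).card * 2 ^ ρ).card *
            (2 ^ (3 * ρ)) ^ m := by
          rw [Finset.sum_mul]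
      _ ≤ ∑ _e ∈ E, C := by
          refine Finset.sum_le_sum fun e he => ?_
          rw [hE, mem_filter] at he
          obtain ⟨-, hy, hA, hB⟩ := he
          exact bad h α hy hA hB hm
      _ = E.card * C := by rw [Finset.sum_const, smul_eq_mul]
      _ ≤ 2 ^ (3 * n) * C := Nat.mul_le_mul_right _ hEc
  rw [mul_comm] at h1
  have h2 := Nat.le_of_mul_le_mul_right h1 hC0
  rw [← pow_mul] at h2
  have h3 := (Nat.pow_le_pow_iff_right (by norm_num : 1 < 2)).1 h2
  have h4 : 3 * ρ * m = 2 * ρ * m + ρ * m := by ring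
  omega

end Pool.Agent.UM
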