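import Pool.Agent.UM.Stmts

/-!
# A small system of pieces has a small correlation with a rich cubic form (SYSB)
-/

set_option autoImplicit false
set_option linter.unusedSectionVars false

namespace Pool.Agent.UM

open Finset
open Pool.Agent.Lib_helper26.TS (fil)
open Pool.Agent.Lib_helper26.TB (Cell cub kerN sg side Closed PP fam DS choose_bound fam_card)

theorem sysb (h1 : CORS_Stmt) (h2 : COLS_Stmt) : SYSB_Stmt := by
  intro n ρ k W γ X B L K M P D _ _ _ Acc S hM hk hX hXd hgm hγ1 hρ2 hrl hb1 hb2 hpw hK hL0 hB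
    hLr hLg hpc hAcc hD
  obtain ⟨q, hq⟩ : ∃ q, q = 400 * X * ρ := ⟨_, rfl⟩
  obtain ⟨e, he⟩ : ∃ e, e = 24 * k * q / 2 ^ γ := ⟨_, rfl⟩
  obtain ⟨m, hm⟩ : ∃ m, m = 400 * X := ⟨_, rfl⟩
  obtain ⟨w, hw⟩ : ∃ w, w + 1 = 2 ^ γ := ⟨2 ^ γ - 1, Nat.sub_add_cancel Nat.one_le_two_pow⟩
  have hq0 : 0 < q := by
    rw [hq]
    exact Nat.mul_pos (by omega) (by omega)
  have h2γ : 0 < 2 ^ γ := by positivity
  -- the number of exceptional cells
  have he1 : 8 * γ * e ≤ ρ := by
    have h1 : e * 2 ^ γ ≤ 24 * k * q := by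
      rw [he]
      exact Nat.div_mul_le_self _ _
    refine Nat.le_of_mul_le_mul_right ?_ h2γ
    calc 8 * γ * e * 2 ^ γ = 8 * γ * (e * 2 ^ γ) := by ring
      _ ≤ 8 * γ * (24 * k * q) := Nat.mul_le_mul_left _ h1
      _ = 76800 * X ^ 2 * ρ := by rw [hq, hXd]; ring
      _ ≤ 83200 * X ^ 2 * ρ := by gcongr; norm_num
      _ ≤ 2 ^ γ * ρ := Nat.mul_le_mul_right _ hgm
      _ = ρ * 2 ^ γ := Nat.mul_comm _ _
  have he2 : 256 * e ≤ ρ := by
    have : 256 * e ≤ 8 * γ * e := Nat.mul_le_mul_right _ (by omega)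
    omega
  have heq : e ≤ q := by
    rw [hq]
    have : ρ ≤ 400 * X * ρ := Nat.le_mul_of_pos_left _ (by omega)
    omega
  -- the blocks
  obtain ⟨u, hu⟩ : ∃ u, u = ρ / 64 + 1 := ⟨_, rfl⟩
  have hqu : q ≤ 2 ^ γ * u := by
    have h1 : ρ ≤ 64 * u := by omega
    have h2 : 25600 * X ≤ 2 ^ γ := by
      refine le_trans ?_ hgm
      rw [sq]
      calc 25600 * X ≤ 83200 * X := by omega
        _ ≤ 83200 * (X * X) := Nat.mul_le_mul_left _ (Nat.le_mul_of_pos_left _ (by omega))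
    have h3 : q * 64 ≤ 2 ^ γ * u * 64 := by
      calc q * 64 = 25600 * X * ρ := by rw [hq]; ring
        _ ≤ 2 ^ γ * (64 * u) := Nat.mul_le_mul h2 h1
        _ = _ := by ring
    omega
  have hn1 : 1 ≤ n := by
    have := Nat.mul_pos (show 0 < 2 ^ (6 * X + 4) by positivity) (show 0 < ρ by omega)
    omega
  -- the estimate of the main term
  have hρ3 : n ≤ 2 ^ (6 * X + 3) * (4 * ρ) := by
    refine hρ2.trans (le_of_eq ?_)
    rw [show 6 * X + 5 = (6 * X + 3) + 2 by ring, pow_add]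
    ring
  have hchoose : (n.choose (4 * ρ) : ℝ) ≤ 2 ^ (20 * ρ + 24 * X * ρ) := by
    refine (choose_bound (a := 4 * ρ) hρ3).trans (le_of_eq ?_)
    congr 1
    ring
  have hEm : 2 * ((n.choose (4 * ρ) : ℝ) ^ 2) / 2 ^ (q - e) ≤ ((1 / 2 : ℝ) ^ (ρ / 2)) ^ m := by
    rw [div_le_iff₀ (by positivity), ← pow_mul, one_div, inv_pow, ← div_eq_inv_mul,
      le_div_iff₀ (by positivity)]
    calc 2 * ((n.choose (4 * ρ) : ℝ) ^ 2) * 2 ^ (ρ / 2 * m) ≤
          2 * ((2 ^ (20 * ρ + 24 * X * ρ)) ^ 2) * 2 ^ (ρ / 2 * m) := by gcongr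
      _ = 2 ^ (1 + (20 * ρ + 24 * X * ρ) * 2 + ρ / 2 * m) := by
          rw [← pow_mul, ← pow_succ', ← pow_add]
          congr 1
          ring
      _ ≤ 2 ^ (q - e) := by
          refine pow_le_pow_right₀ (by norm_num) ?_
          have h1 : ρ / 2 * m ≤ 200 * (X * ρ) := by
            rw [hm]
            calc ρ / 2 * (400 * X) = (2 * (ρ / 2)) * (200 * X) := by ring
              _ ≤ ρ * (200 * X) := Nat.mul_le_mul_right _ (by omega)
              _ = _ := by ring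
          have h2 : (20 * ρ + 24 * X * ρ) * 2 = 40 * ρ + 48 * (X * ρ) := by ring
          have h3 : q = 400 * (X * ρ) := by rw [hq]; ring
          have h4 : 32 * ρ ≤ X * ρ := Nat.mul_le_mul_right _ hX
          rw [h2, h3]
          omega
  -- the colouring
  have hwc : ((w : ℝ) + 1) = 2 ^ γ := by exact_mod_cast hw
  have hL0' : (0:ℝ) < L := by exact_mod_cast hL0
  have hkn : 0 < k * n := Nat.mul_pos hk hn1
  have hkn' : (0:ℝ) < k * (3 * n) := by
    have : (0:ℝ) < k * n := by exact_mod_cast hkn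
    nlinarith
  obtain ⟨ω, hω⟩ := h2 n w k ρ q e L B P D Acc S ((W : ℝ) + 8) hL0 hq0 (by omega) hkn hB hpc hAcc
    (by
      rw [hwc]
      have h1 : 4 * ρ * (4 * (2 ^ γ) ^ (6 * k)) ≤ n := by
        refine le_trans (le_of_eq ?_) hrl
        rw [← pow_mul, hXd, show 6 * (k * γ) + 4 = γ * (6 * k) + 4 by ring, pow_add]
        ring
      exact_mod_cast h1)
    (by
      rw [le_div_iff₀ (by positivity)]
      have h3 : ((L * (k * (3 * n)) * (W + 8) : ℕ) : ℝ) ≤ ((8 * ρ ^ 2 : ℕ) : ℝ) := by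
        exact_mod_cast hLr
      push_cast at h3
      calc ((W : ℝ) + 8) * (2 * (L * (k * (3 * n)))) = 2 * (L * (k * (3 * n)) * (W + 8)) := by ring
        _ ≤ 2 * (8 * (ρ : ℝ) ^ 2) := by linarith
        _ = (4 * ρ : ℝ) ^ 2 := by ring)
    (by
      rw [hwc, le_div_iff₀ (by positivity)]
      have h3 : ((2 * 4 ^ γ * L * (W + 8) : ℕ) : ℝ) ≤ ((k * (3 * n) : ℕ) : ℝ) := by
        exact_mod_cast hLg
      push_cast at h3
      have h4 : ((2:ℝ) ^ γ) ^ 2 = 4 ^ γ := by
        rw [← pow_mul, mul_comm γ 2, pow_mul]; norm_num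
      rw [h4]
      calc ((W : ℝ) + 8) * (2 * 4 ^ γ * L) = 2 * 4 ^ γ * L * (W + 8) := by ring
        _ ≤ _ := h3)
    (by
      rw [hwc]
      have hqn : q ≤ n := by
        refine le_trans ?_ hrl
        rw [hq]
        refine Nat.mul_le_mul_right _ ?_
        have h1 : X < 2 ^ X := Nat.lt_two_pow_self
        calc 400 * X ≤ 2 ^ 9 * 2 ^ X := by
              have : 400 ≤ 2 ^ 9 := by norm_num
              exact Nat.mul_le_mul this h1.le
          _ = 2 ^ (9 + X) := by rw [← pow_add]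
          _ ≤ 2 ^ (6 * X + 4) := Nat.pow_le_pow_right (by norm_num) (by omega)
      have h1 : (n : ℝ) / (2 * q) ≤ (n / q : ℕ) := by
        rw [div_le_iff₀ (by positivity)]
        have h2 : n ≤ (n / q) * (2 * q) := by
          have h3 : 1 ≤ n / q := Nat.div_pos hqn hq0
          have h4 := Nat.lt_mul_div_succ n hq0
          have h5 : q * (n / q + 1) = (n / q) * q + q := by ring
          have h6 : (n / q) * (2 * q) = (n / q) * q + (n / q) * q := by ring
          have h7 : q ≤ (n / q) * q := Nat.le_mul_of_pos_left _ h3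
          omega
        exact_mod_cast h2
      have h2 : (24 * k * q : ℝ) / 2 ^ γ ≤ (e + 1 : ℝ) := by
        have h3 := Nat.lt_floor_add_one (((24 * k * q : ℕ) : ℝ) / ((2 ^ γ : ℕ) : ℝ))
        rw [Nat.floor_div_eq_div] at h3
        push_cast at h3
        rw [he]
        exact h3.le
      have hq0' : (0:ℝ) < q := by exact_mod_cast hq0
      push_cast
      have hkn0 : (0:ℝ) ≤ k * n := by positivity
      calc 2 * ((k : ℝ) * (3 * n)) / 2 ^ γ ≤ 2 * (6 * k * n) / 2 ^ γ := by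
            refine div_le_div_of_nonneg_right ?_ (by positivity)
            nlinarith
        _ = (n : ℝ) / (2 * q) * ((24 * k * q : ℝ) / 2 ^ γ) := by field_simp; ring
        _ ≤ ((n / q : ℕ) : ℝ) * (e + 1 : ℝ) :=
            mul_le_mul h1 h2 (by positivity) (Nat.cast_nonneg _))
  -- the correlation
  have hc := h1 n w ρ q e m M P D Acc S ω ((1 / 2 : ℝ) ^ (ρ / 2)) hM (by
      rw [hq, hm]
      refine (Nat.sub_le _ _).trans (le_of_eq ?_)
      ring) (by omega) ⟨200 * X, by rw [hm]; ring⟩ (by positivity) hEm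
  refine hc.trans ?_
  have hN : (0:ℝ) < 2 ^ (3 * n) := by positivity
  have t1 : (3:ℝ) * Real.exp (-((W : ℝ) + 8)) ≤ 3 / 2 ^ (W + 8) := by
    have h1 : Real.exp (-((W : ℝ) + 8)) ≤ 1 / 2 ^ (W + 8) := by
      rw [Real.exp_neg, one_div]
      refine inv_anti₀ (by positivity) ?_
      have h2 : ((W : ℝ) + 8) = ((W + 8 : ℕ) : ℝ) * 1 := by push_cast; ring
      rw [h2, Real.exp_nat_mul]
      refine pow_le_pow_left₀ (by norm_num) ?_ _
      have := Real.exp_one_gt_d9
      linarith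
    calc (3:ℝ) * Real.exp (-((W : ℝ) + 8)) ≤ 3 * (1 / 2 ^ (W + 8)) := by gcongr
      _ = _ := by ring
  have t2 : (Fintype.card D : ℝ) * ((fam n q e).card * (2 ^ (3 * n) *
      (1 / 2 : ℝ) ^ (ρ / 2))) ≤ 2 ^ (3 * n) * (1 / 2 ^ (W + 8)) := by
    have a1 : (Fintype.card D : ℝ) ≤ 2 ^ K := by exact_mod_cast hD
    have a2 : ((fam n q e).card : ℝ) ≤ 2 ^ (ρ / 32) * 2 ^ (2 * u + γ * e) := by
      have a3 := fam_card (n := n) hq0 heq
      calc ((fam n q e).card : ℝ) ≤ n * (q.choose e : ℝ) := by exact_mod_cast a3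
        _ ≤ 2 ^ (ρ / 32) * 2 ^ (2 * u + γ * e) := by
            refine mul_le_mul (by exact_mod_cast hpw) (choose_bound hqu) (by positivity)
              (by positivity)
    have a3 : (2:ℝ) ^ K * (2 ^ (ρ / 32) * 2 ^ (2 * u + γ * e)) * 2 ^ (W + 8) ≤
        2 ^ (ρ / 2) := by
      rw [← pow_add, ← pow_add, ← pow_add]
      refine pow_le_pow_right₀ (by norm_num) ?_
      have h1 : 8 * (γ * e) ≤ ρ := by
        have : 8 * (γ * e) = 8 * γ * e := by ring
        omega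
      revert h1
      generalize γ * e = x1
      intro h1
      omega
    have a4 : (1 / 2 : ℝ) ^ (ρ / 2) = 1 / 2 ^ (ρ / 2) := by rw [one_div, inv_pow, one_div]
    calc (Fintype.card D : ℝ) * ((fam n q e).card * (2 ^ (3 * n) *
          (1 / 2 : ℝ) ^ (ρ / 2))) ≤ 2 ^ K * ((2 ^ (ρ / 32) * 2 ^ (2 * u + γ * e)) *
          (2 ^ (3 * n) * (1 / 2 : ℝ) ^ (ρ / 2))) := by gcongr
      _ = 2 ^ (3 * n) * ((2 ^ K * (2 ^ (ρ / 32) * 2 ^ (2 * u + γ * e))) /
          2 ^ (ρ / 2)) := by rw [a4]; ring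
      _ ≤ 2 ^ (3 * n) * (1 / 2 ^ (W + 8)) := by
          refine mul_le_mul_of_nonneg_left ?_ hN.le
          rw [div_le_div_iff₀ (by positivity) (by positivity), one_mul]
          exact a3
  have t3 := add_le_add (hω.trans (mul_le_mul_of_nonneg_left t1 hN.le)) t2
  refine t3.trans (le_of_eq ?_)
  have h4 : (4:ℝ) = 3 + 1 := by norm_num
  rw [h4, add_div, mul_add]

end Pool.Agent.UM
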