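import Pool.Agent.UM.Moore
import Pool.Agent.UM.Rich
import Pool.Agent.UM.Form
import Pool.Agent.UM.Parm
import Pool.Agent.UM.Modes
import Pool.Agent.UM.Mix
import Pool.Agent.UM.Reco
import Pool.Agent.UM.Comp
import Pool.Agent.UM.Sparse
import Pool.Agent.UM.Sysom
import Pool.Agent.UM.Off
import Pool.Agent.UM.Block
import Pool.Agent.UM.Restr
import Pool.Agent.UM.One
import Pool.Agent.UM.Famm
import Pool.Agent.UM.Cors
import Pool.Agent.UM.Cols
import Pool.Agent.UM.Sysb
import Pool.Agent.UM.Num
import Pool.Agent.UM.Low

/-!
# Assembly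
-/

set_option autoImplicit false

namespace Pool.Agent.UM

theorem low_final : LOW_Stmt :=
  low (rich moore) form_thm block
    (one restr off (sysom mix reco comp sparse) (sysb (cors famm) cols)) num

theorem card_ECell (n m : ℕ) : Fintype.card (ECell n m) = 4 * n * m := by
  rw [Fintype.card_sum, Fintype.card_prod, Fintype.card_prod, Fintype.card_prod, Fintype.card_fin,
    Fintype.card_fin, Fintype.card_fin]
  ring

end Pool.Agent.UM
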