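import Pool.Agent.UM.Defs
import Pool.Agent.Lib_helper26.TB.Gap

/-!
# Definitions and statements of the modules
-/

set_option autoImplicit false

namespace Pool.Agent.UM

open Finset
open Pool.Agent.Lib_helper26.TS (fil)
open Pool.Agent.Lib_helper26.TB (Cell cub kerN sg side Closed PP fam DS)

/-! ### The field part -/

/-- all slices of the tensor have rank at least `ρ` on all rectangles of size `4ρ` -/
def RichAt {n : ℕ} (ρ : ℕ) (M : Fin n → Fin n → Fin n → ZMod 2) : Prop :=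
  ∀ (y : Fin n → ZMod 2) (A B : Finset (Fin n)), y ≠ 0 → A.card = 4 * ρ → B.card = 4 * ρ →
    (kerN M y A B).card * 2 ^ ρ ≤ 2 ^ n

/-- the tensor of the trilinear form `Tr (S(X) Y Z)` -/
noncomputable def tens {n m : ℕ} (α : Fin n → GaloisField 2 n) (s : Fin m → GaloisField 2 n)
    (i j l : Fin n) : ZMod 2 :=
  Algebra.trace (ZMod 2) (GaloisField 2 n) (lpol s (α i) * α j * α l)

/-- MOORE: linearised polynomials with `m` coefficients take arbitrary values at `r ≤ m`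
elements that are linearly independent over the field with two elements. -/
def MOORE_Stmt : Prop :=
  ∀ (F : Type) [Field F] [Algebra (ZMod 2) F] (r m : ℕ) (X : Fin r → F),
    LinearIndependent (ZMod 2) X → r ≤ m →
    Function.Surjective fun (s : Fin m → F) (i : Fin r) => ∑ k : Fin m, s k * X i ^ (2 ^ (k : ℕ))

/-- RICH: some coefficients give a rich tensor. -/
def RICH_Stmt : Prop :=
  ∀ (n m ρ : ℕ) (α : Module.Basis (Fin n) (ZMod 2) (GaloisField 2 n)), 0 < n → m ≤ ρ →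
    3 * n + 2 ≤ 2 * ρ * m → ∃ s : Fin m → GaloisField 2 n, RichAt ρ (tens α s)

/-- FORM: the form is a sum of cubic forms. -/
def FORM_Stmt : Prop :=
  ∀ (n m : ℕ) (α : Fin n → GaloisField 2 n) (z : ECell n m → ZMod 2),
    form α z = ∑ p : Fin m,
      cub (tens α fun k => elt α fun i => z (Sum.inl (k, i))) fun e => z (Sum.inr (p, e))

/-- PARM: the form is in parity mode with two states and no memory. -/
def PARM_Stmt : Prop :=
  ∀ (n m T : ℕ) (α : Fin n → GaloisField 2 n), 0 < n → 0 < m → 4 ≤ T →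
    InParity (Dec (ECell n m) (ZMod 2) (ZMod 2) Unit T 0 0) (Nat.clog 2 (m ^ 2 * n ^ 4))
      (fun z => form α z = 1)

/-- MODES: PP mode and parity mode are PSPACE modes. -/
def MODES_Stmt : Prop :=
  ∀ (I A V G : Type) (T δ J W : ℕ) (L : (I → A) → Prop),
    (InPP (Dec I A V G T δ J) W L → InPSPACE (Dec I A V G T δ J) (W * (W + 3) / 2) L) ∧
    (InParity (Dec I A V G T δ J) W L → InPSPACE (Dec I A V G T δ J) (2 * W) L)

/-! ### Systems of pieces -/

/-- A system of pieces for the set of inputs `Acc`: `pc x e` is the set of the pieces of the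
computation on `x` that read the cell `e`; `data ω x` is the information about the computation
that is kept for the colouring `ω` of the pieces. -/
structure Sys (I A P D : Type) (Acc : (I → A) → Prop) where
  pc : (I → A) → I → Finset P
  data : (P → Bool) → (I → A) → D
  mix : ∀ (ω : P → Bool) (x y z : I → A), data ω x = data ω y →
    (∀ e, (∃ j ∈ pc x e, ω j = true) → z e = x e) →
    (∀ e, (∃ j ∈ pc y e, ω j = false) → z e = y e) →
    data ω z = data ω x ∧ ∀ e j, j ∈ pc z e ↔ if ω j = true then j ∈ pc x e else j ∈ pc y e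
  recov : ∀ (ω : P → Bool) (x y : I → A), data ω x = data ω y →
    (∀ e, (∃ j ∈ pc x e, ω j = false) → (∃ j ∈ pc y e, ω j = false) → x e = y e) →
    ∀ e j, ω j = false → (j ∈ pc x e ↔ j ∈ pc y e)
  acc : ∀ (ω : P → Bool) (x y : I → A), data ω x = data ω y → (Acc x ↔ Acc y)

/-- FAMM: the family bound for a rich tensor. -/
def FAMM_Stmt : Prop :=
  ∀ (n ρ m : ℕ) (M : Fin n → Fin n → Fin n → ZMod 2) (Q : Finset (Fin n))
    (F : Finset (Finset (Fin n) × Finset (Fin n)))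
    (Z : Finset (Fin n) × Finset (Fin n) → (Cell n → ZMod 2) → Prop) (E : ℝ),
    RichAt ρ M → Q.card ≤ ρ * m → 0 < m → Even m →
    (∀ p ∈ F, p.1.card = 4 * ρ ∧ p.2.card = 4 * ρ) →
    (∀ p ∈ F, Closed (PP p) (side 2 Q) (Z p)) →
    (∀ p ∈ F, ∀ p' ∈ F, ∀ z z' w : Cell n → ZMod 2, Z p z → Z p' z' →
      (∀ i, i ∉ PP p → z i = w i) → (∀ i, i ∉ PP p' → z' i = w i) → p = p') →
    0 ≤ E → 2 * (F.card : ℝ) / 2 ^ Q.card ≤ E ^ m →
    ∑ p ∈ F, |∑ z ∈ fil (Z p), sg (cub M z)| ≤ 2 ^ (3 * n) * E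

section cls

variable {n w : ℕ} {P D : Type} {Acc : (Cell n → ZMod 2) → Prop}

/-- the cells read in pieces of colour zero -/
noncomputable def UFs (S : Sys (Cell n) (ZMod 2) P D Acc) (ω : P → Fin (w + 1))
    (x : Cell n → ZMod 2) : Finset (Cell n) := fil fun e => ∃ j ∈ S.pc x e, ω j = 0

/-- the cells read in other pieces -/
noncomputable def UNs (S : Sys (Cell n) (ZMod 2) P D Acc) (ω : P → Fin (w + 1))
    (x : Cell n → ZMod 2) : Finset (Cell n) := fil fun e => ∃ j ∈ S.pc x e, ω j ≠ 0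

/-- the good inputs -/
def GoodS (S : Sys (Cell n) (ZMod 2) P D Acc) (ω : P → Fin (w + 1)) (ρ q e : ℕ)
    (x : Cell n → ZMod 2) : Prop :=
  (4 * ρ ≤ (DS 0 (UNs S ω x)).card ∧ 4 * ρ ≤ (DS 1 (UNs S ω x)).card) ∧
    ∃ Q ∈ fam n q e, Q ⊆ DS 2 (UFs S ω x)

end cls

/-- CORS: the correlation of a system of pieces, for a colouring. -/
def CORS_Stmt : Prop :=
  ∀ (n w ρ q e m : ℕ) (M : Fin n → Fin n → Fin n → ZMod 2) (P D : Type) [Fintype P]
    [DecidableEq P] [Fintype D] (Acc : (Cell n → ZMod 2) → Prop) (S : Sys (Cell n) (ZMod 2) P D Acc)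
    (ω : P → Fin (w + 1)) (E : ℝ), RichAt ρ M → q - e ≤ ρ * m → 0 < m → Even m → 0 ≤ E →
    2 * ((n.choose (4 * ρ) : ℝ) ^ 2) / 2 ^ (q - e) ≤ E ^ m →
    |∑ z ∈ fil Acc, sg (cub M z)| ≤
      ((fil fun z => Acc z ∧ ¬ GoodS S ω ρ q e z).card : ℝ) +
      (Fintype.card D : ℝ) * ((fam n q e).card * (2 ^ (3 * n) * E))

/-- COLS: a good colouring of the pieces. -/
def COLS_Stmt : Prop :=
  ∀ (n w k ρ q e L B : ℕ) (P D : Type) [Fintype P] [DecidableEq P] [Fintype D]
    (Acc : (Cell n → ZMod 2) → Prop) (S : Sys (Cell n) (ZMod 2) P D Acc) (E : ℝ),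
    0 < L → 0 < q → 0 < ρ → 0 < k * n → B ≤ k * (3 * n) →
    (∀ x j, (fil fun e => j ∈ S.pc x e).card ≤ L) →
    (∀ x, Acc x → ∑ e, (S.pc x e).card ≤ B) →
    4 * (ρ : ℝ) * (4 * (w + 1 : ℝ) ^ (6 * k)) ≤ n →
    E ≤ (4 * ρ : ℝ) ^ 2 / (2 * (L * (k * (3 * n)))) →
    E ≤ (k * (3 * n) : ℝ) / (2 * (w + 1 : ℝ) ^ 2 * L) →
    2 * (k * (3 * n) : ℝ) / (w + 1 : ℝ) ≤ ((n / q) * (e + 1) : ℕ) →
    ∃ ω : P → Fin (w + 1),
      ((fil fun z => Acc z ∧ ¬ GoodS S ω ρ q e z).card : ℝ) ≤ 2 ^ (3 * n) * (3 * Real.exp (-E))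

/-- SYSB: a small system of pieces has a small correlation with a rich cubic form. -/
def SYSB_Stmt : Prop :=
  ∀ (n ρ k W γ X B L K : ℕ) (M : Fin n → Fin n → Fin n → ZMod 2) (P D : Type) [Fintype P]
    [DecidableEq P] [Fintype D] (Acc : (Cell n → ZMod 2) → Prop) (S : Sys (Cell n) (ZMod 2) P D Acc),
    RichAt ρ M → 1 ≤ k → 32 ≤ X → X = k * γ → 83200 * X ^ 2 ≤ 2 ^ γ → 32 ≤ γ →
    n ≤ 2 ^ (6 * X + 5) * ρ → 2 ^ (6 * X + 4) * ρ ≤ n → 1024 ≤ ρ → 32 * (W + 8) ≤ ρ →
    n ≤ 2 ^ (ρ / 32) → 32 * K ≤ ρ → 0 < L → B ≤ k * (3 * n) →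
    L * (k * (3 * n)) * (W + 8) ≤ 8 * ρ ^ 2 → 2 * 4 ^ γ * L * (W + 8) ≤ k * (3 * n) →
    (∀ x j, (fil fun e => j ∈ S.pc x e).card ≤ L) →
    (∀ x, Acc x → ∑ e, (S.pc x e).card ≤ B) →
    Fintype.card D ≤ 2 ^ K →
    |∑ z ∈ fil Acc, sg (cub M z)| ≤ 2 ^ (3 * n) * (4 / 2 ^ (W + 8))

/-! ### Machines that need not read the input at every step -/

/-- A machine with registers at the points of `R` that reads an input cell or none at each step. -/
structure OM (I A V R G : Type) where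
  start : V
  init : R → G
  query : ℕ → V → Option I
  addr : ℕ → V → R
  next : ℕ → V → Option A → G → V × G

section om

variable {I A V R G O β κ : Type} [DecidableEq R] [DecidableEq β]

def OM.conf (M : OM I A V R G) (x : I → A) : ℕ → V × (R → G)
  | 0 => (M.start, M.init)
  | t + 1 =>
    let c := M.conf x t
    let r := M.next t c.1 ((M.query t c.1).map x) (c.2 (M.addr t c.1))
    (r.1, Function.update c.2 (M.addr t c.1) r.2)

/-- the state at time `t` -/
def OM.st (M : OM I A V R G) (x : I → A) (t : ℕ) : V := (M.conf x t).1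

/-- the contents of the registers at time `t` -/
def OM.mem (M : OM I A V R G) (x : I → A) (t : ℕ) : R → G := (M.conf x t).2

/-- the page used at time `t`, for the paging `pg` -/
def OM.blk (M : OM I A V R G) (pg : R → β) (x : I → A) (t : ℕ) : β := pg (M.addr t (M.st x t))

/-- the number of uses of the page `B` before time `t` -/
def OM.vis (M : OM I A V R G) (pg : R → β) (x : I → A) (B : β) (t : ℕ) : ℕ :=
  ((range t).filter fun t' => M.blk pg x t' = B).card

/-- the piece of time `t`: the page and the number of its use, divided by `L` -/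
def OM.pc (M : OM I A V R G) (pg : R → β) (L : ℕ) (x : I → A) (t : ℕ) : β × ℕ :=
  (M.blk pg x t, M.vis pg x (M.blk pg x t) t / L)

/-- the same data: the states after changes of the page, the states and the contents of the page
at the ends of the pieces, the last state -/
structure OM.Rel (M : OM I A V R G) (pg : R → β) (L T : ℕ) (x y : I → A) : Prop where
  chg : ∀ t, t + 1 < T → (M.blk pg x t ≠ M.blk pg x (t + 1) ∨ M.blk pg y t ≠ M.blk pg y (t + 1)) →
    M.st x (t + 1) = M.st y (t + 1)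
  fin : ∀ t < T, (L ∣ M.vis pg x (M.blk pg x t) t + 1 ∨ L ∣ M.vis pg y (M.blk pg y t) t + 1) →
    M.st x (t + 1) = M.st y (t + 1) ∧
      ∀ r, pg r = M.blk pg x t → M.mem x (t + 1) r = M.mem y (t + 1) r
  last : M.st x T = M.st y T

end om

/-- MIX: the mixed run. -/
def MIX_Stmt : Prop :=
  ∀ (I A V R G β : Type) [DecidableEq R] [DecidableEq β] (M : OM I A V R G) (pg : R → β) (L T : ℕ)
    (ω : β × ℕ → Bool) (x y z : I → A), 0 < L → M.Rel pg L T x y →
    (∀ t < T, ω (M.pc pg L x t) = true → ∀ e, M.query t (M.st x t) = some e → z e = x e) →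
    (∀ t < T, ω (M.pc pg L y t) = false → ∀ e, M.query t (M.st y t) = some e → z e = y e) →
    M.Rel pg L T z x ∧ ∀ t < T, M.pc pg L z t = M.pc pg L x t ∧ M.pc pg L y t = M.pc pg L x t ∧
      (ω (M.pc pg L x t) = true → M.st z t = M.st x t ∧ M.st z (t + 1) = M.st x (t + 1)) ∧
      (ω (M.pc pg L x t) = false → M.st z t = M.st y t ∧ M.st z (t + 1) = M.st y (t + 1))

/-- RECO: recovering the pieces of one colour. -/
def RECO_Stmt : Prop :=
  ∀ (I A V R G β : Type) [DecidableEq R] [DecidableEq β] (M : OM I A V R G) (pg : R → β) (L T : ℕ)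
    (ω : β × ℕ → Bool) (x y : I → A), 0 < L → M.Rel pg L T x y →
    (∀ e, (∃ t < T, ω (M.pc pg L x t) = false ∧ M.query t (M.st x t) = some e) →
      (∃ t < T, ω (M.pc pg L y t) = false ∧ M.query t (M.st y t) = some e) → x e = y e) →
    ∀ t < T, M.pc pg L y t = M.pc pg L x t ∧
      (ω (M.pc pg L x t) = false → M.st y t = M.st x t)

/-- COMP: every piece has at most `L` times; few pieces are completed. -/
def COMP_Stmt : Prop :=
  ∀ (β : Type) [DecidableEq β] (b : ℕ → β) (L T : ℕ), 0 < L →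
    (∀ j : β × ℕ, ((range T).filter fun t =>
      (b t, ((range t).filter fun t' => b t' = b t).card / L) = j).card ≤ L) ∧
    ((range T).filter fun t => L ∣ ((range t).filter fun t' => b t' = b t).card + 1).card ≤ T / L

/-- SPARSE: the number of sparse partial functions. -/
def SPARSE_Stmt : Prop :=
  ∀ (A : Type) [Fintype A] (T K : ℕ),
    Nat.card {f : Fin T → Option A // (fil fun t => f t ≠ none).card ≤ K} ≤
      (T * Fintype.card A + 1) ^ K

/-- SYSOM: the system of pieces of a machine. `sel` chooses the paging from the totals of the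
counters `φ`; `accf` decides acceptance from the last state and the totals. -/
def SYSOM_Stmt : Prop :=
  ∀ (I A V R G O β κ : Type) [Fintype I] [Fintype V] [Nonempty V] [Fintype G] [Fintype O]
    [Nonempty O] [Fintype κ] [DecidableEq κ] [DecidableEq R] [DecidableEq β]
    (M : OM I A V R G) (pg : O → R → β) (v : ℕ) (slot : O → R → Fin v) (L T K : ℕ)
    (φ : κ → ℕ → V → V → Bool) (sel : (κ → ℕ) → O) (accf : V → (κ → ℕ) → Prop),
    let tot : (I → A) → κ → ℕ := fun x i =>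
      ((range T).filter fun t => φ i t (M.st x t) (M.st x (t + 1)) = true).card
    0 < L → (∀ o r r', pg o r = pg o r' → slot o r = slot o r' → r = r') →
    (∀ x, ((range (T - 1)).filter fun t =>
      M.blk (pg (sel (tot x))) x t ≠ M.blk (pg (sel (tot x))) x (t + 1)).card ≤ K) →
    ∃ (P D : Type) (_ : Fintype P) (_ : DecidableEq P) (_ : Fintype D)
      (S : Sys I A P D fun x => accf (M.st x T) (tot x)),
      (∀ x j, (fil fun e => j ∈ S.pc x e).card ≤ L) ∧
      (∀ x, ∑ e, (S.pc x e).card ≤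
        ((range T).filter fun t => (M.query t (M.st x t)).isSome = true).card) ∧
      Fintype.card D ≤ (T + 1) ^ (2 * Fintype.card κ) * (T * Fintype.card V + 1) ^ K *
        (T * (Fintype.card V * (Fintype.card G + 1) ^ v) + 1) ^ (T / L) * Fintype.card V

/-- OFF: a good offset. -/
def OFF_Stmt : Prop :=
  ∀ (b δ T J : ℕ) (a : ℕ → ℤ), 0 < b →
    ((range (T - 1)).filter fun t => (δ : ℤ) < |a (t + 1) - a t|).card ≤ J →
    ∃ o < b, ((range (T - 1)).filter fun t =>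
      (a t + (o : ℤ)) / (b : ℤ) ≠ (a (t + 1) + (o : ℤ)) / (b : ℤ)).card ≤ T * δ / b + J

/-- BLOCK: from the correlation at one point to the correlation with the sum over `m` points. -/
def BLOCK_Stmt : Prop :=
  ∀ (n m T B r : ℕ) (M : Fin n → Fin n → Fin n → ZMod 2)
    (acc : (Fin m → Cell n → ZMod 2) → Prop) (rd : (Fin m → Cell n → ZMod 2) → Fin m → ℕ) (δ : ℝ),
    0 < m → 4 * T ≤ m * (B + 1) → (∀ p, ∑ l, rd p l ≤ T) →
    (∀ (p : Fin m → Cell n → ZMod 2) (σ : Fin r → Fin m) (j : Fin r),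
      |∑ x ∈ fil (fun x => acc (Function.update p (σ j) x) ∧
          rd (Function.update p (σ j) x) (σ j) ≤ B ∧
          ∀ i : Fin r, i.val < j.val → B < rd (Function.update p (σ j) x) (σ i)),
        sg (cub M x)| ≤ 2 ^ (3 * n) * δ) →
    |∑ p ∈ fil acc, sg (∑ l, cub M (p l))| ≤
      (Fintype.card (Fin m → Cell n → ZMod 2) : ℝ) * (r * δ + 1 / 4 ^ r)

/-! ### One point of the input -/

variable {n m : ℕ}

/-- the input with coefficients `s` (bits) and points `p` -/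
def einp (s : Fin m × Fin n → ZMod 2) (p : Fin m → Cell n → ZMod 2) : ECell n m → ZMod 2 :=
  Sum.elim s fun q => p q.1 q.2

/-- the cells of the point `l` -/
def eblk (l : Fin m) : ECell n m → Option (Cell n)
  | Sum.inl _ => none
  | Sum.inr q => if q.1 = l then some q.2 else none

/-- the number of reads of cells of the point `l` -/
def erd {V G : Type} (Q : Mach (ECell n m) (ZMod 2) V G) (T : ℕ) (z : ECell n m → ZMod 2)
    (l : Fin m) : ℕ :=
  ((range T).filter fun t => (eblk l (Q.query t (Q.conf z t).1)).isSome = true).card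

/-- RESTR: the machine on one point. -/
def RESTR_Stmt : Prop :=
  ∀ (n m : ℕ) (V G : Type) (Q : Mach (ECell n m) (ZMod 2) V G) (s : Fin m × Fin n → ZMod 2)
    (p : Fin m → Cell n → ZMod 2) (l : Fin m),
    ∃ M : OM (Cell n) (ZMod 2) V ℤ G, M.addr = Q.addr ∧
      (∀ t v, M.query t v = eblk l (Q.query t v)) ∧
      ∀ x t, M.conf x t = Q.conf (einp s (Function.update p l x)) t

/-- ONE: the correlation at one point. -/
def ONE_Stmt : Prop :=
  ∀ (n m ρ k W γ X B L K T δ J b r : ℕ) (M : Fin n → Fin n → Fin n → ZMod 2) (V G : Type)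
    [Fintype V] [Fintype G] (Q : Mach (ECell n m) (ZMod 2) V G) (s : Fin m × Fin n → ZMod 2),
    (∀ z, Q.far δ T z ≤ J) →
    RichAt ρ M → 1 ≤ k → 32 ≤ X → X = k * γ → 83200 * X ^ 2 ≤ 2 ^ γ → 32 ≤ γ →
    n ≤ 2 ^ (6 * X + 5) * ρ → 2 ^ (6 * X + 4) * ρ ≤ n → 1024 ≤ ρ → 32 * (W + 8) ≤ ρ →
    n ≤ 2 ^ (ρ / 32) → 32 * K ≤ ρ → 0 < L → B ≤ k * (3 * n) → 0 < b →
    L * (k * (3 * n)) * (W + 8) ≤ 8 * ρ ^ 2 → 2 * 4 ^ γ * L * (W + 8) ≤ k * (3 * n) →
    (T + 1) ^ (2 * (b + r)) * (T * Fintype.card V + 1) ^ (T * δ / b + J) *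
      (T * (Fintype.card V * (Fintype.card G + 1) ^ b) + 1) ^ (T / L) * Fintype.card V ≤ 2 ^ K →
    ∀ (p : Fin m → Cell n → ZMod 2) (σ : Fin r → Fin m) (j : Fin r),
      |∑ x ∈ fil (fun x => Q.Accepts T (einp s (Function.update p (σ j) x)) ∧
          erd Q T (einp s (Function.update p (σ j) x)) (σ j) ≤ B ∧
          ∀ i : Fin r, i.val < j.val → B < erd Q T (einp s (Function.update p (σ j) x)) (σ i)),
        sg (cub M x)| ≤ 2 ^ (3 * n) * (4 / 2 ^ (W + 8))

/-- NUM: the parameters. -/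
def NUM_Stmt : Prop :=
  ∀ (n m k cV cG T δ J W : ℕ), 1 ≤ k → 0 < cV → 0 < cG → (k + 1) ^ (23040 * k) ≤ m →
    T ≤ k * (4 * n * m) →
    (Nat.log 2 cV + Nat.log 2 n + 1) *
      (J + (W + 1) * (Nat.log 2 cG + 1) * (δ + 1) * (Nat.log 2 n + 1)) * m ^ 16 ≤ n →
    ∃ ρ γ X L K b : ℕ, 32 ≤ X ∧ X = 6 * k * γ ∧ 83200 * X ^ 2 ≤ 2 ^ γ ∧ 32 ≤ γ ∧
      n ≤ 2 ^ (6 * X + 5) * ρ ∧ 2 ^ (6 * X + 4) * ρ ≤ n ∧ 1024 ≤ ρ ∧
      32 * ((2 * W + 2) + 8) ≤ ρ ∧ n ≤ 2 ^ (ρ / 32) ∧ 32 * K ≤ ρ ∧ 0 < L ∧ 0 < b ∧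
      L * (6 * k * (3 * n)) * ((2 * W + 2) + 8) ≤ 8 * ρ ^ 2 ∧
      2 * 4 ^ γ * L * ((2 * W + 2) + 8) ≤ 6 * k * (3 * n) ∧
      (T + 1) ^ (2 * (b + (W + 4))) * (T * cV + 1) ^ (T * δ / b + J) *
        (T * (cV * (cG + 1) ^ b) + 1) ^ (T / L) * cV ≤ 2 ^ K ∧
      m ≤ ρ ∧ 3 * n + 2 ≤ 2 * ρ * m

/-- LOW: the lower bound. -/
def LOW_Stmt : Prop :=
  ∀ (n m k T δ J W : ℕ) (V G : Type) [Fintype V] [Fintype G]
    (α : Module.Basis (Fin n) (ZMod 2) (GaloisField 2 n)), 0 < n → 1 ≤ k →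
    (k + 1) ^ (23040 * k) ≤ m → T ≤ k * (4 * n * m) →
    (InPP (Dec (ECell n m) (ZMod 2) V G T δ J) W (fun z => form α z = 1) ∨
      InGap (Dec (ECell n m) (ZMod 2) V G T δ J) W (fun z => form α z = 1)) →
    n < (Nat.log 2 (Fintype.card V) + Nat.log 2 n + 1) *
      (J + (W + 1) * (Nat.log 2 (Fintype.card G) + 1) * (δ + 1) * (Nat.log 2 n + 1)) * m ^ 16

end Pool.Agent.UM
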