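import Pool.Agent.UM.Stmts

/-!
# Linearised polynomials take arbitrary values at linearly independent elements
-/

namespace Pool.Agent.UM

namespace MOORE

theorem charTwo (F : Type) [Field F] [Algebra (ZMod 2) F] : CharP F 2 :=
  charP_of_injective_algebraMap (algebraMap (ZMod 2) F).injective 2

/-- A relation between the powers `2 ^ k`, `a ≤ k < a + r`, of `r` elements that are linearly
independent over the field with two elements is trivial. -/
theorem key (F : Type) [Field F] [Algebra (ZMod 2) F] : ∀ (r a : ℕ) (X : Fin r → F),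
    LinearIndependent (ZMod 2) X → ∀ c : Fin r → F,
    (∀ k, a ≤ k → k < a + r → ∑ i, c i * X i ^ (2 ^ k) = 0) → c = 0 := by
  have hchar : CharP F 2 := charTwo F
  have hprime : Fact (Nat.Prime 2) := ⟨Nat.prime_two⟩
  intro r
  induction r with
  | zero =>
    intro a X _ c _
    exact Subsingleton.elim _ _
  | succ r ih =>
    intro a X hX c hc
    by_contra hne
    obtain ⟨i₀, hi₀⟩ : ∃ i, c i ≠ 0 := by
      by_contra h
      push Not at h
      exact hne (funext h)
    -- normalise
    set c' : Fin (r + 1) → F := fun i => c i / c i₀ with hc'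
    have h1 : c' i₀ = 1 := div_self hi₀
    have hrel : ∀ k, a ≤ k → k < a + (r + 1) → ∑ i, c' i * X i ^ (2 ^ k) = 0 := by
      intro k hk1 hk2
      have h2 : ∑ i, c' i * X i ^ (2 ^ k) = (∑ i, c i * X i ^ (2 ^ k)) / c i₀ := by
        rw [Finset.sum_div]
        refine Finset.sum_congr rfl fun i _ => ?_
        simp only [hc']
        ring
      rw [h2, hc k hk1 hk2, zero_div]
    -- the differences
    have hd : ∀ k, a + 1 ≤ k → k < (a + 1) + r →
        ∑ i, (c' i ^ 2 - c' i) * X i ^ (2 ^ k) = 0 := by
      intro k hk1 hk2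
      obtain ⟨k, rfl⟩ : ∃ k', k = k' + 1 := ⟨k - 1, by omega⟩
      have h2 := hrel k (by omega) (by omega)
      have h3 := hrel (k + 1) (by omega) (by omega)
      have h4 : ∑ i, c' i ^ 2 * X i ^ (2 ^ (k + 1)) = 0 := by
        have h5 : (∑ i, c' i * X i ^ (2 ^ k)) ^ 2 = ∑ i, (c' i * X i ^ (2 ^ k)) ^ 2 :=
          sum_pow_char 2 _ _
        rw [h2, zero_pow two_ne_zero] at h5
        rw [h5]
        refine Finset.sum_congr rfl fun i _ => ?_
        rw [mul_pow, ← pow_mul, pow_succ 2 k]
      simp only [sub_mul]
      rw [Finset.sum_sub_distrib, h4, h3, sub_zero]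
    have hX' : LinearIndependent (ZMod 2) fun j : Fin r => X (i₀.succAbove j) :=
      hX.comp _ Fin.succAbove_right_injective
    have hz := ih (a + 1) (fun j => X (i₀.succAbove j)) hX'
      (fun j => c' (i₀.succAbove j) ^ 2 - c' (i₀.succAbove j)) (by
        intro k hk1 hk2
        have h2 := hd k hk1 hk2
        rw [Fin.sum_univ_succAbove _ i₀, h1] at h2
        simpa using h2)
    have h01 : ∀ i, c' i = 0 ∨ c' i = 1 := by
      intro i
      have h2 : c' i ^ 2 - c' i = 0 := by
        rcases eq_or_ne i i₀ with rfl | hi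
        · rw [h1]; ring
        · obtain ⟨j, rfl⟩ := Fin.exists_succAbove_eq hi
          exact congrFun hz j
      have h3 : c' i * (c' i - 1) = 0 := by
        rw [← h2]; ring
      rcases mul_eq_zero.mp h3 with h4 | h4
      · exact Or.inl h4
      · exact Or.inr (sub_eq_zero.mp h4)
    -- contradiction with the independence
    classical
    let e : Fin (r + 1) → ZMod 2 := fun i => if c' i = 0 then 0 else 1
    have he : ∀ i, algebraMap (ZMod 2) F (e i) = c' i := by
      intro i
      rcases h01 i with h | h
      · simp [e, h]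
      · simp [e, h]
    have hp : ∀ i, c' i ^ (2 ^ a) = c' i := by
      intro i
      rcases h01 i with h | h
      · rw [h, zero_pow (pow_ne_zero _ two_ne_zero)]
      · rw [h, one_pow]
    have hsum : ∑ i, c' i * X i = 0 := by
      have h2 : (∑ i, c' i * X i) ^ (2 ^ a) = ∑ i, (c' i * X i) ^ (2 ^ a) :=
        sum_pow_char_pow 2 a _ _
      have h3 : ∑ i, (c' i * X i) ^ (2 ^ a) = ∑ i, c' i * X i ^ (2 ^ a) :=
        Finset.sum_congr rfl fun i _ => by rw [mul_pow, hp]
      rw [h3, hrel a le_rfl (by omega)] at h2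
      exact pow_eq_zero_iff (pow_ne_zero _ two_ne_zero) |>.mp h2
    have h5 : ∑ i, e i • X i = 0 := by
      rw [← hsum]
      exact Finset.sum_congr rfl fun i _ => by rw [Algebra.smul_def, he]
    have h6 := Fintype.linearIndependent_iff.mp hX e h5 i₀
    have h7 : algebraMap (ZMod 2) F (e i₀) = 1 := by rw [he, h1]
    rw [h6, map_zero] at h7
    exact zero_ne_one h7

end MOORE

theorem moore : MOORE_Stmt := by
  intro F _ _ r m X hX hrm
  let M : Matrix (Fin r) (Fin m) F := Matrix.of fun i k => X i ^ (2 ^ (k : ℕ))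
  have hrow : LinearIndependent F M.row := by
    rw [Fintype.linearIndependent_iff]
    intro c hc i
    have h0 : c = 0 := by
      refine MOORE.key F r 0 X hX c fun k _ hk => ?_
      have h1 := congrFun hc ⟨k, by omega⟩
      simpa [M, Matrix.row, Finset.sum_apply] using h1
    rw [h0]
    rfl
  have hrank := hrow.rank_matrix
  have htop : LinearMap.range M.mulVecLin = ⊤ := by
    apply Submodule.eq_top_of_finrank_eq
    rw [Module.finrank_fin_fun]
    rw [Fintype.card_fin] at hrank
    exact hrank
  have hsurj := LinearMap.range_eq_top.mp htop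
  intro y
  obtain ⟨s, hs⟩ := hsurj y
  refine ⟨s, ?_⟩
  funext i
  have h1 := congrFun hs i
  rw [← h1]
  simp only [Matrix.mulVecLin_apply, Matrix.mulVec, dotProduct, M, Matrix.of_apply]
  exact Finset.sum_congr rfl fun k _ => mul_comm _ _

end Pool.Agent.UM
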